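import Pool.Agent.Lib.Nsh.Basic

/-!
# Last step of the analysis

MP_602ccf, project Nwl (owner helper29). Paper proof: /team-store/602ccf_winlose.md, section 4 (f), (g).

PROOF. `U`, `V` = the maxima of `rv n R y i`, `cv n C x j` (`Nsh.exists_max`). `U ≥ (1 - Y0) / 4`, `V ≥ (1 - X0) / 4`;
`bil n R x y ≤ (1 - X0) * U`, `bil n C x y ≤ (1 - Y0) * V`. `h` at the maxima: `X0 * U + Y0 * V + X0 * Y0 ≤ d`, so
`(X0 + Y0) / 4 ≤ d` and `X0 + Y0 ≤ 4 * d ≤ 1 / 2`. From `h` with the maximal column and `bil n C x y ≤ V`: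
`rv n R y i ≤ bil n R x y + d`; divide by `(1 - Y0) ≥ 1 / 2` and use `bil n R x y ≤ bil n R (x / (1 - X0)) y` (all terms `≥ 0`):
`rv n R (y / (1 - Y0)) i ≤ bil n R (x / (1 - X0)) (y / (1 - Y0)) + 2 * d`. Columns the same.
-/

set_option autoImplicit false

namespace Nwl

open Finset Nsh

namespace AlgAux

theorem rv_div {n : ℕ} (R : ℕ → ℕ → ℝ) (y : ℕ → ℝ) (b : ℝ) (i : ℕ) :
    rv n R (fun i => y i / b) i = rv n R y i / b := by
  unfold rv
  rw [sum_div]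
  refine sum_congr rfl (fun j _ => ?_)
  ring

theorem cv_div {n : ℕ} (R : ℕ → ℕ → ℝ) (x : ℕ → ℝ) (a : ℝ) (j : ℕ) :
    cv n R (fun i => x i / a) j = cv n R x j / a := by
  unfold cv
  rw [sum_div]
  refine sum_congr rfl (fun i _ => ?_)
  ring

theorem bil_div {n : ℕ} (R : ℕ → ℕ → ℝ) (x y : ℕ → ℝ) (a b : ℝ) :
    bil n R (fun i => x i / a) (fun i => y i / b) = bil n R x y / (a * b) := by
  unfold bil
  rw [sum_div]
  refine sum_congr rfl (fun i _ => ?_)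
  rw [rv_div, div_mul_div_comm]

theorem div_step {r B a b d : ℝ} (ha : 0 < a) (ha1 : a ≤ 1) (hb : 1 / 2 ≤ b) (hd : 0 ≤ d)
    (hB : 0 ≤ B) (h : r ≤ B + d) : r / b ≤ B / (a * b) + 2 * d := by
  have hb0 : 0 < b := by linarith
  have h1 : r / b ≤ (B + d) / b := div_le_div_of_nonneg_right h hb0.le
  have h2 : B / b ≤ B / (a * b) := by
    refine div_le_div_of_nonneg_left hB (mul_pos ha hb0) ?_
    nlinarith
  have h3 : d / b ≤ 2 * d := by
    rw [div_le_iff₀ hb0]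
    nlinarith
  rw [add_div] at h1
  linarith

end AlgAux

open AlgAux in
theorem alg {n : ℕ} (hn : 0 < n) {R C : ℕ → ℕ → ℝ} (hR : ∀ i < n, ∀ j < n, 1 / 4 ≤ R i j ∧ R i j ≤ 1 / 2)
    (hC : ∀ i < n, ∀ j < n, 1 / 4 ≤ C i j ∧ C i j ≤ 1 / 2) {x y : ℕ → ℝ} (hx : ∀ i < n, 0 ≤ x i)
    (hy : ∀ i < n, 0 ≤ y i) {X0 Y0 d : ℝ} (hX0 : 0 ≤ X0) (hY0 : 0 ≤ Y0)
    (hX : ∑ i ∈ range n, x i = 1 - X0) (hY : ∑ i ∈ range n, y i = 1 - Y0) (hd : 8 * d ≤ 1)
    (h : ∀ i < n, ∀ j < n, rv n R y i + cv n C x j + X0 * Y0 ≤ bil n R x y + bil n C x y + d) :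
    X0 ≤ 1 / 2 ∧ Y0 ≤ 1 / 2 ∧
      Good n R C (2 * d) (fun i => x i / (1 - X0)) (fun i => y i / (1 - Y0)) := by
  have hR0 : ∀ i < n, ∀ j < n, 0 ≤ R i j := fun i hi j hj => by linarith [(hR i hi j hj).1]
  have hC0 : ∀ i < n, ∀ j < n, 0 ≤ C i j := fun i hi j hj => by linarith [(hC i hi j hj).1]
  -- bounds for the payoffs of pure strategies
  have hrv : ∀ i < n, (1 - Y0) / 4 ≤ rv n R y i := by
    intro i hi
    have h1 : ∑ j ∈ range n, (1 / 4) * y j ≤ rv n R y i :=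
      sum_le_sum (fun j hj => mul_le_mul_of_nonneg_right (hR i hi j (mem_range.1 hj)).1
        (hy j (mem_range.1 hj)))
    rw [← mul_sum, hY] at h1
    linarith
  have hcv : ∀ j < n, (1 - X0) / 4 ≤ cv n C x j := by
    intro j hj
    have h1 : ∑ i ∈ range n, x i * (1 / 4) ≤ cv n C x j :=
      sum_le_sum (fun i hi => mul_le_mul_of_nonneg_left (hC i (mem_range.1 hi) j hj).1
        (hx i (mem_range.1 hi)))
    rw [← sum_mul, hX] at h1
    linarith
  have ha0 : 0 ≤ 1 - X0 := by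
    rw [← hX]
    exact sum_nonneg (fun i hi => hx i (mem_range.1 hi))
  have hb0 : 0 ≤ 1 - Y0 := by
    rw [← hY]
    exact sum_nonneg (fun i hi => hy i (mem_range.1 hi))
  obtain ⟨i0, hi0, hU⟩ := exists_max hn (rv n R y)
  obtain ⟨j0, hj0, hV⟩ := exists_max hn (cv n C x)
  have hU0 := hrv i0 hi0
  have hV0 := hcv j0 hj0
  have hbR : bil n R x y ≤ (1 - X0) * rv n R y i0 := by
    have h1 : bil n R x y ≤ ∑ i ∈ range n, x i * rv n R y i0 :=
      sum_le_sum (fun i hi => mul_le_mul_of_nonneg_left (hU i (mem_range.1 hi))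
        (hx i (mem_range.1 hi)))
    rw [← sum_mul, hX] at h1
    exact h1
  have hbC : bil n C x y ≤ (1 - Y0) * cv n C x j0 := by
    rw [bil_eq_cv]
    have h1 : ∑ j ∈ range n, cv n C x j * y j ≤ ∑ j ∈ range n, cv n C x j0 * y j :=
      sum_le_sum (fun j hj => mul_le_mul_of_nonneg_right (hV j (mem_range.1 hj))
        (hy j (mem_range.1 hj)))
    rw [← mul_sum, hY] at h1
    linarith
  have hbR0 : 0 ≤ bil n R x y :=
    sum_nonneg (fun i hi => mul_nonneg (hx i (mem_range.1 hi))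
      (by linarith [hrv i (mem_range.1 hi)]))
  have hbC0 : 0 ≤ bil n C x y := by
    rw [bil_eq_cv]
    exact sum_nonneg (fun j hj => mul_nonneg (by linarith [hcv j (mem_range.1 hj)])
      (hy j (mem_range.1 hj)))
  have hXY : 0 ≤ X0 * Y0 := mul_nonneg hX0 hY0
  have hmax := h i0 hi0 j0 hj0
  have h1 : X0 * ((1 - Y0) / 4) ≤ X0 * rv n R y i0 := mul_le_mul_of_nonneg_left hU0 hX0
  have h2 : Y0 * ((1 - X0) / 4) ≤ Y0 * cv n C x j0 := mul_le_mul_of_nonneg_left hV0 hY0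
  have hsum : X0 + Y0 ≤ 4 * d := by nlinarith
  have hd0 : 0 ≤ d := by linarith
  have hXh : X0 ≤ 1 / 2 := by linarith
  have hYh : Y0 ≤ 1 / 2 := by linarith
  refine ⟨hXh, hYh, ?_, ?_⟩
  · intro i hi
    rw [rv_div, bil_div]
    have h3 := h i hi j0 hj0
    have h4 : (1 - Y0) * cv n C x j0 ≤ cv n C x j0 := by nlinarith
    exact div_step (by linarith) (by linarith) (by linarith) hd0 hbR0 (by linarith)
  · intro j hj
    rw [cv_div, bil_div, mul_comm (1 - X0) (1 - Y0)]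
    have h3 := h i0 hi0 j hj
    have h4 : (1 - X0) * rv n R y i0 ≤ rv n R y i0 := by nlinarith
    exact div_step (by linarith) (by linarith) (by linarith) hd0 hbC0 (by linarith)

end Nwl
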