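import Pool.Agent.Lib.Nwl.Defs

/-!
# Labels from random bits

MP_602ccf, project Nwl (owner helper29).

PROOF. `lb_lt`: the sum is at most `∑ u < lm, 2 ^ u = 2 ^ lm - 1` (`Nat.geomSum_lt` or `Finset.geom_sum`).
`bits`: bijection `(Fin (T * lm) → Bool) ≃ (Fin T → Fin lm → Bool) ≃ (Fin T → Fin (2 ^ lm))` (`finProdFinEquiv`: `(t, u) ↦ u + lm * t`;
`finFunctionFinEquiv`: `f ↦ ∑ i, f i * 2 ^ i`, with `Fin 2 ≃ Bool`), under which `lb lm (List.ofFn r) = xt f` as functions (for `t ≥ T` both are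
`0`: `List.getD` is out of range). `Nat.card_congr` with `Equiv.subtypeEquiv`.
-/

set_option autoImplicit false

namespace Nwl

open Finset

theorem lb_lt (lm : ℕ) (r : List Bool) (t : ℕ) : lb lm r t < 2 ^ lm := by
  unfold lb
  calc ∑ u ∈ range lm, (if r.getD (t * lm + u) false = true then 2 ^ u else 0)
      ≤ ∑ u ∈ range lm, 2 ^ u := Finset.sum_le_sum fun u _ => by split_ifs <;> simp
    _ < 2 ^ lm := Nat.geomSum_lt (le_refl 2) fun k hk => mem_range.1 hk

namespace BitsAux

/-- the bijection -/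
noncomputable def eqv (T lm : ℕ) : (Fin (T * lm) → Bool) ≃ (Fin T → Fin (2 ^ lm)) :=
  ((Equiv.arrowCongr finProdFinEquiv.symm (Equiv.refl Bool)).trans
    (Equiv.curry (Fin T) (Fin lm) Bool)).trans
    (Equiv.arrowCongr (Equiv.refl (Fin T))
      ((Equiv.arrowCongr (Equiv.refl (Fin lm)) finTwoEquiv.symm).trans finFunctionFinEquiv))

theorem eqv_apply (T lm : ℕ) (r : Fin (T * lm) → Bool) (t : Fin T) :
    ((eqv T lm r t : Fin (2 ^ lm)) : ℕ) =
      ∑ u : Fin lm, ((finTwoEquiv.symm (r (finProdFinEquiv (t, u))) : Fin 2) : ℕ) * 2 ^ (u : ℕ) := by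
  have h : eqv T lm r t = finFunctionFinEquiv
      (fun u : Fin lm => finTwoEquiv.symm (r (finProdFinEquiv (t, u)))) := rfl
  rw [h, finFunctionFinEquiv_apply]

theorem getD_ofFn {N : ℕ} (r : Fin N → Bool) (k : ℕ) :
    (List.ofFn r).getD k false = if h : k < N then r ⟨k, h⟩ else false := by
  split_ifs with h
  · rw [List.getD_eq_getElem _ _ (by simpa using h), List.getElem_ofFn]
  · rw [List.getD_eq_default]
    simpa using h

theorem lb_eq (T lm : ℕ) (r : Fin (T * lm) → Bool) : lb lm (List.ofFn r) = xt (eqv T lm r) := by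
  funext t
  unfold lb xt
  split_ifs with ht
  · rw [eqv_apply, Finset.sum_range]
    refine Finset.sum_congr rfl fun u _ => ?_
    have hlt : t * lm + (u : ℕ) < T * lm := by
      have h1 : (t + 1) * lm ≤ T * lm := Nat.mul_le_mul_right _ ht
      have h2 := u.2
      rw [add_mul, one_mul] at h1
      omega
    rw [getD_ofFn, dif_pos hlt]
    have he : finProdFinEquiv ((⟨t, ht⟩ : Fin T), u) = ⟨t * lm + (u : ℕ), hlt⟩ := by
      apply Fin.ext
      change (u : ℕ) + lm * t = t * lm + (u : ℕ)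
      rw [mul_comm lm t, add_comm]
    rw [he]
    cases r ⟨t * lm + (u : ℕ), hlt⟩ <;> simp [finTwoEquiv]
  · refine Finset.sum_eq_zero fun u _ => ?_
    have hge : ¬ t * lm + u < T * lm := by
      have h1 : T * lm ≤ t * lm := Nat.mul_le_mul_right _ (not_lt.1 ht)
      omega
    rw [getD_ofFn, dif_neg hge]
    simp

end BitsAux

theorem bits {T lm : ℕ} (P : (ℕ → ℕ) → Prop) :
    Nat.card {r : Fin (T * lm) → Bool // P (lb lm (List.ofFn r))} =
      Nat.card {f : Fin T → Fin (2 ^ lm) // P (xt f)} := by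
  refine Nat.card_congr ((BitsAux.eqv T lm).subtypeEquiv fun r => ?_)
  rw [BitsAux.lb_eq]

end Nwl
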