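import Mathlib
import Pool.Agent.Lib.Pa7c826.Transfer

/-!
# Success probability of a composed algorithm

MP_602ccf, project Nwl (owner helper29).

PROOF. `(Fin (A + B) → Bool) ≃ (Fin A → Bool) × (Fin B → Bool)` (`Fin.appendEquiv` or `Fin.append`; `List.ofFn` of it is the concatenation, so `take A`, `drop A` are
the parts). For each good first part `r` the number of the second parts `q` with `S r (q.take (k r))` is
`#{q : Fin (k r) → Bool | S r (ofFn q)} * 2 ^ (B - k r) ≥ c * 2 ^ B` (`Pool.Agent.Lib.Pa7c826.card_prefix`). Sum over the at least `2 ^ A / 2` good first parts.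
-/

set_option autoImplicit false

namespace Nwl

open Finset

theorem cnt {A B : ℕ} {G P : List Bool → Prop} {S : List Bool → List Bool → Prop} {k : List Bool → ℕ}
    {c : ℝ} (hc : 0 ≤ c) (hG : 2 ^ A ≤ 2 * Nat.card {r : Fin A → Bool // G (List.ofFn r)})
    (hk : ∀ r : List Bool, r.length = A → G r → k r ≤ B ∧
      c * 2 ^ k r ≤ (Nat.card {q : Fin (k r) → Bool // S r (List.ofFn q)} : ℝ))
    (hP : ∀ r : List Bool, r.length = A + B → G (r.take A) →
      S (r.take A) ((r.drop A).take (k (r.take A))) → P r) :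
    c / 2 * 2 ^ (A + B) ≤ (Nat.card {r : Fin (A + B) → Bool // P (List.ofFn r)} : ℝ) := by
  classical
  -- the pairs of parts
  let W : Type := Σ u : {u : Fin A → Bool // G (List.ofFn u)},
    {v : Fin B → Bool // S (List.ofFn u.1) ((List.ofFn v).take (k (List.ofFn u.1)))}
  have h1 : Nat.card W ≤ Nat.card {r : Fin (A + B) → Bool // P (List.ofFn r)} := by
    refine Nat.card_le_card_of_injective
      (fun p : W => (⟨Fin.append p.1.1 p.2.1, ?_⟩ : {r : Fin (A + B) → Bool // P (List.ofFn r)})) ?_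
    · have e : List.ofFn (Fin.append p.1.1 p.2.1) = List.ofFn p.1.1 ++ List.ofFn p.2.1 :=
        List.ofFn_fin_append _ _
      have e1 : (List.ofFn (Fin.append p.1.1 p.2.1)).take A = List.ofFn p.1.1 := by
        rw [e, List.take_left' (by simp)]
      have e2 : (List.ofFn (Fin.append p.1.1 p.2.1)).drop A = List.ofFn p.2.1 := by
        rw [e, List.drop_left' (by simp)]
      refine hP _ (by simp) ?_ ?_
      · rw [e1]
        exact p.1.2
      · rw [e1, e2]
        exact p.2.2
    · rintro ⟨⟨u, hu⟩, ⟨v, hv⟩⟩ ⟨⟨u', hu'⟩, ⟨v', hv'⟩⟩ h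
      have h2 : Fin.append u v = Fin.append u' v' := congrArg Subtype.val h
      have h3 : (u, v) = (u', v') := (Fin.appendEquiv A B).injective h2
      obtain ⟨rfl, rfl⟩ := Prod.mk.inj h3
      rfl
  have h2 : Nat.card W = ∑ u : {u : Fin A → Bool // G (List.ofFn u)},
      Nat.card {v : Fin B → Bool // S (List.ofFn u.1) ((List.ofFn v).take (k (List.ofFn u.1)))} :=
    Nat.card_sigma
  have h3 : ∀ u : {u : Fin A → Bool // G (List.ofFn u)}, c * 2 ^ B ≤ (Nat.card {v : Fin B → Bool //
      S (List.ofFn u.1) ((List.ofFn v).take (k (List.ofFn u.1)))} : ℝ) := by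
    rintro ⟨u, hu⟩
    obtain ⟨h4, h5⟩ := hk (List.ofFn u) (by simp) hu
    obtain ⟨j, hj⟩ := Nat.exists_eq_add_of_le h4
    have h6 : Nat.card {v : Fin B → Bool // S (List.ofFn u) ((List.ofFn v).take (k (List.ofFn u)))} =
        Nat.card {q : Fin (k (List.ofFn u)) → Bool // S (List.ofFn u) (List.ofFn q)} * 2 ^ j := by
      have h7 := Pool.Agent.Lib.Pa7c826.card_prefix (k (List.ofFn u)) j (S (List.ofFn u))
      rw [← hj] at h7
      exact h7
    show c * 2 ^ B ≤ (Nat.card {v : Fin B → Bool //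
      S (List.ofFn u) ((List.ofFn v).take (k (List.ofFn u)))} : ℝ)
    rw [h6, hj, pow_add, Nat.cast_mul, ← mul_assoc]
    push_cast
    exact mul_le_mul_of_nonneg_right h5 (by positivity)
  have h4 : (Nat.card {u : Fin A → Bool // G (List.ofFn u)} : ℝ) * (c * 2 ^ B) ≤ Nat.card W := by
    rw [h2, Nat.cast_sum]
    have h5 : ∑ _u : {u : Fin A → Bool // G (List.ofFn u)}, c * 2 ^ B =
        (Nat.card {u : Fin A → Bool // G (List.ofFn u)} : ℝ) * (c * 2 ^ B) := by
      rw [sum_const, card_univ, nsmul_eq_mul, Nat.card_eq_fintype_card]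
    rw [← h5]
    exact sum_le_sum (fun u _ => h3 u)
  have h5 : (2 : ℝ) ^ A ≤ 2 * Nat.card {u : Fin A → Bool // G (List.ofFn u)} := by exact_mod_cast hG
  have h6 : (Nat.card W : ℝ) ≤ Nat.card {r : Fin (A + B) → Bool // P (List.ofFn r)} := by
    exact_mod_cast h1
  refine le_trans ?_ (h4.trans h6)
  have h7 : 0 ≤ c * 2 ^ B := by positivity
  calc c / 2 * 2 ^ (A + B) = 2 ^ A / 2 * (c * 2 ^ B) := by rw [pow_add]; ring
    _ ≤ _ := mul_le_mul_of_nonneg_right (by linarith) h7

end Nwl
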