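import Pool.Agent.Lib.Nwl.Ext

/-!
# Lower bound for the mass of the cells where both players lose

MP_602ccf, project Nwl (owner helper29). Paper proof: /team-store/602ccf_winlose.md, section 4 (d).

PROOF. Heavy labels: `H = (range m).filter (fun a => 1 / s < ∑ i < n, x i a)`, `H'` the same for `y`. `H.card ≤ s`
(`H.card * (1 / s) ≤ ∑ i, ∑ a, x i a ≤ 1`), so `hμ H`, `hν H'`. Let `x' i a = if a ∈ H then 0 else x i a`, `y'` the same.
`ext2` for `x'`, `y'` and `h i a j b = Z i a j b - Zb i j` with `H := G`: `∑ x' y' Z ≥ ∑ x' y' Zb - c`. And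
`∑ x y Z ≥ ∑ x' y' Z` (`Z ≥ 0`), `∑ x y Zb - ∑ x' y' Zb ≤ t * ∑ (x y - x' y') ≤ t * (mass of H + mass of H') ≤ 2 * h * t`
(`x y - x' y' = (x - x') y + x' (y - y')`, `∑ y ≤ 1`, `∑ x' ≤ 1`).
-/

set_option autoImplicit false

namespace Nwl

open Finset

namespace LgtAux

/-- the set of heavy labels -/
theorem heavy {n m s : ℕ} (hs : 0 < s) {x : ℕ → ℕ → ℝ} {h : ℝ}
    (hx : ∀ i < n, ∀ a < m, 0 ≤ x i a) (hx2 : ∑ i ∈ range n, ∑ a ∈ range m, x i a ≤ 1)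
    (hμ : ∀ T ⊆ range m, T.card ≤ s → ∑ a ∈ T, ∑ i ∈ range n, x i a ≤ h) :
    ∃ x' : ℕ → ℕ → ℝ, (∀ i < n, ∀ a < m, 0 ≤ x' i a ∧ x' i a ≤ x i a) ∧
      (∀ a < m, ∑ i ∈ range n, x' i a ≤ 1 / s) ∧
      (∑ i ∈ range n, ∑ a ∈ range m, x' i a ≤ 1) ∧
      (∑ i ∈ range n, ∑ a ∈ range m, x i a) - h ≤ ∑ i ∈ range n, ∑ a ∈ range m, x' i a := by
  classical
  have hs' : (0 : ℝ) < s := by exact_mod_cast hs
  set H := (range m).filter (fun a => 1 / (s : ℝ) < ∑ i ∈ range n, x i a) with hH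
  have hHm : H ⊆ range m := filter_subset _ _
  have hcol : ∀ a ∈ range m, 0 ≤ ∑ i ∈ range n, x i a := fun a ha =>
    sum_nonneg fun i hi => hx i (mem_range.1 hi) a (mem_range.1 ha)
  have hcard : H.card ≤ s := by
    have e1 : (H.card : ℝ) * (1 / s) ≤ ∑ a ∈ H, ∑ i ∈ range n, x i a := by
      rw [← nsmul_eq_mul, ← sum_const]
      exact sum_le_sum fun a ha => (mem_filter.1 ha).2.le
    have e2 : ∑ a ∈ H, ∑ i ∈ range n, x i a ≤ ∑ a ∈ range m, ∑ i ∈ range n, x i a :=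
      sum_le_sum_of_subset_of_nonneg hHm fun a ha _ => hcol a ha
    have e3 : ∑ a ∈ range m, ∑ i ∈ range n, x i a ≤ 1 := by rw [sum_comm]; exact hx2
    have e4 : (H.card : ℝ) * (1 / s) ≤ 1 := e1.trans (e2.trans e3)
    rw [mul_one_div, div_le_one hs'] at e4
    exact_mod_cast e4
  refine ⟨fun i a => if a ∈ H then 0 else x i a, ?_, ?_, ?_, ?_⟩
  · intro i hi a ha
    by_cases hc : a ∈ H
    · simp only [hc, if_true]
      exact ⟨le_rfl, hx i hi a ha⟩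
    · simp only [hc, if_false]
      exact ⟨hx i hi a ha, le_rfl⟩
  · intro a ha
    by_cases hc : a ∈ H
    · simp only [hc, if_true, sum_const_zero]
      positivity
    · simp only [hc, if_false]
      by_contra h1
      exact hc (mem_filter.2 ⟨mem_range.2 ha, not_le.1 h1⟩)
  · refine le_trans (sum_le_sum fun i hi => sum_le_sum fun a ha => ?_) hx2
    by_cases hc : a ∈ H
    · simp only [hc, if_true]
      exact hx i (mem_range.1 hi) a (mem_range.1 ha)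
    · simp only [hc, if_false]
      exact le_rfl
  · have h1 := hμ H hHm hcard
    have e1 : ∑ i ∈ range n, ∑ a ∈ range m, x i a = ∑ i ∈ range n, ∑ a ∈ range m, (if a ∈ H then 0 else x i a) +
        ∑ i ∈ range n, ∑ a ∈ range m, (if a ∈ H then x i a else 0) := by
      rw [← sum_add_distrib]
      refine sum_congr rfl fun i _ => ?_
      rw [← sum_add_distrib]
      refine sum_congr rfl fun a _ => ?_
      by_cases hc : a ∈ H <;> simp [hc]
    have e2 : ∑ i ∈ range n, ∑ a ∈ range m, (if a ∈ H then x i a else 0) = ∑ a ∈ H, ∑ i ∈ range n, x i a := by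
      rw [sum_comm, ← sum_subset hHm]
      · exact sum_congr rfl fun a ha => sum_congr rfl fun i _ => by simp [ha]
      · intro a _ ha
        simp [ha]
    linarith

end LgtAux

theorem light {n m s : ℕ} (hn : 0 < n) (hs : 0 < s) {x y : ℕ → ℕ → ℝ} {h c t : ℝ} (ht : 0 ≤ t)
    (hx : ∀ i < n, ∀ a < m, 0 ≤ x i a) (hx2 : ∑ i ∈ range n, ∑ a ∈ range m, x i a ≤ 1)
    (hy : ∀ j < n, ∀ b < m, 0 ≤ y j b) (hy2 : ∑ j ∈ range n, ∑ b ∈ range m, y j b ≤ 1)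
    (hμ : ∀ T ⊆ range m, T.card ≤ s → ∑ a ∈ T, ∑ i ∈ range n, x i a ≤ h)
    (hν : ∀ T ⊆ range m, T.card ≤ s → ∑ b ∈ T, ∑ j ∈ range n, y j b ≤ h)
    (Z : ℕ → ℕ → ℕ → ℕ → ℝ) (hZ : ∀ i < n, ∀ a < m, ∀ j < n, ∀ b < m, 0 ≤ Z i a j b)
    (Zb : ℕ → ℕ → ℝ) (hZb : ∀ i < n, ∀ j < n, 0 ≤ Zb i j ∧ Zb i j ≤ t)
    (G : ∀ S ⊆ range m, ∀ S' ⊆ range m, S.card ≤ s → S'.card ≤ s → ∀ f g : ℕ → ℕ, (∀ a, f a < n) →
      (∀ b, g b < n) → -(c * (s : ℝ) ^ 2) ≤ ∑ a ∈ S, ∑ b ∈ S', (Z (f a) a (g b) b - Zb (f a) (g b))) :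
    (∑ i ∈ range n, ∑ a ∈ range m, ∑ j ∈ range n, ∑ b ∈ range m, x i a * y j b * Zb i j) -
        2 * h * t - c ≤
      ∑ i ∈ range n, ∑ a ∈ range m, ∑ j ∈ range n, ∑ b ∈ range m, x i a * y j b * Z i a j b := by
  obtain ⟨x', hx'0, hx'1, hx'2, hx'3⟩ := LgtAux.heavy hs hx hx2 hμ
  obtain ⟨y', hy'0, hy'1, hy'2, hy'3⟩ := LgtAux.heavy hs hy hy2 hν
  have hh : 0 ≤ h := by
    have := hμ ∅ (empty_subset _) (by simp)
    simpa using this
  have key := ext2 hn hs (fun i a j b => Z i a j b - Zb i j) (x := x') (y := y') (c := c)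
    (fun i hi a ha => (hx'0 i hi a ha).1) hx'1 hx'2 (fun j hj b hb => (hy'0 j hj b hb).1) hy'1 hy'2 G
  have e1 : ∑ i ∈ range n, ∑ a ∈ range m, ∑ j ∈ range n, ∑ b ∈ range m, x' i a * y' j b * (Z i a j b - Zb i j) ≤
      ∑ i ∈ range n, ∑ a ∈ range m, ∑ j ∈ range n, ∑ b ∈ range m,
        (x i a * y j b * Z i a j b - x i a * y j b * Zb i j + t * (x i a * y j b - x' i a * y' j b)) := by
    refine sum_le_sum fun i hi => sum_le_sum fun a ha => sum_le_sum fun j hj => sum_le_sum fun b hb => ?_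
    rw [mem_range] at hi ha hj hb
    obtain ⟨h1, h2⟩ := hx'0 i hi a ha
    obtain ⟨h3, h4⟩ := hy'0 j hj b hb
    obtain ⟨h5, h6⟩ := hZb i hi j hj
    have h7 := hZ i hi a ha j hj b hb
    have h8 : x' i a * y' j b ≤ x i a * y j b := mul_le_mul h2 h4 h3 (h1.trans h2)
    nlinarith [mul_nonneg (sub_nonneg.2 h8) h7, mul_nonneg (sub_nonneg.2 h8) (sub_nonneg.2 h6)]
  have e2 : ∑ i ∈ range n, ∑ a ∈ range m, ∑ j ∈ range n, ∑ b ∈ range m,
        (x i a * y j b * Z i a j b - x i a * y j b * Zb i j + t * (x i a * y j b - x' i a * y' j b)) =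
      (∑ i ∈ range n, ∑ a ∈ range m, ∑ j ∈ range n, ∑ b ∈ range m, x i a * y j b * Z i a j b) -
      (∑ i ∈ range n, ∑ a ∈ range m, ∑ j ∈ range n, ∑ b ∈ range m, x i a * y j b * Zb i j) +
      t * ((∑ i ∈ range n, ∑ a ∈ range m, x i a) * (∑ j ∈ range n, ∑ b ∈ range m, y j b) -
        (∑ i ∈ range n, ∑ a ∈ range m, x' i a) * (∑ j ∈ range n, ∑ b ∈ range m, y' j b)) := by
    simp only [sum_add_distrib, sum_sub_distrib, ← mul_sum, ← sum_mul]
  rw [e2] at e1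
  have hX0 : 0 ≤ ∑ i ∈ range n, ∑ a ∈ range m, x' i a := sum_nonneg fun i hi => sum_nonneg fun a ha =>
    (hx'0 i (mem_range.1 hi) a (mem_range.1 ha)).1
  have hY0 : 0 ≤ ∑ j ∈ range n, ∑ b ∈ range m, y j b := sum_nonneg fun j hj => sum_nonneg fun b hb =>
    hy j (mem_range.1 hj) b (mem_range.1 hb)
  set X := ∑ i ∈ range n, ∑ a ∈ range m, x i a
  set Y := ∑ j ∈ range n, ∑ b ∈ range m, y j b
  set X' := ∑ i ∈ range n, ∑ a ∈ range m, x' i a
  set Y' := ∑ j ∈ range n, ∑ b ∈ range m, y' j b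
  have e3 : X * Y - X' * Y' ≤ 2 * h := by
    have h1 : (X - X') * Y ≤ h := by nlinarith
    have h2 : X' * (Y - Y') ≤ h := by nlinarith
    nlinarith
  have e4 : t * (X * Y - X' * Y') ≤ t * (2 * h) := mul_le_mul_of_nonneg_left e3 ht
  linarith

end Nwl
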