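import Pool.Agent.Lib.Nwl.CoreC
import Pool.Agent.Lib.Nwl.Lgt
import Pool.Agent.Lib.Nwl.Alg

/-!
# The game of Theorem 2: the projection of an approximate equilibrium

MP_602ccf, project Nwl (owner helper29). Paper proof: /team-store/602ccf_winlose.md, section 4 (b), (d)-(g).

PROOF. `θ = K / Q`, `p = D / Q`, `2 p + θ = 1`. `light` with `h = 3 θ`, `t = θ / 2`, `c = δ / 2 * θ`, `Z i a j b = RM 0 c (i * m + a) (j * m + b)`,
`Zb i j = (K - al i j - be i j) / Q` (in `[0, θ / 2]` by `hal`, `hbe`), `G` from `GLab.g3` (`ce_pp`, `cvl_cases`: `RM 0 = if inZ .. then 1 else 0`).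
`∑ x y Zb = θ * ((1 - X0) * (1 - Y0) - bil n At xb yb - bil n Bt xb yb)` with `xb = pr m x`, `X0 = xm n m M x`. With `Hyp.total`, `rowA`, `colA` and
`2 * (3 θ) * (θ / 2) + δ / 2 * θ ≤ δ * θ` (`h3`) one gets, after dividing by `θ`, for all `i`, `j`:
`rv n At yb i + cv n Bt xb j + X0 * Y0 ≤ bil n At xb yb + bil n Bt xb yb + δ + 2 (z + e) / θ ≤ .. + 2 δ` (`h2`). Then `alg` with
`d = 2 * δ`; `1 - X0 = ∑ k < n * m, x k` (`sum_mul'`, `Hyp.massX`), positive as `X0 ≤ 1 / 2`.
-/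

set_option autoImplicit false

namespace Nwl

open Finset Nsh

variable {n m M s K D Q : ℕ} {z δ e : ℝ} {al be : ℕ → ℕ → ℕ} {lab : ℕ → ℕ} {x y : ℕ → ℝ}

namespace CoreAux

theorem RM0_nonneg (v : ℕ) (c : ℕ → ℕ → ℕ) (k l : ℕ) : 0 ≤ RM v c k l := by
  unfold RM; split_ifs <;> norm_num

theorem low (h : Hyp n m M s K D Q z δ e al be lab x y) :
    (∑ i ∈ range n, ∑ a ∈ range m, ∑ j ∈ range n, ∑ b ∈ range m,
      x (i * m + a) * y (j * m + b) * (((K : ℝ) - al i j - be i j) / Q)) -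
        2 * (3 * ((K : ℝ) / Q)) * ((K : ℝ) / Q / 2) - δ / 2 * ((K : ℝ) / Q) ≤
      ∑ i ∈ range n, ∑ a ∈ range m, ∑ j ∈ range n, ∑ b ∈ range m,
        x (i * m + a) * y (j * m + b) * RM 0 (ce2 n m M D Q al be lab) (i * m + a) (j * m + b) := by
  obtain ⟨hp0, hp, h1, hθ⟩ := CoreCAux.nums h
  have hQ0 := CoreBAux.Qpos h
  have mX := h.massX
  have mY := h.massY
  refine light (x := fun i a => x (i * m + a)) (y := fun j b => y (j * m + b)) h.hn h.hs
    (by positivity) ?_ ?_ ?_ ?_ h.colC h.rowC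
    (fun i a j b => RM 0 (ce2 n m M D Q al be lab) (i * m + a) (j * m + b)) ?_
    (fun i j => ((K : ℝ) - al i j - be i j) / Q) ?_ ?_
  · exact fun i hi a ha => h.hx.nn _ (CoreBAux.lt_cp hi ha)
  · linarith [mX.1, mX.2.1]
  · exact fun i hi a ha => h.hy.nn _ (CoreBAux.lt_cp hi ha)
  · linarith [mY.1, mY.2.1]
  · exact fun _ _ _ _ _ _ _ _ => RM0_nonneg _ _ _ _
  · intro i _ j _
    have a1 := h.hal i j
    have b1 := h.hbe i j
    have a2 : (K : ℝ) ≤ 4 * al i j := by exact_mod_cast a1.1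
    have a3 : 2 * (al i j : ℝ) ≤ K := by exact_mod_cast a1.2
    have b2 : (K : ℝ) ≤ 4 * be i j := by exact_mod_cast b1.1
    have b3 : 2 * (be i j : ℝ) ≤ K := by exact_mod_cast b1.2
    constructor
    · exact div_nonneg (by linarith) hQ0.le
    · rw [div_right_comm]
      exact div_le_div_of_nonneg_right (by linarith) hQ0.le
  · intro S hS S' hS' hc hc' f g hf hg
    have h3 := h.hG.g3 S hS S' hS' hc hc' f g hf hg
    refine le_trans h3 (le_of_eq ?_)
    refine sum_congr rfl fun a ha => sum_congr rfl fun b hb => ?_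
    have ha' := mem_range.1 (hS ha)
    have hb' := mem_range.1 (hS' hb)
    have a1 := h.hal (f a) (g b)
    have b1 := h.hbe (f a) (g b)
    have hcv := (cvl_cases (D := D) (Q := Q) (K := K) (va := al (f a) (g b))
      (vb := be (f a) (g b)) (l := lab (a * m + b)) h.hQ (by omega) (h.hlab _)).2.2
    congr 1
    unfold RM
    rw [ce_pp (hf a) ha' (hg b) hb']
    by_cases hc0 : inZ D Q (al (f a) (g b)) (be (f a) (g b)) (lab (a * m + b))
    · rw [if_pos hc0, if_pos (hcv.2 hc0)]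
    · rw [if_neg hc0, if_neg (fun hh => hc0 (hcv.1 hh))]

theorem sumZb (h : Hyp n m M s K D Q z δ e al be lab x y) :
    (∑ i ∈ range n, ∑ a ∈ range m, ∑ j ∈ range n, ∑ b ∈ range m,
      x (i * m + a) * y (j * m + b) * (((K : ℝ) - al i j - be i j) / Q)) =
    (K : ℝ) / Q * ((1 - xm n m M x) * (1 - xm n m M y) -
      bil n (fun i j => (al i j : ℝ) / K) (pr m x) (pr m y) -
      bil n (fun i j => (be i j : ℝ) / K) (pr m x) (pr m y)) := by
  have hQ0 := CoreBAux.Qpos h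
  have hK : (0 : ℝ) < K := by exact_mod_cast h.hK
  have e1 : (∑ i ∈ range n, ∑ a ∈ range m, ∑ j ∈ range n, ∑ b ∈ range m,
      x (i * m + a) * y (j * m + b) * (((K : ℝ) - al i j - be i j) / Q)) =
      ∑ i ∈ range n, ∑ j ∈ range n, pr m x i * pr m y j * (((K : ℝ) - al i j - be i j) / Q) := by
    refine sum_congr rfl fun i _ => ?_
    rw [sum_comm]
    refine sum_congr rfl fun j _ => ?_
    unfold pr
    rw [sum_mul_sum, sum_mul]
    refine sum_congr rfl fun a _ => ?_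
    rw [sum_mul]
  rw [e1, ← h.massX.2.2, ← h.massY.2.2, sum_mul_sum, CoreAAux.bil_sum, CoreAAux.bil_sum,
    ← sum_sub_distrib, ← sum_sub_distrib, mul_sum]
  refine sum_congr rfl fun i _ => ?_
  rw [← sum_sub_distrib, ← sum_sub_distrib, mul_sum]
  refine sum_congr rfl fun j _ => ?_
  field_simp

end CoreAux

open CoreAux

theorem Hyp.core (h : Hyp n m M s K D Q z δ e al be lab x y) :
    0 < ∑ k ∈ range (n * m), x k ∧ 0 < ∑ k ∈ range (n * m), y k ∧
      Good n (fun i j => (al i j : ℝ) / K) (fun i j => (be i j : ℝ) / K) (4 * δ)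
        (fun i => pr m x i / ∑ k ∈ range (n * m), x k)
        (fun i => pr m y i / ∑ k ∈ range (n * m), y k) := by
  obtain ⟨hp0, hp, h1, hθ⟩ := CoreCAux.nums h
  have hK : (0 : ℝ) < K := by exact_mod_cast h.hK
  have hlow := low h
  rw [sumZb h] at hlow
  have ht := h.total
  have mX := h.massX
  have mY := h.massY
  have hA : ∀ (v : ℕ → ℕ → ℕ), (∀ i j, K ≤ 4 * v i j ∧ 2 * v i j ≤ K) → ∀ i < n, ∀ j < n,
      1 / 4 ≤ (v i j : ℝ) / K ∧ (v i j : ℝ) / K ≤ 1 / 2 := by
    intro v hv i _ j _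
    obtain ⟨v1, v2⟩ := hv i j
    have w1 : (K : ℝ) ≤ 4 * v i j := by exact_mod_cast v1
    have w2 : 2 * (v i j : ℝ) ≤ K := by exact_mod_cast v2
    constructor
    · rw [div_le_div_iff₀ (by norm_num) hK]; linarith
    · rw [div_le_div_iff₀ hK (by norm_num)]; linarith
  have key : ∀ i < n, ∀ j < n, rv n (fun i j => (al i j : ℝ) / K) (pr m y) i +
      cv n (fun i j => (be i j : ℝ) / K) (pr m x) j + xm n m M x * xm n m M y ≤
      bil n (fun i j => (al i j : ℝ) / K) (pr m x) (pr m y) +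
      bil n (fun i j => (be i j : ℝ) / K) (pr m x) (pr m y) + 2 * δ := by
    intro i hi j hj
    have hr := h.rowA i hi
    have hc := h.colA j hj
    have h2 := h.h2
    have h3 := h.h3
    generalize rv n (fun i j => (al i j : ℝ) / K) (pr m y) i = r at *
    generalize cv n (fun i j => (be i j : ℝ) / K) (pr m x) j = c at *
    generalize bil n (fun i j => (al i j : ℝ) / K) (pr m x) (pr m y) = bA at *
    generalize bil n (fun i j => (be i j : ℝ) / K) (pr m x) (pr m y) = bB at *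
    generalize xm n m M x = X0 at *
    generalize xm n m M y = Y0 at *
    generalize (K : ℝ) / Q = θ at *
    generalize (D : ℝ) / Q = p at *
    have h5 : 2 * (3 * θ) * (θ / 2) ≤ δ / 2 * θ := by nlinarith
    have h6 : θ * (r + c + X0 * Y0) ≤ θ * (bA + bB + 2 * δ) := by nlinarith
    exact le_of_mul_le_mul_left h6 hθ
  obtain ⟨hX, hY, hG⟩ := alg h.hn (hA al h.hal) (hA be h.hbe)
    (CoreCAux.pr_nonneg h.hx) (CoreCAux.pr_nonneg h.hy) mX.2.1 mY.2.1 mX.2.2 mY.2.2
    (by linarith [h.h4]) key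
  have sx : ∑ k ∈ range (n * m), x k = 1 - xm n m M x := by
    rw [sum_mul']; linarith [mX.1]
  have sy : ∑ k ∈ range (n * m), y k = 1 - xm n m M y := by
    rw [sum_mul']; linarith [mY.1]
  rw [sx, sy]
  refine ⟨by linarith, by linarith, ?_⟩
  rw [show 4 * δ = 2 * (2 * δ) by ring]
  exact hG

end Nwl
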