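import Pool.Agent.Lib.Nwl.Defs
import Pool.Agent.Lib.Nsh.Basic

/-!
# The game of Theorem 2: hypotheses of the analysis

MP_602ccf, project Nwl (owner helper29). Paper proof: /team-store/602ccf_winlose.md, section 4.
-/

set_option autoImplicit false

namespace Nwl

open Finset Nsh

/-- hypotheses of the analysis -/
structure Hyp (n m M s K D Q : ℕ) (z δ e : ℝ) (al be : ℕ → ℕ → ℕ) (lab : ℕ → ℕ) (x y : ℕ → ℝ) :
    Prop where
  hn : 0 < n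
  hK : 0 < K
  hQ : Q = 2 * D + K
  hal : ∀ i j, K ≤ 4 * al i j ∧ 2 * al i j ≤ K
  hbe : ∀ i j, K ≤ 4 * be i j ∧ 2 * be i j ≤ K
  hlab : ∀ t, lab t < Q
  hs : 0 < s
  hsm : s < m
  hz : 0 ≤ z
  he : 0 ≤ e
  h1 : 4 * (z + e) ≤ (K : ℝ) / Q
  h2 : 2 * (z + e) ≤ δ * ((K : ℝ) / Q)
  h3 : 6 * ((K : ℝ) / Q) ≤ δ
  h4 : 16 * δ ≤ 1
  hG : GLab n m M s K D Q z δ al be lab
  hx : Mix (n * m + 2 * M) x
  hy : Mix (n * m + 2 * M) y
  nash : Good (n * m + 2 * M) (RM 1 (ce2 n m M D Q al be lab)) (RM 2 (ce2 n m M D Q al be lab)) e x y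

/-- mass of the extra strategies -/
def xm (n m M : ℕ) (x : ℕ → ℝ) : ℝ := ∑ r ∈ range M, ∑ z ∈ range 2, x (n * m + (2 * r + z))

end Nwl
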