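import Pool.Agent.Lib.Nwl.Spl
import Pool.Agent.Lib.Nwl.Hyp

/-!
# The game of Theorem 2: masses and payoffs of an approximate equilibrium

MP_602ccf, project Nwl (owner helper29). Paper proof: /team-store/602ccf_winlose.md, section 4.

PROOF. `massX`, `massY`: `Mix.sum`, `Mix.nn` and `spl`; `pr` is the inner sum.
`total`: `RM 0 + RM 1 + RM 2 = 1` at every cell (a code is 0, 1 or 2), so the three `bil` add up to `1`; `RM 0` vanishes at cells with
an extra strategy (`ce_px`, `ce_xp`, `ce_xx`), `spl` for both sums.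
-/

set_option autoImplicit false

namespace Nwl

open Finset Nsh

variable {n m M s K D Q : ℕ} {z δ e : ℝ} {al be : ℕ → ℕ → ℕ} {lab : ℕ → ℕ} {x y : ℕ → ℝ}

namespace CoreAAux

theorem ce2_cases (k l : ℕ) : ce2 n m M D Q al be lab k l = 0 ∨ ce2 n m M D Q al be lab k l = 1 ∨
    ce2 n m M D Q al be lab k l = 2 := by
  unfold ce2 cvl
  split_ifs <;> simp

theorem ce2_ne {k l : ℕ} (h : ¬ k < n * m ∨ ¬ l < n * m) :
    ce2 n m M D Q al be lab k l ≠ 0 := by
  unfold ce2
  split_ifs with h1 h2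
  · rcases h with h | h
    · exact absurd h1 h
    · exact absurd h2 h
  all_goals norm_num

theorem RM_sum (k l : ℕ) : RM 1 (ce2 n m M D Q al be lab) k l + RM 2 (ce2 n m M D Q al be lab) k l +
    RM 0 (ce2 n m M D Q al be lab) k l = 1 := by
  unfold RM
  rcases ce2_cases (n := n) (m := m) (M := M) (D := D) (Q := Q) (al := al) (be := be) (lab := lab)
    k l with h | h | h <;> rw [h] <;> norm_num

theorem RM_zero {k l : ℕ} (h : ¬ k < n * m ∨ ¬ l < n * m) :
    RM 0 (ce2 n m M D Q al be lab) k l = 0 := by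
  unfold RM
  rw [if_neg (ce2_ne h)]

theorem bil_sum (N : ℕ) (R : ℕ → ℕ → ℝ) (x y : ℕ → ℝ) :
    bil N R x y = ∑ i ∈ range N, ∑ j ∈ range N, x i * y j * R i j := by
  unfold bil rv
  refine sum_congr rfl (fun i _ => ?_)
  rw [mul_sum]
  refine sum_congr rfl (fun j _ => ?_)
  ring

theorem mass (n m M : ℕ) {x : ℕ → ℝ} (hx : Mix (n * m + 2 * M) x) :
    (∑ i ∈ range n, ∑ a ∈ range m, x (i * m + a)) + xm n m M x = 1 ∧ 0 ≤ xm n m M x ∧
      ∑ i ∈ range n, pr m x i = 1 - xm n m M x := by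
  have h1 : (∑ i ∈ range n, ∑ a ∈ range m, x (i * m + a)) + xm n m M x = 1 := by
    unfold xm
    rw [← spl]
    exact hx.sum
  refine ⟨h1, ?_, ?_⟩
  · unfold xm
    refine sum_nonneg (fun r hr => sum_nonneg (fun z hz => hx.nn _ ?_))
    rw [mem_range] at hr hz
    exact Nat.add_lt_add_left (by omega) _
  · have h2 : ∑ i ∈ range n, pr m x i = ∑ i ∈ range n, ∑ a ∈ range m, x (i * m + a) := rfl
    rw [h2]
    linarith

end CoreAAux

open CoreAAux

/-- the mass of the copies -/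
theorem Hyp.massX (h : Hyp n m M s K D Q z δ e al be lab x y) :
    (∑ i ∈ range n, ∑ a ∈ range m, x (i * m + a)) + xm n m M x = 1 ∧ 0 ≤ xm n m M x ∧
      ∑ i ∈ range n, pr m x i = 1 - xm n m M x :=
  mass n m M h.hx

theorem Hyp.massY (h : Hyp n m M s K D Q z δ e al be lab x y) :
    (∑ i ∈ range n, ∑ a ∈ range m, y (i * m + a)) + xm n m M y = 1 ∧ 0 ≤ xm n m M y ∧
      ∑ i ∈ range n, pr m y i = 1 - xm n m M y :=
  mass n m M h.hy

/-- the payoffs and the mass of the cells with code `0` -/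
theorem Hyp.total (h : Hyp n m M s K D Q z δ e al be lab x y) :
    bil (n * m + 2 * M) (RM 1 (ce2 n m M D Q al be lab)) x y +
      bil (n * m + 2 * M) (RM 2 (ce2 n m M D Q al be lab)) x y +
      (∑ i ∈ range n, ∑ a ∈ range m, ∑ j ∈ range n, ∑ b ∈ range m,
        x (i * m + a) * y (j * m + b) * RM 0 (ce2 n m M D Q al be lab) (i * m + a) (j * m + b)) = 1 := by
  have h0 : (∑ i ∈ range n, ∑ a ∈ range m, ∑ j ∈ range n, ∑ b ∈ range m,
        x (i * m + a) * y (j * m + b) * RM 0 (ce2 n m M D Q al be lab) (i * m + a) (j * m + b)) =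
      ∑ k ∈ range (n * m + 2 * M), ∑ l ∈ range (n * m + 2 * M),
        x k * y l * RM 0 (ce2 n m M D Q al be lab) k l := by
    rw [spl]
    have h1 : ∑ r ∈ range M, ∑ z ∈ range 2, ∑ l ∈ range (n * m + 2 * M),
        x (n * m + (2 * r + z)) * y l *
          RM 0 (ce2 n m M D Q al be lab) (n * m + (2 * r + z)) l = 0 := by
      refine sum_eq_zero (fun r _ => sum_eq_zero (fun z _ => sum_eq_zero (fun l _ => ?_)))
      rw [RM_zero (Or.inl (Nat.not_lt.mpr (Nat.le_add_right _ _))), mul_zero]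
    rw [h1, add_zero]
    refine sum_congr rfl (fun i _ => sum_congr rfl (fun a _ => ?_))
    rw [spl]
    have h2 : ∑ r ∈ range M, ∑ z ∈ range 2, x (i * m + a) * y (n * m + (2 * r + z)) *
        RM 0 (ce2 n m M D Q al be lab) (i * m + a) (n * m + (2 * r + z)) = 0 := by
      refine sum_eq_zero (fun r _ => sum_eq_zero (fun z _ => ?_))
      rw [RM_zero (Or.inr (Nat.not_lt.mpr (Nat.le_add_right _ _))), mul_zero]
    rw [h2, add_zero]
  have h3 : ∑ k ∈ range (n * m + 2 * M), ∑ l ∈ range (n * m + 2 * M), x k * y l = 1 := by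
    rw [← sum_mul_sum, h.hx.sum, h.hy.sum, one_mul]
  rw [h0, bil_sum, bil_sum, ← sum_add_distrib, ← sum_add_distrib, ← h3]
  refine sum_congr rfl (fun k _ => ?_)
  rw [← sum_add_distrib, ← sum_add_distrib]
  refine sum_congr rfl (fun l _ => ?_)
  rw [← mul_add, ← mul_add, RM_sum, mul_one]

end Nwl
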