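import Mathlib

/-!
# Deviations of one player

MP_602ccf, project Nwl (owner helper29). Paper proof: /team-store/602ccf_winlose.md, section 4 (a), (c).

PROOF. `dev1`: sum `hw i a` over `a < m`: the left side is `∑ j, ∑ b, (∑ a, P i a j b) * y j b + ∑ c, ∑ w', (∑ a, F c a) * y2 c w'`
`≥ m * (∑ j, ∑ b, (p + θ * At i j - z) * y j b + (1 - p - z) * ∑ c, ∑ w', y2 c w')`; divide by `m`, use `hs` and `1 - p = p + θ`.
`dev2`: sum `hw r z'` over `r ∈ R` and `z' < 2`, divide by `2 * R.card`: the extra columns give `(∑ y2) / 2 ≥ p * ∑ y2`, the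
columns `(j, b)` with `b ∈ T` give `y j b`, the others at least `(p - z) * y j b`. Then
`ν + (1 - Y0 - ν) * (p - z) + p * Y0 ≥ p + ν * (1 - p) - z` with `ν = ∑ b ∈ T, ∑ j, y j b`, `Y0 = ∑ y2`
(`(1 - Y0 - ν) * z ≤ z`).
-/

set_option autoImplicit false

namespace Nwl

open Finset

theorem dev1 {n m M : ℕ} {P : ℕ → ℕ → ℕ → ℕ → ℝ} {F : ℕ → ℕ → ℝ} {At : ℕ → ℕ → ℝ}
    {y y2 : ℕ → ℕ → ℝ} {p θ z w : ℝ} (hm : 0 < m) (hz : 0 ≤ z)
    (hy : ∀ j < n, ∀ b < m, 0 ≤ y j b) (hy2 : ∀ c < M, ∀ w' < 2, 0 ≤ y2 c w')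
    (hs : (∑ j ∈ range n, ∑ b ∈ range m, y j b) + ∑ c ∈ range M, ∑ w' ∈ range 2, y2 c w' = 1)
    (h2p : 2 * p + θ = 1)
    (hP : ∀ i < n, ∀ j < n, ∀ b < m, (m : ℝ) * (p + θ * At i j - z) ≤ ∑ a ∈ range m, P i a j b)
    (hF : ∀ c < M, (m : ℝ) * (1 - p - z) ≤ ∑ a ∈ range m, F c a)
    (hw : ∀ i < n, ∀ a < m, (∑ j ∈ range n, ∑ b ∈ range m, P i a j b * y j b) +
      ∑ c ∈ range M, ∑ w' ∈ range 2, F c a * y2 c w' ≤ w) :
    ∀ i < n, p + θ * (∑ j ∈ range n, At i j * ∑ b ∈ range m, y j b) +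
      θ * (∑ c ∈ range M, ∑ w' ∈ range 2, y2 c w') - z ≤ w := by
  intro i hi
  have hsum : ∑ a ∈ range m, ((∑ j ∈ range n, ∑ b ∈ range m, P i a j b * y j b) +
      ∑ c ∈ range M, ∑ w' ∈ range 2, F c a * y2 c w') ≤ ∑ _a ∈ range m, w :=
    Finset.sum_le_sum fun a ha => hw i hi a (mem_range.1 ha)
  rw [Finset.sum_const, card_range, nsmul_eq_mul, Finset.sum_add_distrib] at hsum
  have e1 : ∑ a ∈ range m, ∑ j ∈ range n, ∑ b ∈ range m, P i a j b * y j b =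
      ∑ j ∈ range n, ∑ b ∈ range m, (∑ a ∈ range m, P i a j b) * y j b := by
    rw [Finset.sum_comm]
    refine Finset.sum_congr rfl fun j _ => ?_
    rw [Finset.sum_comm]
    refine Finset.sum_congr rfl fun b _ => ?_
    rw [Finset.sum_mul]
  have e2 : ∑ a ∈ range m, ∑ c ∈ range M, ∑ w' ∈ range 2, F c a * y2 c w' =
      ∑ c ∈ range M, ∑ w' ∈ range 2, (∑ a ∈ range m, F c a) * y2 c w' := by
    rw [Finset.sum_comm]
    refine Finset.sum_congr rfl fun j _ => ?_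
    rw [Finset.sum_comm]
    refine Finset.sum_congr rfl fun b _ => ?_
    rw [Finset.sum_mul]
  rw [e1, e2] at hsum
  have l1 : ∑ j ∈ range n, ∑ b ∈ range m, (m : ℝ) * (p + θ * At i j - z) * y j b ≤
      ∑ j ∈ range n, ∑ b ∈ range m, (∑ a ∈ range m, P i a j b) * y j b :=
    Finset.sum_le_sum fun j hj => Finset.sum_le_sum fun b hb =>
      mul_le_mul_of_nonneg_right (hP i hi j (mem_range.1 hj) b (mem_range.1 hb))
        (hy j (mem_range.1 hj) b (mem_range.1 hb))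
  have l2 : ∑ c ∈ range M, ∑ w' ∈ range 2, (m : ℝ) * (1 - p - z) * y2 c w' ≤
      ∑ c ∈ range M, ∑ w' ∈ range 2, (∑ a ∈ range m, F c a) * y2 c w' :=
    Finset.sum_le_sum fun c hc => Finset.sum_le_sum fun w' hw' =>
      mul_le_mul_of_nonneg_right (hF c (mem_range.1 hc))
        (hy2 c (mem_range.1 hc) w' (mem_range.1 hw'))
  have e3 : ∑ j ∈ range n, ∑ b ∈ range m, (m : ℝ) * (p + θ * At i j - z) * y j b =
      (m : ℝ) * ((p - z) * (∑ j ∈ range n, ∑ b ∈ range m, y j b) +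
        θ * (∑ j ∈ range n, At i j * ∑ b ∈ range m, y j b)) := by
    rw [Finset.mul_sum, Finset.mul_sum, ← Finset.sum_add_distrib, Finset.mul_sum]
    refine Finset.sum_congr rfl fun j _ => ?_
    rw [← Finset.mul_sum]
    ring
  have e4 : ∑ c ∈ range M, ∑ w' ∈ range 2, (m : ℝ) * (1 - p - z) * y2 c w' =
      (m : ℝ) * ((1 - p - z) * (∑ c ∈ range M, ∑ w' ∈ range 2, y2 c w')) := by
    rw [Finset.mul_sum, Finset.mul_sum]
    refine Finset.sum_congr rfl fun j _ => ?_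
    rw [← Finset.mul_sum]
    ring
  rw [e3] at l1
  rw [e4] at l2
  have hm' : (0 : ℝ) < m := by exact_mod_cast hm
  refine le_of_mul_le_mul_left (le_trans (le_of_eq ?_) (le_trans (add_le_add l1 l2) hsum)) hm'
  have h3 : 1 - p = p + θ := by linarith
  rw [h3]
  generalize (∑ j ∈ range n, ∑ b ∈ range m, y j b) = Y at *
  generalize (∑ c ∈ range M, ∑ w' ∈ range 2, y2 c w') = Y0 at *
  generalize (∑ j ∈ range n, At i j * ∑ b ∈ range m, y j b) = Z at *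
  have hY : Y = 1 - Y0 := by linarith
  rw [hY]
  ring

theorem dev2 {n m M : ℕ} {E g : ℕ → ℕ → ℝ} {y y2 : ℕ → ℕ → ℝ} {p z w : ℝ} {T R : Finset ℕ}
    (hT : T ⊆ range m) (hR : R ⊆ range M) (hR0 : R.Nonempty) (hp0 : 0 ≤ p) (hp : p ≤ 1 / 2) (hz : 0 ≤ z)
    (hy : ∀ j < n, ∀ b < m, 0 ≤ y j b) (hy2 : ∀ c < M, ∀ w' < 2, 0 ≤ y2 c w')
    (hs : (∑ j ∈ range n, ∑ b ∈ range m, y j b) + ∑ c ∈ range M, ∑ w' ∈ range 2, y2 c w' = 1)
    (hg : ∀ w' < 2, g 0 w' + g 1 w' = 1) (hE1 : ∀ r ∈ R, ∀ b ∈ T, E r b = 1)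
    (hE2 : ∀ b < m, b ∉ T → (p - z) * (R.card : ℝ) ≤ ∑ r ∈ R, E r b)
    (hw : ∀ r < M, ∀ z' < 2, (∑ j ∈ range n, ∑ b ∈ range m, E r b * y j b) +
      ∑ c ∈ range M, ∑ w' ∈ range 2, g z' w' * y2 c w' ≤ w) :
    p + (∑ b ∈ T, ∑ j ∈ range n, y j b) * (1 - p) - z ≤ w := by
  have hsum : ∑ r ∈ R, ∑ z' ∈ range 2, ((∑ j ∈ range n, ∑ b ∈ range m, E r b * y j b) +
      ∑ c ∈ range M, ∑ w' ∈ range 2, g z' w' * y2 c w') ≤ ∑ _r ∈ R, ∑ _z' ∈ range 2, w :=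
    Finset.sum_le_sum fun r hr => Finset.sum_le_sum fun z' hz' =>
      hw r (mem_range.1 (hR hr)) z' (mem_range.1 hz')
  have e0 : ∑ _r ∈ R, ∑ _z' ∈ range 2, w = 2 * ((R.card : ℝ) * w) := by
    simp only [Finset.sum_const, card_range, nsmul_eq_mul]
    push_cast
    ring
  have e1 : ∑ r ∈ R, ∑ z' ∈ range 2, ((∑ j ∈ range n, ∑ b ∈ range m, E r b * y j b) +
      ∑ c ∈ range M, ∑ w' ∈ range 2, g z' w' * y2 c w') =
      2 * (∑ r ∈ R, ∑ j ∈ range n, ∑ b ∈ range m, E r b * y j b) +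
      (R.card : ℝ) * (∑ c ∈ range M, ∑ w' ∈ range 2, y2 c w') := by
    have hin : ∀ r ∈ R, ∑ z' ∈ range 2, ((∑ j ∈ range n, ∑ b ∈ range m, E r b * y j b) +
      ∑ c ∈ range M, ∑ w' ∈ range 2, g z' w' * y2 c w') =
      2 * (∑ j ∈ range n, ∑ b ∈ range m, E r b * y j b) +
        ∑ c ∈ range M, ∑ w' ∈ range 2, y2 c w' := by
      intro r _
      rw [Finset.sum_range_succ, Finset.sum_range_one]
      have hc : (∑ c ∈ range M, ∑ w' ∈ range 2, g 0 w' * y2 c w') +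
          ∑ c ∈ range M, ∑ w' ∈ range 2, g 1 w' * y2 c w' =
          ∑ c ∈ range M, ∑ w' ∈ range 2, y2 c w' := by
        rw [← Finset.sum_add_distrib]
        refine Finset.sum_congr rfl fun c _ => ?_
        rw [← Finset.sum_add_distrib]
        refine Finset.sum_congr rfl fun w' hw' => ?_
        rw [← add_mul, hg w' (mem_range.1 hw'), one_mul]
      rw [← hc]
      ring
    rw [Finset.sum_congr rfl hin, Finset.sum_add_distrib, ← Finset.mul_sum, Finset.sum_const,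
      nsmul_eq_mul]
  rw [e0, e1] at hsum
  have e2 : ∑ r ∈ R, ∑ j ∈ range n, ∑ b ∈ range m, E r b * y j b =
      ∑ b ∈ range m, (∑ r ∈ R, E r b) * (∑ j ∈ range n, y j b) := by
    have h1 : ∀ r ∈ R, ∑ j ∈ range n, ∑ b ∈ range m, E r b * y j b =
        ∑ b ∈ range m, E r b * ∑ j ∈ range n, y j b := by
      intro r _
      rw [Finset.sum_comm]
      refine Finset.sum_congr rfl fun b _ => ?_
      rw [Finset.mul_sum]
    rw [Finset.sum_congr rfl h1, Finset.sum_comm]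
    refine Finset.sum_congr rfl fun b _ => ?_
    rw [Finset.sum_mul]
  have e3 : (∑ j ∈ range n, ∑ b ∈ range m, y j b) = ∑ b ∈ range m, ∑ j ∈ range n, y j b :=
    Finset.sum_comm
  have hcb : ∀ b ∈ range m, 0 ≤ ∑ j ∈ range n, y j b := fun b hb =>
    Finset.sum_nonneg fun j hj => hy j (mem_range.1 hj) b (mem_range.1 hb)
  have hsplit : ∀ f : ℕ → ℝ, ∑ b ∈ range m, f b = ∑ b ∈ T, f b + ∑ b ∈ range m \ T, f b := by
    intro f
    rw [← Finset.sum_sdiff hT]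
    ring
  have l1 : ∑ b ∈ T, (R.card : ℝ) * (∑ j ∈ range n, y j b) ≤
      ∑ b ∈ T, (∑ r ∈ R, E r b) * (∑ j ∈ range n, y j b) := by
    refine Finset.sum_le_sum fun b hb => ?_
    have : ∑ r ∈ R, E r b = (R.card : ℝ) := by
      rw [Finset.sum_congr rfl fun r hr => hE1 r hr b hb, Finset.sum_const, nsmul_eq_mul, mul_one]
    rw [this]
  have l2 : ∑ b ∈ range m \ T, (p - z) * (R.card : ℝ) * (∑ j ∈ range n, y j b) ≤
      ∑ b ∈ range m \ T, (∑ r ∈ R, E r b) * (∑ j ∈ range n, y j b) := by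
    refine Finset.sum_le_sum fun b hb => ?_
    rw [Finset.mem_sdiff] at hb
    exact mul_le_mul_of_nonneg_right (hE2 b (mem_range.1 hb.1) hb.2) (hcb b hb.1)
  rw [← Finset.mul_sum] at l1 l2
  rw [e2, hsplit (fun b => (∑ r ∈ R, E r b) * (∑ j ∈ range n, y j b))] at hsum
  have hYs := hsplit (fun b => ∑ j ∈ range n, y j b)
  rw [e3] at hs
  rw [hYs] at hs
  have hY0 : 0 ≤ ∑ c ∈ range M, ∑ w' ∈ range 2, y2 c w' :=
    Finset.sum_nonneg fun c hc => Finset.sum_nonneg fun w' hw' =>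
      hy2 c (mem_range.1 hc) w' (mem_range.1 hw')
  have hν : 0 ≤ ∑ b ∈ T, ∑ j ∈ range n, y j b := Finset.sum_nonneg fun b hb => hcb b (hT hb)
  have hR' : (0 : ℝ) < R.card := by exact_mod_cast Finset.card_pos.2 hR0
  refine le_of_mul_le_mul_left ?_ (mul_pos (two_pos) hR')
  generalize (∑ b ∈ T, (∑ r ∈ R, E r b) * (∑ j ∈ range n, y j b)) = A1 at *
  generalize (∑ b ∈ range m \ T, (∑ r ∈ R, E r b) * (∑ j ∈ range n, y j b)) = A2 at *
  generalize (∑ c ∈ range M, ∑ w' ∈ range 2, y2 c w') = Y0 at *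
  generalize (∑ b ∈ T, ∑ j ∈ range n, y j b) = ν at *
  generalize (∑ b ∈ range m \ T, ∑ j ∈ range n, y j b) = μ at *
  generalize (R.card : ℝ) = r at *
  have hμ : μ = 1 - Y0 - ν := by linarith
  subst hμ
  have k1 : 0 ≤ Y0 * (1 / 2 - p) := mul_nonneg hY0 (by linarith)
  have k2 : 0 ≤ z * (Y0 + ν) := mul_nonneg hz (by linarith)
  have k3 : 0 ≤ r * (Y0 * (1 / 2 - p) + z * (Y0 + ν)) := mul_nonneg hR'.le (by linarith)
  nlinarith [k3, l1, l2, hsum]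

end Nwl
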