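import Pool.Agent.Lib.Nwl.CoreA
import Pool.Agent.Lib.Nwl.Dev

/-!
# The game of Theorem 2: lower bounds for the payoffs of an approximate equilibrium

MP_602ccf, project Nwl (owner helper29). Paper proof: /team-store/602ccf_winlose.md, section 4 (a).

PROOF. `rowA`: `dev1` with `P i a j b = RM 1 c (i * m + a) (j * m + b)`, `F c a = if D ≤ f(c, a) then 1 else 0`,
`f(c, a) = lab (m * m + M * m + (c * m + a))`, `At i j = al i j / K`, `y j b = y (j * m + b)`, `y2 c w = y (n * m + (2 * c + w))`, `p = D / Q`,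
`θ = K / Q`, `w = u + e`; `hP` from `GLab.r1` at `v = al i j` (`ce_pp`, `cvl_cases`; `Finset.sum_boole`), `hF` from `GLab.f1`, `hw` from `nash.1` at the
row `i * m + a` (`spl`, `ce_px`: the code is 1 iff `¬ f(c, a) < D`).
`colA`: the same for the column player: `dev1` with `P j b i a = RM 2 c (i * m + a) (j * m + b)`, `At j i = be i j / K`,
`y i a = x (i * m + a)`, `F r b = if D ≤ lab (m * m + (r * m + b)) then 1 else 0` (`GLab.c1`, `GLab.e1`, `ce_xp`: the code is 2 iff
`¬ e(r, b) < D`).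
-/

set_option autoImplicit false

namespace Nwl

open Finset Nsh

variable {n m M s K D Q : ℕ} {z δ e : ℝ} {al be : ℕ → ℕ → ℕ} {lab : ℕ → ℕ} {x y : ℕ → ℝ}

namespace CoreBAux

theorem lt_cp {n m M j b : ℕ} (hj : j < n) (hb : b < m) : j * m + b < n * m + 2 * M := by
  have : (j + 1) * m ≤ n * m := Nat.mul_le_mul_right _ hj
  rw [Nat.add_mul, one_mul] at this
  omega

theorem lt_ex {n m M c w : ℕ} (hc : c < M) (hw : w < 2) : n * m + (2 * c + w) < n * m + 2 * M := by
  omega

theorem Qpos (h : Hyp n m M s K D Q z δ e al be lab x y) : (0 : ℝ) < Q := by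
  have h1 := h.hQ
  have h2 := h.hK
  exact_mod_cast (by omega : 0 < Q)

theorem two_p (h : Hyp n m M s K D Q z δ e al be lab x y) : 2 * ((D : ℝ) / Q) + (K : ℝ) / Q = 1 := by
  have hQ := Qpos h
  have h1 : (Q : ℝ) = 2 * D + K := by exact_mod_cast h.hQ
  field_simp
  linarith

theorem mpos (h : Hyp n m M s K D Q z δ e al be lab x y) : 0 < m := lt_trans h.hs h.hsm

theorem pAt (h : Hyp n m M s K D Q z δ e al be lab x y) (v : ℕ) :
    (D : ℝ) / Q + (K : ℝ) / Q * ((v : ℝ) / K) = ((D : ℝ) + v) / Q := by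
  have hQ := Qpos h
  have hK : (0 : ℝ) < K := by exact_mod_cast h.hK
  field_simp

theorem cst (h : Hyp n m M s K D Q z δ e al be lab x y) (i j l : ℕ) :
    (cvl D Q (al i j) (be i j) (lab l) = 1 ↔ inR D (al i j) (lab l)) ∧
      (cvl D Q (al i j) (be i j) (lab l) = 2 ↔ inC D Q (be i j) (lab l)) := by
  have h1 := h.hal i j
  have h2 := h.hbe i j
  have h3 := cvl_cases (D := D) (Q := Q) (K := K) (va := al i j) (vb := be i j) (l := lab l) h.hQ
    (by omega) (h.hlab l)
  exact ⟨h3.1, h3.2.1⟩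

end CoreBAux

open CoreBAux

theorem Hyp.rowA (h : Hyp n m M s K D Q z δ e al be lab x y) : ∀ i < n,
    (D : ℝ) / Q + (K : ℝ) / Q * rv n (fun i j => (al i j : ℝ) / K) (pr m y) i +
      (K : ℝ) / Q * xm n m M y - z - e ≤
    bil (n * m + 2 * M) (RM 1 (ce2 n m M D Q al be lab)) x y := by
  classical
  intro i hi
  have key := dev1 (n := n) (m := m) (M := M)
    (P := fun i a j b => RM 1 (ce2 n m M D Q al be lab) (i * m + a) (j * m + b))
    (F := fun c a => if D ≤ lab (m * m + M * m + (c * m + a)) then 1 else 0)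
    (At := fun i j => (al i j : ℝ) / K) (y := fun j b => y (j * m + b))
    (y2 := fun c w => y (n * m + (2 * c + w))) (p := (D : ℝ) / Q) (θ := (K : ℝ) / Q) (z := z)
    (w := bil (n * m + 2 * M) (RM 1 (ce2 n m M D Q al be lab)) x y + e)
    (mpos h) h.hz (fun j hj b hb => h.hy.nn _ (lt_cp hj hb))
    (fun c hc w hw => h.hy.nn _ (lt_ex hc hw))
    (by rw [← spl]; exact h.hy.sum) (two_p h) ?_ ?_ ?_ i hi
  · have e1 : rv n (fun i j => (al i j : ℝ) / K) (pr m y) i =
        ∑ j ∈ range n, (al i j : ℝ) / K * ∑ b ∈ range m, y (j * m + b) := rfl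
    have e2 : xm n m M y = ∑ c ∈ range M, ∑ w' ∈ range 2, y (n * m + (2 * c + w')) := rfl
    rw [e1, e2]
    linarith
  · intro i' hi' j hj b hb
    have h1 := h.hal i' j
    have h2 := h.hG.r1 b hb (al i' j) (by omega)
    rw [pAt h]
    refine le_trans h2 (le_of_eq ?_)
    rw [← Finset.sum_boole]
    refine sum_congr rfl (fun a ha => ?_)
    have ha' := mem_range.1 ha
    unfold RM
    rw [ce_pp hi' ha' hj hb]
    by_cases hc : inR D (al i' j) (lab (a * m + b))
    · rw [if_pos hc, if_pos ((cst h i' j (a * m + b)).1.2 hc)]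
    · rw [if_neg hc, if_neg (fun hh => hc ((cst h i' j (a * m + b)).1.1 hh))]
  · intro c hc
    have h2 := h.hG.f1 c hc
    refine le_trans h2 (le_of_eq ?_)
    rw [← Finset.sum_boole]
  · intro i' hi' a ha
    have h1 := h.nash.1 (i' * m + a) (lt_cp hi' ha)
    refine le_trans (le_of_eq ?_) h1
    unfold rv
    rw [spl]
    congr 1
    refine sum_congr rfl (fun c _ => sum_congr rfl (fun w' hw' => ?_))
    congr 1
    unfold RM
    rw [ce_px hi' ha (mem_range.1 hw')]
    by_cases hc : lab (m * m + M * m + (c * m + a)) < D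
    · rw [if_pos hc, if_neg (by omega), if_neg (by norm_num)]
    · rw [if_neg hc, if_pos (by omega), if_pos rfl]

theorem Hyp.colA (h : Hyp n m M s K D Q z δ e al be lab x y) : ∀ j < n,
    (D : ℝ) / Q + (K : ℝ) / Q * cv n (fun i j => (be i j : ℝ) / K) (pr m x) j +
      (K : ℝ) / Q * xm n m M x - z - e ≤
    bil (n * m + 2 * M) (RM 2 (ce2 n m M D Q al be lab)) x y := by
  classical
  intro j hj
  have key := dev1 (n := n) (m := m) (M := M)
    (P := fun j b i a => RM 2 (ce2 n m M D Q al be lab) (i * m + a) (j * m + b))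
    (F := fun r b => if D ≤ lab (m * m + (r * m + b)) then 1 else 0)
    (At := fun j i => (be i j : ℝ) / K) (y := fun i a => x (i * m + a))
    (y2 := fun c w => x (n * m + (2 * c + w))) (p := (D : ℝ) / Q) (θ := (K : ℝ) / Q) (z := z)
    (w := bil (n * m + 2 * M) (RM 2 (ce2 n m M D Q al be lab)) x y + e)
    (mpos h) h.hz (fun j hj b hb => h.hx.nn _ (lt_cp hj hb))
    (fun c hc w hw => h.hx.nn _ (lt_ex hc hw))
    (by rw [← spl]; exact h.hx.sum) (two_p h) ?_ ?_ ?_ j hj
  · have e1 : cv n (fun i j => (be i j : ℝ) / K) (pr m x) j =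
        ∑ i ∈ range n, (be i j : ℝ) / K * ∑ a ∈ range m, x (i * m + a) := by
      unfold cv pr
      exact sum_congr rfl (fun i _ => mul_comm _ _)
    have e2 : xm n m M x = ∑ c ∈ range M, ∑ w' ∈ range 2, x (n * m + (2 * c + w')) := rfl
    rw [e1, e2]
    linarith
  · intro j' hj' i hi a ha
    have h1 := h.hbe i j'
    have h2 := h.hG.c1 a ha (be i j') (by omega)
    rw [pAt h]
    refine le_trans h2 (le_of_eq ?_)
    rw [← Finset.sum_boole]
    refine sum_congr rfl (fun b hb => ?_)
    have hb' := mem_range.1 hb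
    unfold RM
    rw [ce_pp hi ha hj' hb']
    by_cases hc : inC D Q (be i j') (lab (a * m + b))
    · rw [if_pos hc, if_pos ((cst h i j' (a * m + b)).2.2 hc)]
    · rw [if_neg hc, if_neg (fun hh => hc ((cst h i j' (a * m + b)).2.1 hh))]
  · intro c hc
    have h2 := h.hG.e1 c hc
    refine le_trans h2 (le_of_eq ?_)
    rw [← Finset.sum_boole]
  · intro j' hj' b hb
    have h1 := h.nash.2 (j' * m + b) (lt_cp hj' hb)
    refine le_trans (le_of_eq ?_) h1
    unfold cv
    rw [spl]
    congr 1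
    · refine sum_congr rfl (fun i _ => sum_congr rfl (fun a _ => ?_))
      exact mul_comm _ _
    refine sum_congr rfl (fun r _ => sum_congr rfl (fun z' hz' => ?_))
    rw [mul_comm]
    congr 1
    unfold RM
    rw [ce_xp (mem_range.1 hz') hj' hb]
    by_cases hc : lab (m * m + (r * m + b)) < D
    · rw [if_pos hc, if_neg (by omega), if_neg (by norm_num)]
    · rw [if_neg hc, if_pos (by omega), if_pos rfl]

end Nwl
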