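import Pool.Agent.Lib.Nwl.CoreB

/-!
# The game of Theorem 2: the labels used by an approximate equilibrium are spread

MP_602ccf, project Nwl (owner helper29). Paper proof: /team-store/602ccf_winlose.md, section 4 (c).

PROOF. `rowC`: `dev2` with `E r b = if lab (m * m + (r * m + b)) < D then 1 else 0`, `g z w = if z = w then 1 else 0`,
`R = RT M D (fun r b => lab (m * m + (r * m + b))) T` (not empty by `GLab.e2` at some `b ∈ range m \ T`, which exists
as `T.card ≤ s < m`), `p = D / Q`, `w = u + e` where `u` is the payoff of the row player (`nash.1` at the row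
`n * m + (2 * r + z)`, `spl`, `ce_xp`, `ce_xx`). By `Hyp.total` (the last sum is `≥ 0`) and `Hyp.colA`
`u ≤ 1 - v ≤ 1 - (p - z - e)`. With `θ = K / Q`, `2 p + θ = 1`: `ν * (1 - p) ≤ θ + 2 z + 2 e` and `1 - p ≥ 1 / 2`, so
`ν ≤ 2 θ + 4 (z + e) ≤ 3 θ`.
`colC`: the same with the roles of the players exchanged: `E c a = if lab (m * m + M * m + (c * m + a)) < D then 1 else 0`,
`g w z = if z = w then 0 else 1`, `GLab.f2`, `Hyp.rowA`.
-/

set_option autoImplicit false

namespace Nwl

open Finset Nsh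

variable {n m M s K D Q : ℕ} {z δ e : ℝ} {al be : ℕ → ℕ → ℕ} {lab : ℕ → ℕ} {x y : ℕ → ℝ}

namespace CoreCAux

/-- the numbers -/
theorem nums (h : Hyp n m M s K D Q z δ e al be lab x y) :
    0 ≤ (D : ℝ) / Q ∧ (D : ℝ) / Q ≤ 1 / 2 ∧ 2 * ((D : ℝ) / Q) + (K : ℝ) / Q = 1 ∧ 0 < (K : ℝ) / Q := by
  have hK : (0 : ℝ) < K := by exact_mod_cast h.hK
  have hD : (0 : ℝ) ≤ D := Nat.cast_nonneg _
  have hQ : (Q : ℝ) = 2 * D + K := by rw [h.hQ]; push_cast; ring
  have hQ0 : (0 : ℝ) < Q := by rw [hQ]; linarith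
  have h1 : 2 * ((D : ℝ) / Q) + (K : ℝ) / Q = 1 := by
    rw [← mul_div_assoc, ← add_div, ← hQ, div_self hQ0.ne']
  have h2 : 0 ≤ (D : ℝ) / Q := by positivity
  have h3 : 0 < (K : ℝ) / Q := by positivity
  exact ⟨h2, by linarith, h1, h3⟩

/-- end of the computation -/
theorem fin {p θ z e ν u v : ℝ} (hp : p ≤ 1 / 2) (h1 : 2 * p + θ = 1) (hν : 0 ≤ ν)
    (hu : p + ν * (1 - p) - z ≤ u + e) (hv : p - z - e ≤ v) (huv : u + v ≤ 1)
    (h4 : 4 * (z + e) ≤ θ) : ν ≤ 3 * θ := by
  have k : ν * (1 / 2) ≤ ν * (1 - p) := mul_le_mul_of_nonneg_left (by linarith) hν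
  linarith

/-- a small set of labels: there is another one -/
theorem exists_out {T : Finset ℕ} {s m : ℕ} (hT : T ⊆ range m) (hc : T.card ≤ s) (hsm : s < m) :
    ∃ b < m, b ∉ T := by
  by_contra hcon
  push Not at hcon
  have h1 : range m ⊆ T := fun b hb => hcon b (mem_range.1 hb)
  have h2 := card_le_card h1
  rw [card_range] at h2
  omega

/-- the extra strategies that win against `T` exist -/
theorem RT_ne {E : ℕ → ℕ → ℕ} {T : Finset ℕ} (h2 : G2 m M s D Q z E) (hsm : s < m)
    (hT : T ⊆ range m) (hc : T.card ≤ s) : (RT M D E T).Nonempty := by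
  obtain ⟨b, hb, hbT⟩ := exists_out hT hc hsm
  have h := h2 T hT hc b hb hbT
  by_contra hne
  rw [not_nonempty_iff_eq_empty] at hne
  rw [hne] at h
  simp at h

/-- the sum of the payoffs is at most `1` -/
theorem uv (h : Hyp n m M s K D Q z δ e al be lab x y) :
    bil (n * m + 2 * M) (RM 1 (ce2 n m M D Q al be lab)) x y +
      bil (n * m + 2 * M) (RM 2 (ce2 n m M D Q al be lab)) x y ≤ 1 := by
  have ht := h.total
  have h0 : 0 ≤ ∑ i ∈ range n, ∑ a ∈ range m, ∑ j ∈ range n, ∑ b ∈ range m,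
        x (i * m + a) * y (j * m + b) * RM 0 (ce2 n m M D Q al be lab) (i * m + a) (j * m + b) := by
    refine sum_nonneg fun i hi => sum_nonneg fun a ha => sum_nonneg fun j hj =>
      sum_nonneg fun b hb => ?_
    rw [mem_range] at hi ha hj hb
    have h1 : 0 ≤ x (i * m + a) := h.hx.nn _ (by have := SplAux.lt_mul hi ha; omega)
    have h2 : 0 ≤ y (j * m + b) := h.hy.nn _ (by have := SplAux.lt_mul hj hb; omega)
    have h3 : 0 ≤ RM 0 (ce2 n m M D Q al be lab) (i * m + a) (j * m + b) := by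
      unfold RM; split_ifs <;> norm_num
    positivity
  linarith

theorem E2 {E : ℕ → ℕ → ℕ} {T : Finset ℕ} (h2 : G2 m M s D Q z E)
    (hT : T ⊆ range m) (hc : T.card ≤ s) : ∀ b < m, b ∉ T →
    ((D : ℝ) / Q - z) * ((RT M D E T).card : ℝ) ≤
      ∑ r ∈ RT M D E T, (if E r b < D then (1 : ℝ) else 0) := by
  intro b hb hbT
  have h := h2 T hT hc b hb hbT
  rw [sum_boole]
  exact h.le

theorem E1 {E : ℕ → ℕ → ℕ} {T : Finset ℕ} : ∀ r ∈ RT M D E T, ∀ b ∈ T,
    (if E r b < D then (1 : ℝ) else 0) = 1 := by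
  intro r hr b hb
  unfold RT at hr
  rw [mem_filter] at hr
  rw [if_pos (hr.2 b hb)]

theorem pr_nonneg (h : Mix (n * m + 2 * M) x) : ∀ i < n, 0 ≤ pr m x i := by
  intro i hi
  unfold pr
  refine sum_nonneg fun a ha => h.nn _ ?_
  have := SplAux.lt_mul hi (mem_range.1 ha)
  omega

end CoreCAux

open CoreCAux

theorem Hyp.rowC (h : Hyp n m M s K D Q z δ e al be lab x y) : ∀ T ⊆ range m, T.card ≤ s →
    ∑ b ∈ T, ∑ j ∈ range n, y (j * m + b) ≤ 3 * ((K : ℝ) / Q) := by
  intro T hT hc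
  obtain ⟨hp0, hp, h1, hθ⟩ := nums h
  have hν : 0 ≤ ∑ b ∈ T, ∑ j ∈ range n, y (j * m + b) := by
    refine sum_nonneg fun b hb => sum_nonneg fun j hj => h.hy.nn _ ?_
    have := SplAux.lt_mul (mem_range.1 hj) (mem_range.1 (hT hb))
    omega
  have hw : ∀ r < M, ∀ z' < 2,
      (∑ j ∈ range n, ∑ b ∈ range m,
        (if lab (m * m + (r * m + b)) < D then (1 : ℝ) else 0) * y (j * m + b)) +
      ∑ c ∈ range M, ∑ w' ∈ range 2, (if z' = w' then (1 : ℝ) else 0) * y (n * m + (2 * c + w')) ≤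
      bil (n * m + 2 * M) (RM 1 (ce2 n m M D Q al be lab)) x y + e := by
    intro r hr z' hz'
    have hn := h.nash.1 (n * m + (2 * r + z')) (by omega)
    unfold rv at hn
    rw [spl] at hn
    refine le_trans (le_of_eq ?_) hn
    congr 1
    · refine sum_congr rfl fun j hj => sum_congr rfl fun b hb => ?_
      rw [mem_range] at hj hb
      unfold RM
      rw [ce_xp hz' hj hb]
      split_ifs <;> simp_all
    · refine sum_congr rfl fun c _ => sum_congr rfl fun w' hw' => ?_
      rw [mem_range] at hw'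
      unfold RM
      rw [ce_xx hz' hw']
      split_ifs <;> simp_all
  have hd := dev2 (n := n) (m := m) (M := M)
    (E := fun r b => if lab (m * m + (r * m + b)) < D then (1 : ℝ) else 0)
    (g := fun z' w' => if z' = w' then (1 : ℝ) else 0)
    (y := fun j b => y (j * m + b)) (y2 := fun c w' => y (n * m + (2 * c + w')))
    (R := RT M D (fun r b => lab (m * m + (r * m + b))) T) (T := T)
    (w := bil (n * m + 2 * M) (RM 1 (ce2 n m M D Q al be lab)) x y + e)
    (p := (D : ℝ) / Q) (z := z) hT (by unfold RT; exact filter_subset _ _)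
    (RT_ne h.hG.e2 h.hsm hT hc) hp0 hp h.hz
    (fun j hj b hb => h.hy.nn _ (by have := SplAux.lt_mul hj hb; omega))
    (fun c hc' w' hw' => h.hy.nn _ (by omega))
    (by rw [← spl]; exact h.hy.sum)
    (by
      intro w' hw'
      have : w' = 0 ∨ w' = 1 := by omega
      rcases this with rfl | rfl <;> norm_num)
    (E1 (E := fun r b => lab (m * m + (r * m + b))))
    (E2 h.hG.e2 hT hc) hw
  have hcol := h.colA 0 h.hn
  have hcv : 0 ≤ cv n (fun i j => (be i j : ℝ) / K) (pr m x) 0 := by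
    unfold cv
    refine sum_nonneg fun i hi => mul_nonneg (pr_nonneg h.hx i (mem_range.1 hi)) (by positivity)
  have hxm := h.massX.2.1
  refine fin hp h1 hν hd (v := bil (n * m + 2 * M) (RM 2 (ce2 n m M D Q al be lab)) x y) ?_ (uv h) h.h1
  have k1 := mul_nonneg hθ.le hcv
  have k2 := mul_nonneg hθ.le hxm
  linarith

theorem Hyp.colC (h : Hyp n m M s K D Q z δ e al be lab x y) : ∀ T ⊆ range m, T.card ≤ s →
    ∑ a ∈ T, ∑ i ∈ range n, x (i * m + a) ≤ 3 * ((K : ℝ) / Q) := by
  intro T hT hc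
  obtain ⟨hp0, hp, h1, hθ⟩ := nums h
  have hν : 0 ≤ ∑ a ∈ T, ∑ i ∈ range n, x (i * m + a) := by
    refine sum_nonneg fun b hb => sum_nonneg fun j hj => h.hx.nn _ ?_
    have := SplAux.lt_mul (mem_range.1 hj) (mem_range.1 (hT hb))
    omega
  have hw : ∀ r < M, ∀ z' < 2,
      (∑ j ∈ range n, ∑ b ∈ range m,
        (if lab (m * m + M * m + (r * m + b)) < D then (1 : ℝ) else 0) * x (j * m + b)) +
      ∑ c ∈ range M, ∑ w' ∈ range 2, (if w' = z' then (0 : ℝ) else 1) * x (n * m + (2 * c + w')) ≤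
      bil (n * m + 2 * M) (RM 2 (ce2 n m M D Q al be lab)) x y + e := by
    intro r hr z' hz'
    have hn := h.nash.2 (n * m + (2 * r + z')) (by omega)
    unfold cv at hn
    rw [spl] at hn
    refine le_trans (le_of_eq ?_) hn
    congr 1
    · refine sum_congr rfl fun j hj => sum_congr rfl fun b hb => ?_
      rw [mem_range] at hj hb
      unfold RM
      rw [ce_px hj hb hz']
      split_ifs <;> simp_all
    · refine sum_congr rfl fun c _ => sum_congr rfl fun w' hw' => ?_
      rw [mem_range] at hw'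
      unfold RM
      rw [ce_xx hw' hz']
      split_ifs <;> simp_all
  have hd := dev2 (n := n) (m := m) (M := M)
    (E := fun r b => if lab (m * m + M * m + (r * m + b)) < D then (1 : ℝ) else 0)
    (g := fun z' w' => if w' = z' then (0 : ℝ) else 1)
    (y := fun j b => x (j * m + b)) (y2 := fun c w' => x (n * m + (2 * c + w')))
    (R := RT M D (fun r b => lab (m * m + M * m + (r * m + b))) T) (T := T)
    (w := bil (n * m + 2 * M) (RM 2 (ce2 n m M D Q al be lab)) x y + e)
    (p := (D : ℝ) / Q) (z := z) hT (by unfold RT; exact filter_subset _ _)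
    (RT_ne h.hG.f2 h.hsm hT hc) hp0 hp h.hz
    (fun j hj b hb => h.hx.nn _ (by have := SplAux.lt_mul hj hb; omega))
    (fun c hc' w' hw' => h.hx.nn _ (by omega))
    (by rw [← spl]; exact h.hx.sum)
    (by
      intro w' hw'
      have : w' = 0 ∨ w' = 1 := by omega
      rcases this with rfl | rfl <;> norm_num)
    (E1 (E := fun r b => lab (m * m + M * m + (r * m + b))))
    (E2 h.hG.f2 hT hc) hw
  have hrow := h.rowA 0 h.hn
  have hrv : 0 ≤ rv n (fun i j => (al i j : ℝ) / K) (pr m y) 0 := by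
    unfold rv
    refine sum_nonneg fun i hi => mul_nonneg (by positivity) (pr_nonneg h.hy i (mem_range.1 hi))
  have hxm := h.massY.2.1
  have huv := uv h
  refine fin hp h1 hν hd (v := bil (n * m + 2 * M) (RM 1 (ce2 n m M D Q al be lab)) x y) ?_
    (by linarith) h.h1
  have k1 := mul_nonneg hθ.le hrv
  have k2 := mul_nonneg hθ.le hxm
  linarith

end Nwl
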