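import Pool.Agent.Lib.Nsh.NDefs
import Pool.Agent.Lib.Nvc.Defs

/-!
# Completeness of 0/1 games: definitions

MP_602ccf, project Nwl (owner helper29). Paper proof: /team-store/602ccf_winlose.md.

Theorem 1: equilibria of games with a 0/1 row matrix (deterministic). Theorem 2: equilibria of win-lose games (randomised).

Rows of the new games: the row `i * m + a` (`i < n`, `a < m`) is the copy number `a` of the row `i`; the rows from `n * m` on are
extra rows: `n * m + (2 * r + z)`, `r < M`, `z < 2`. The same for columns.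
-/

set_option autoImplicit false

namespace Nwl

open Finset

/-! ### Projection -/

/-- weight of the index `i` -/
def pj (m : ℕ) (X : ℕ → ℕ) (i : ℕ) : ℕ := ∑ a ∈ range m, X (i * m + a)

/-- the same, for real weights -/
def pr (m : ℕ) (x : ℕ → ℝ) (i : ℕ) : ℝ := ∑ a ∈ range m, x (i * m + a)

/-- game with `N` rows and columns; the payoffs of the cell `(k, l)` are `qa (c k l)` and `qb (c k l)` -/
def gm2 (N : ℕ) (c : ℕ → ℕ → ℕ) (qa qb : ℕ → ℚ) : ℕ × List ℚ :=
  (N, (List.range (N * N)).map (fun t => qa (c (t / N) (t % N))) ++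
    (List.range (N * N)).map (fun t => qb (c (t / N) (t % N))))

/-- projected strategies, as fractions -/
def outp (n m : ℕ) (X Y : ℕ → ℕ) : List (ℕ × ℕ) × List (ℕ × ℕ) :=
  ((List.range n).map fun i => (pj m X i, Nsh.tot (n * m) X),
   (List.range n).map fun i => (pj m Y i, Nsh.tot (n * m) Y))

/-! ### Theorem 1 -/

/-- code of a cell of the game of Theorem 1: row payoff `c % 2`, column payoff `(c / 2) / (3 * K)`; `a`, `b` are the payoffs
times `K` -/
def ce1 (K : ℕ) (a b : ℕ → ℕ → ℕ) (k l : ℕ) : ℕ :=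
  if (k % K + l % K) % K < a (k / K) (l / K) then 2 * (b (k / K) (l / K) + a (k / K) (l / K)) + 1
  else 2 * (b (k / K) (l / K) + a (k / K) (l / K) + K)

/-! ### Theorem 2: cells -/

/-- labels for which the row player wins -/
def inR (D v l : ℕ) : Prop := l < D ∨ (2 * D ≤ l ∧ l < 2 * D + v)

/-- labels for which the column player wins -/
def inC (D Q v l : ℕ) : Prop := (D ≤ l ∧ l < 2 * D) ∨ Q ≤ l + v

/-- labels for which both lose -/
def inZ (D Q va vb l : ℕ) : Prop := 2 * D + va ≤ l ∧ l + vb < Q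

open Classical in
/-- code of a cell with the label `l`: 1 if the row player wins, 2 if the column player wins, 0 if both lose -/
noncomputable def cvl (D Q va vb l : ℕ) : ℕ := if inR D va l then 1 else if inC D Q vb l then 2 else 0

/-- code of a cell of the game of Theorem 2 -/
noncomputable def ce2 (n m M D Q : ℕ) (al be : ℕ → ℕ → ℕ) (lab : ℕ → ℕ) (k l : ℕ) : ℕ :=
  if k < n * m then
    if l < n * m then cvl D Q (al (k / m) (l / m)) (be (k / m) (l / m)) (lab (k % m * m + l % m))
    else if lab (m * m + M * m + ((l - n * m) / 2 * m + k % m)) < D then 2 else 1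
  else
    if l < n * m then if lab (m * m + ((k - n * m) / 2 * m + l % m)) < D then 1 else 2
    else if (k - n * m) % 2 = (l - n * m) % 2 then 1 else 2

/-- payoff matrix: `1` on the cells with the code `v` -/
noncomputable def RM (v : ℕ) (c : ℕ → ℕ → ℕ) : ℕ → ℕ → ℝ := fun k l => if c k l = v then 1 else 0

/-! ### Theorem 2: good labels -/

open Classical in
/-- copies win sufficiently often for the row player -/
def G1R (m K D Q : ℕ) (z : ℝ) (L : ℕ → ℕ → ℕ) : Prop := ∀ b < m, ∀ v ≤ K,
  (m : ℝ) * (((D : ℝ) + v) / Q - z) ≤ ((range m).filter (fun a => inR D v (L a b))).card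

open Classical in
/-- copies win sufficiently often for the column player -/
def G1C (m K D Q : ℕ) (z : ℝ) (L : ℕ → ℕ → ℕ) : Prop := ∀ a < m, ∀ v ≤ K,
  (m : ℝ) * (((D : ℝ) + v) / Q - z) ≤ ((range m).filter (fun b => inC D Q v (L a b))).card

/-- the same against the extra strategies -/
def G1E (m M D Q : ℕ) (z : ℝ) (E : ℕ → ℕ → ℕ) : Prop := ∀ r < M,
  (m : ℝ) * (1 - (D : ℝ) / Q - z) ≤ ((range m).filter (fun b => D ≤ E r b)).card

/-- the extra strategies that win against all labels in `T` -/
def RT (M D : ℕ) (E : ℕ → ℕ → ℕ) (T : Finset ℕ) : Finset ℕ := (range M).filter (fun r => ∀ t ∈ T, E r t < D)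

/-- the extra strategies that win against `T` win sufficiently often against any other label -/
def G2 (m M s D Q : ℕ) (z : ℝ) (E : ℕ → ℕ → ℕ) : Prop := ∀ T ⊆ range m, T.card ≤ s → ∀ b < m, b ∉ T →
  ((D : ℝ) / Q - z) * ((RT M D E T).card : ℝ) < (((RT M D E T).filter (fun r => E r b < D)).card : ℝ)

open Classical in
/-- both lose sufficiently often, for all small sets of copies -/
def G3 (n m s K D Q : ℕ) (δ : ℝ) (al be : ℕ → ℕ → ℕ) (L : ℕ → ℕ → ℕ) : Prop :=
  ∀ S ⊆ range m, ∀ S' ⊆ range m, S.card ≤ s → S'.card ≤ s → ∀ f g : ℕ → ℕ, (∀ a, f a < n) → (∀ b, g b < n) →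
    -(δ / 2 * ((K : ℝ) / Q) * (s : ℝ) ^ 2) ≤ ∑ a ∈ S, ∑ b ∈ S',
      ((if inZ D Q (al (f a) (g b)) (be (f a) (g b)) (L a b) then (1 : ℝ) else 0) -
        ((K : ℝ) - al (f a) (g b) - be (f a) (g b)) / Q)

/-- the labels are good -/
structure GLab (n m M s K D Q : ℕ) (z δ : ℝ) (al be : ℕ → ℕ → ℕ) (lab : ℕ → ℕ) : Prop where
  r1 : G1R m K D Q z (fun a b => lab (a * m + b))
  c1 : G1C m K D Q z (fun a b => lab (a * m + b))
  e1 : G1E m M D Q z (fun r b => lab (m * m + (r * m + b)))
  f1 : G1E m M D Q z (fun r b => lab (m * m + M * m + (r * m + b)))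
  e2 : G2 m M s D Q z (fun r b => lab (m * m + (r * m + b)))
  f2 : G2 m M s D Q z (fun r b => lab (m * m + M * m + (r * m + b)))
  g3 : G3 n m s K D Q δ al be (fun a b => lab (a * m + b))

/-- table of labels from a function on `Fin T` -/
def xt {T Q : ℕ} (f : Fin T → Fin Q) (t : ℕ) : ℕ := if h : t < T then (f ⟨t, h⟩ : ℕ) else 0

/-- labels read from a list of bits, `lm` bits for each label -/
def lb (lm : ℕ) (r : List Bool) (t : ℕ) : ℕ :=
  ∑ u ∈ range lm, if r.getD (t * lm + u) false = true then 2 ^ u else 0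

/-! ### Parameters of Theorem 2, for the accuracy `2 ^ (-a)` -/

/-- number of labels that depend on the payoffs -/
def pK (a : ℕ) : ℕ := 2 ^ (a + 2)

/-- number of labels -/
def pQ (a : ℕ) : ℕ := 2 ^ (2 * a + 5)

/-- labels for which a fixed player wins -/
def pD (a : ℕ) : ℕ := 2 ^ (2 * a + 4) - 2 ^ (a + 1)

/-- `log n` -/
def la (n : ℕ) : ℕ := Nat.log 2 n + 1

/-- size of a small set of copies -/
def ps (C n : ℕ) : ℕ := C * la n

/-- number of copies -/
def pm (C' n : ℕ) : ℕ := C' * la n

/-- number of pairs of extra strategies -/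
def pM (C n : ℕ) : ℕ := (2 * n) ^ (3 * C)

/-- number of labels of the game -/
def pT (C C' n : ℕ) : ℕ := pm C' n * pm C' n + 2 * (pM C n * pm C' n)

end Nwl
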