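import Mathlib

/-!
# Extreme points of the spread distributions

MP_602ccf, project Nwl (owner helper29). Paper proof: /team-store/602ccf_winlose.md, section 4 (d), extremal lemma.

PROOF. `ext1`: for every `a` choose `f a < n` with `φ (f a) a` minimal (`Finset.exists_min_image (range n)`); `g a = φ (f a) a`,
`μ a = ∑ i < n, x i a ∈ [0, 1 / s]`; `∑ i, ∑ a, x i a * φ i a ≥ ∑ a, μ a * g a`. Let `N = (range m).filter (g · < 0)`.
If `N.card ≤ s`: `S = N`. Otherwise take `S ⊆ N` with `S.card = s` and all values of `g` on `S` at most all values on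
`N \ S` (e.g. a subset of `N` of size `s` with minimal `∑ a ∈ S, g a`: `Finset.exists_min_image (N.powersetCard s)`, exchange
argument; or sort). Let `t = max of g on S`, `t < 0`. `∑ a, μ a * (g a - t) ≥ ∑ a ∈ S, μ a * (g a - t) ≥ (1 / s) * ∑ a ∈ S, (g a - t)`
(outside `S` `g a - t ≥ 0`; on `S` `g a - t ≤ 0` and `μ a ≤ 1 / s`), and `t * ∑ μ ≥ t = (1 / s) * ∑ a ∈ S, t`.
`ext2`: `ext1` for `φ i a = ∑ j, ∑ b, y j b * h i a j b`, giving `S`, `f`; then `ext1` for `y` and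
`φ' j b = (1 / s) * ∑ a ∈ S, h (f a) a j b`, giving `S'`, `g`; the value is `(1 / s ^ 2) * ∑ a ∈ S, ∑ b ∈ S', h (f a) a (g b) b`.
-/

set_option autoImplicit false

namespace Nwl

open Finset

namespace ExtAux

theorem knap {m s : ℕ} (hs : 0 < s) (g μ : ℕ → ℝ) (h0 : ∀ a < m, 0 ≤ μ a) (h1 : ∀ a < m, μ a ≤ 1 / s)
    (h2 : ∑ a ∈ range m, μ a ≤ 1) :
    ∃ S ⊆ range m, S.card ≤ s ∧ (1 / s : ℝ) * ∑ a ∈ S, g a ≤ ∑ a ∈ range m, μ a * g a := by
  classical
  have hs' : (0 : ℝ) < s := by exact_mod_cast hs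
  set N := (range m).filter (fun a => g a < 0) with hN
  have hNm : N ⊆ range m := filter_subset _ _
  rcases le_or_gt N.card s with hc | hc
  · refine ⟨N, hNm, hc, ?_⟩
    have e1 : (1 / s : ℝ) * ∑ a ∈ N, g a ≤ ∑ a ∈ N, μ a * g a := by
      rw [mul_sum]
      refine sum_le_sum fun a ha => ?_
      have ha' := mem_filter.1 ha
      have h3 := h1 a (mem_range.1 ha'.1)
      nlinarith [ha'.2]
    refine e1.trans (sum_le_sum_of_subset_of_nonneg hNm fun a ha hn => ?_)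
    have h4 : 0 ≤ g a := by
      by_contra h5
      exact hn (mem_filter.2 ⟨ha, not_le.1 h5⟩)
    exact mul_nonneg (h0 a (mem_range.1 ha)) h4
  · have hne : (N.powersetCard s).Nonempty := powersetCard_nonempty.2 hc.le
    obtain ⟨S, hS, hmin⟩ := exists_min_image (N.powersetCard s) (fun S => ∑ a ∈ S, g a) hne
    obtain ⟨hSN, hSc⟩ := mem_powersetCard.1 hS
    have hSne : S.Nonempty := card_pos.1 (by omega)
    obtain ⟨a0, ha0, hmax⟩ := exists_max_image S g hSne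
    have ht : g a0 < 0 := (mem_filter.1 (hSN ha0)).2
    have hout : ∀ b ∈ range m, b ∉ S → g a0 ≤ g b := by
      intro b hb hbS
      by_contra hlt
      push Not at hlt
      have hbN : b ∈ N := mem_filter.2 ⟨hb, hlt.trans ht⟩
      have hbE : b ∉ S.erase a0 := fun h => hbS (mem_of_mem_erase h)
      have hS' : insert b (S.erase a0) ∈ N.powersetCard s := by
        refine mem_powersetCard.2 ⟨?_, ?_⟩
        · intro c hc
          rcases mem_insert.1 hc with rfl | hc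
          · exact hbN
          · exact hSN (mem_of_mem_erase hc)
        · rw [card_insert_of_notMem hbE, card_erase_of_mem ha0, hSc]
          omega
      have h5 := hmin _ hS'
      simp only [sum_insert hbE] at h5
      have h6 := add_sum_erase S g ha0
      linarith
    refine ⟨S, hSN.trans hNm, hSc.le, ?_⟩
    have e1 : ∑ a ∈ range m, μ a * g a = ∑ a ∈ range m, μ a * (g a - g a0) + g a0 * ∑ a ∈ range m, μ a := by
      rw [mul_sum, ← sum_add_distrib]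
      exact sum_congr rfl fun a _ => by ring
    have e2 : g a0 ≤ g a0 * ∑ a ∈ range m, μ a := by nlinarith
    have e3 : ∑ a ∈ S, μ a * (g a - g a0) ≤ ∑ a ∈ range m, μ a * (g a - g a0) := by
      refine sum_le_sum_of_subset_of_nonneg (hSN.trans hNm) fun a ha hn => ?_
      exact mul_nonneg (h0 a (mem_range.1 ha)) (sub_nonneg.2 (hout a ha hn))
    have e4 : ∑ a ∈ S, (1 / s : ℝ) * (g a - g a0) ≤ ∑ a ∈ S, μ a * (g a - g a0) := by
      refine sum_le_sum fun a ha => ?_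
      have h3 := h1 a (mem_range.1 (hNm (hSN ha)))
      have h4 := hmax a ha
      nlinarith
    have e5 : ∑ a ∈ S, (1 / s : ℝ) * (g a - g a0) = (1 / s : ℝ) * ∑ a ∈ S, g a - g a0 := by
      rw [← mul_sum, sum_sub_distrib, sum_const, hSc, nsmul_eq_mul]
      field_simp
    linarith

end ExtAux

theorem ext1 {n m s : ℕ} (hn : 0 < n) (hs : 0 < s) (φ : ℕ → ℕ → ℝ) {x : ℕ → ℕ → ℝ}
    (hx : ∀ i < n, ∀ a < m, 0 ≤ x i a) (h1 : ∀ a < m, ∑ i ∈ range n, x i a ≤ 1 / s)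
    (h2 : ∑ i ∈ range n, ∑ a ∈ range m, x i a ≤ 1) :
    ∃ S ⊆ range m, S.card ≤ s ∧ ∃ f : ℕ → ℕ, (∀ a, f a < n) ∧
      (1 / s : ℝ) * ∑ a ∈ S, φ (f a) a ≤ ∑ i ∈ range n, ∑ a ∈ range m, x i a * φ i a := by
  classical
  have hne : (range n).Nonempty := ⟨0, mem_range.2 hn⟩
  choose f hf hmin using fun a => exists_min_image (range n) (fun i => φ i a) hne
  obtain ⟨S, hS, hc, hle⟩ := ExtAux.knap (m := m) hs (fun a => φ (f a) a) (fun a => ∑ i ∈ range n, x i a)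
    (fun a ha => sum_nonneg fun i hi => hx i (mem_range.1 hi) a ha) h1 (by rw [sum_comm]; exact h2)
  refine ⟨S, hS, hc, f, fun a => mem_range.1 (hf a), hle.trans ?_⟩
  rw [sum_comm (s := range n)]
  refine sum_le_sum fun a ha => ?_
  rw [sum_mul]
  refine sum_le_sum fun i hi => ?_
  exact mul_le_mul_of_nonneg_left (hmin a i hi) (hx i (mem_range.1 hi) a (mem_range.1 ha))

theorem ext2 {n m s : ℕ} (hn : 0 < n) (hs : 0 < s) (h : ℕ → ℕ → ℕ → ℕ → ℝ) {x y : ℕ → ℕ → ℝ} {c : ℝ}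
    (hx : ∀ i < n, ∀ a < m, 0 ≤ x i a) (hx1 : ∀ a < m, ∑ i ∈ range n, x i a ≤ 1 / s)
    (hx2 : ∑ i ∈ range n, ∑ a ∈ range m, x i a ≤ 1)
    (hy : ∀ j < n, ∀ b < m, 0 ≤ y j b) (hy1 : ∀ b < m, ∑ j ∈ range n, y j b ≤ 1 / s)
    (hy2 : ∑ j ∈ range n, ∑ b ∈ range m, y j b ≤ 1)
    (H : ∀ S ⊆ range m, ∀ S' ⊆ range m, S.card ≤ s → S'.card ≤ s → ∀ f g : ℕ → ℕ, (∀ a, f a < n) →
      (∀ b, g b < n) → -(c * (s : ℝ) ^ 2) ≤ ∑ a ∈ S, ∑ b ∈ S', h (f a) a (g b) b) :
    -c ≤ ∑ i ∈ range n, ∑ a ∈ range m, ∑ j ∈ range n, ∑ b ∈ range m, x i a * y j b * h i a j b := by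
  have hs' : (0 : ℝ) < s := by exact_mod_cast hs
  obtain ⟨S, hS, hSc, f, hf, h1⟩ := ext1 hn hs (fun i a => ∑ j ∈ range n, ∑ b ∈ range m, y j b * h i a j b) hx hx1 hx2
  obtain ⟨S', hS', hSc', g, hg, h2⟩ := ext1 hn hs (fun j b => (1 / s : ℝ) * ∑ a ∈ S, h (f a) a j b) hy hy1 hy2
  have h3 := H S hS S' hS' hSc hSc' f g hf hg
  have e1 : ∑ i ∈ range n, ∑ a ∈ range m, ∑ j ∈ range n, ∑ b ∈ range m, x i a * y j b * h i a j b =
      ∑ i ∈ range n, ∑ a ∈ range m, x i a * ∑ j ∈ range n, ∑ b ∈ range m, y j b * h i a j b := by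
    refine sum_congr rfl fun i _ => sum_congr rfl fun a _ => ?_
    rw [mul_sum]
    refine sum_congr rfl fun j _ => ?_
    rw [mul_sum]
    exact sum_congr rfl fun b _ => by ring
  have e2 : (1 / s : ℝ) * ∑ a ∈ S, ∑ j ∈ range n, ∑ b ∈ range m, y j b * h (f a) a j b =
      ∑ j ∈ range n, ∑ b ∈ range m, y j b * ((1 / s : ℝ) * ∑ a ∈ S, h (f a) a j b) := by
    rw [sum_comm, mul_sum]
    refine sum_congr rfl fun j _ => ?_
    rw [sum_comm, mul_sum]
    refine sum_congr rfl fun b _ => ?_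
    rw [← mul_sum]
    ring
  have e3 : (1 / s : ℝ) * ∑ b ∈ S', (1 / s : ℝ) * ∑ a ∈ S, h (f a) a (g b) b =
      (∑ a ∈ S, ∑ b ∈ S', h (f a) a (g b) b) / (s : ℝ) ^ 2 := by
    rw [← mul_sum, sum_comm (s := S')]
    field_simp
  rw [e1]
  refine le_trans ?_ h1
  rw [e2]
  refine le_trans ?_ h2
  rw [e3, le_div_iff₀ (by positivity)]
  linarith

end Nwl
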