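import Pool.Agent.Lib.Nwl.RDefs

/-!
# The games `gm2`

MP_602ccf, project Nwl (owner helper29).

PROOF. The list has `2 * (N * N)` entries. Entry `i * N + j` (`i, j < N`) of the first half is `qa (c i j)`
(`(i * N + j) / N = i`, `(i * N + j) % N = j`), entry `N ^ 2 + (i * N + j)` is `qb (c i j)` (`List.getD_append_right`).
`len_gm2`: `List.length_flatMap`, sum of at most `2 * (N * N)` terms `≤ L`.
-/

set_option autoImplicit false

namespace Nwl

open Finset

namespace GMAux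

/-- entries of the first half -/
theorem getD_fst {N : ℕ} {f g : ℕ → ℚ} {t : ℕ} (ht : t < N * N) :
    ((List.range (N * N)).map f ++ (List.range (N * N)).map g).getD t 0 = f t := by
  rw [List.getD_append _ _ _ _ (by simpa using ht)]
  rw [List.getD_eq_getElem _ _ (by simpa using ht)]
  simp

/-- entries of the second half -/
theorem getD_snd {N : ℕ} {f g : ℕ → ℚ} {t : ℕ} (ht : t < N * N) :
    ((List.range (N * N)).map f ++ (List.range (N * N)).map g).getD (N ^ 2 + t) 0 = g t := by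
  rw [List.getD_append_right _ _ _ _ (by simp [pow_two])]
  have h1 : N ^ 2 + t - ((List.range (N * N)).map f).length = t := by
    simp [pow_two]
  rw [h1, List.getD_eq_getElem _ _ (by simpa using ht)]
  simp

theorem idx_lt {N i j : ℕ} (hi : i < N) (hj : j < N) : i * N + j < N * N := by
  calc i * N + j < i * N + N := by omega
    _ = (i + 1) * N := by ring
    _ ≤ N * N := Nat.mul_le_mul_right N hi

theorem idx_div {N i j : ℕ} (hj : j < N) : (i * N + j) / N = i := by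
  rw [Nat.mul_comm i N, Nat.mul_add_div (by omega), Nat.div_eq_of_lt hj, Nat.add_zero]

theorem idx_mod {N i j : ℕ} (hj : j < N) : (i * N + j) % N = j := by
  rw [Nat.mul_comm i N, Nat.mul_add_mod, Nat.mod_eq_of_lt hj]

theorem ent_a {N i j : ℕ} {c : ℕ → ℕ → ℕ} {qa qb : ℕ → ℚ} (hi : i < N) (hj : j < N) :
    (gm2 N c qa qb).2.getD (i * N + j) 0 = qa (c i j) := by
  rw [gm2]
  simp only
  rw [getD_fst (idx_lt hi hj), idx_div hj, idx_mod hj]

theorem ent_b {N i j : ℕ} {c : ℕ → ℕ → ℕ} {qa qb : ℕ → ℚ} (hi : i < N) (hj : j < N) :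
    (gm2 N c qa qb).2.getD (N ^ 2 + (i * N + j)) 0 = qb (c i j) := by
  rw [gm2]
  simp only
  rw [getD_snd (idx_lt hi hj), idx_div hj, idx_mod hj]

/-- length of the code of a list of entries -/
theorem len_fm {L : ℕ} (l : List ℚ)
    (h : ∀ q ∈ l, (Pool.Agent.Lib.P8e91ed.encQ q).length ≤ L) :
    (l.flatMap Pool.Agent.Lib.P8e91ed.encQ).length ≤ l.length * L := by
  induction l with
  | nil => simp
  | cons a l ih =>
    rw [List.flatMap_cons, List.length_append, List.length_cons]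
    have h1 := h a (by simp)
    have h2 := ih (fun q hq => h q (by simp [hq]))
    nlinarith

/-- payoff against a pure row -/
theorem pay_single_row {n : ℕ} (M : Fin n → Fin n → ℝ) (y : Fin n → ℝ) (i : Fin n) :
    Nvc.pay M (Pi.single i 1) y = ∑ j : Fin n, M i j * y j := by
  rw [Nvc.pay, Finset.sum_eq_single i]
  · apply Finset.sum_congr rfl
    intro j _
    simp
  · intro b _ hb
    apply Finset.sum_eq_zero
    intro j _
    simp [Pi.single_eq_of_ne hb]
  · intro h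
    exact absurd (Finset.mem_univ i) h

/-- payoff against a pure column -/
theorem pay_single_col {n : ℕ} (M : Fin n → Fin n → ℝ) (x : Fin n → ℝ) (j : Fin n) :
    Nvc.pay M x (Pi.single j 1) = ∑ i : Fin n, x i * M i j := by
  rw [Nvc.pay]
  apply Finset.sum_congr rfl
  intro i _
  rw [Finset.sum_eq_single j]
  · simp
  · intro b _ hb
    simp [Pi.single_eq_of_ne hb]
  · intro h
    exact absurd (Finset.mem_univ j) h

/-- payoffs of functions on the natural numbers -/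
theorem pay_bil {n : ℕ} (M : Fin n → Fin n → ℝ) (R : ℕ → ℕ → ℝ) (hM : ∀ i j : Fin n, M i j = R i j)
    (x y : ℕ → ℝ) : Nvc.pay M (fun i => x i) (fun i => y i) = Nsh.bil n R x y := by
  rw [Nvc.pay, Nsh.bil, ← Fin.sum_univ_eq_sum_range (fun i => x i * Nsh.rv n R y i) n]
  apply Finset.sum_congr rfl
  intro i _
  rw [Nsh.rv, ← Fin.sum_univ_eq_sum_range (fun j => R i j * y j) n, Finset.mul_sum]
  apply Finset.sum_congr rfl
  intro j _
  rw [hM]
  ring

/-- the payoff of the row strategy `x'` is an average of the payoffs of the rows -/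
theorem pay_row_avg {n : ℕ} (M : Fin n → Fin n → ℝ) (x y : Fin n → ℝ) :
    Nvc.pay M x y = ∑ i : Fin n, x i * ∑ j : Fin n, M i j * y j := by
  rw [Nvc.pay]
  apply Finset.sum_congr rfl
  intro i _
  rw [Finset.mul_sum]
  apply Finset.sum_congr rfl
  intro j _
  ring

theorem pay_col_avg {n : ℕ} (M : Fin n → Fin n → ℝ) (x y : Fin n → ℝ) :
    Nvc.pay M x y = ∑ j : Fin n, y j * ∑ i : Fin n, x i * M i j := by
  rw [Nvc.pay, Finset.sum_comm]
  apply Finset.sum_congr rfl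
  intro j _
  rw [Finset.mul_sum]
  apply Finset.sum_congr rfl
  intro i _
  ring

theorem avg_le {n : ℕ} (x f : Fin n → ℝ) (hx : x ∈ stdSimplex ℝ (Fin n)) (a : ℝ)
    (h : ∀ i, f i ≤ a) : ∑ i : Fin n, x i * f i ≤ a := by
  calc ∑ i : Fin n, x i * f i ≤ ∑ i : Fin n, x i * a :=
        Finset.sum_le_sum fun i _ => mul_le_mul_of_nonneg_left (h i) (hx.1 i)
    _ = (∑ i : Fin n, x i) * a := by rw [Finset.sum_mul]
    _ = a := by rw [hx.2, one_mul]

/-- approximate equilibria, on `Fin n` and on the natural numbers -/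
theorem anash_iff {n : ℕ} {ε : ℝ} (A B : Fin n → Fin n → ℝ) (R C : ℕ → ℕ → ℝ)
    (hA : ∀ i j : Fin n, A i j = R i j) (hB : ∀ i j : Fin n, B i j = C i j) (x y : ℕ → ℝ) :
    Nvc.ANash ε A B (fun i => x i) (fun i => y i) ↔
      (Nsh.Mix n x ∧ Nsh.Mix n y ∧ Nsh.Good n R C ε x y) := by
  have hmix : ∀ z : ℕ → ℝ, (fun i : Fin n => z i) ∈ stdSimplex ℝ (Fin n) ↔ Nsh.Mix n z := by
    intro z
    constructor
    · intro h
      refine ⟨fun i hi => h.1 ⟨i, hi⟩, ?_⟩
      rw [← Fin.sum_univ_eq_sum_range]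
      exact h.2
    · intro h
      refine ⟨fun i => h.nn i i.2, ?_⟩
      have := h.sum
      rw [← Fin.sum_univ_eq_sum_range] at this
      exact this
  have hrow : ∀ i : Fin n, ∑ j : Fin n, A i j * y j = Nsh.rv n R y i := by
    intro i
    rw [Nsh.rv, ← Fin.sum_univ_eq_sum_range (fun j => R i j * y j) n]
    exact Finset.sum_congr rfl fun j _ => by rw [hA]
  have hcol : ∀ j : Fin n, ∑ i : Fin n, x i * B i j = Nsh.cv n C x j := by
    intro j
    rw [Nsh.cv, ← Fin.sum_univ_eq_sum_range (fun i => x i * C i j) n]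
    exact Finset.sum_congr rfl fun i _ => by rw [hB]
  constructor
  · rintro ⟨hx, hy, h1, h2⟩
    refine ⟨(hmix x).1 hx, (hmix y).1 hy, ?_, ?_⟩
    · intro i hi
      have h3 := h1 (Pi.single ⟨i, hi⟩ 1) (single_mem_stdSimplex ℝ _)
      rw [pay_single_row, pay_bil A R hA x y, hrow] at h3
      simp only at h3
      linarith
    · intro j hj
      have h3 := h2 (Pi.single ⟨j, hj⟩ 1) (single_mem_stdSimplex ℝ _)
      rw [pay_single_col, pay_bil B C hB x y, hcol] at h3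
      simp only at h3
      linarith
  · rintro ⟨hx, hy, h1, h2⟩
    refine ⟨(hmix x).2 hx, (hmix y).2 hy, ?_, ?_⟩
    · intro x' hx'
      rw [pay_bil A R hA x y, pay_row_avg]
      have := avg_le x' (fun i => ∑ j : Fin n, A i j * y j) hx' (Nsh.bil n R x y + ε)
        (fun i => by
          rw [hrow]
          exact h1 i i.2)
      linarith
    · intro y' hy'
      rw [pay_bil B C hB x y, pay_col_avg]
      have := avg_le y' (fun j => ∑ i : Fin n, x i * B i j) hy' (Nsh.bil n C x y + ε)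
        (fun j => by
          rw [hcol]
          exact h2 j j.2)
      linarith

end GMAux

theorem isG_gm2 {N : ℕ} (hN : 1 ≤ N) {c : ℕ → ℕ → ℕ} {qa qb : ℕ → ℚ}
    (hq : ∀ k l, (0 ≤ qa (c k l) ∧ qa (c k l) ≤ 1) ∧ 0 ≤ qb (c k l) ∧ qb (c k l) ≤ 1) :
    IsG (gm2 N c qa qb) := by
  refine ⟨hN, ?_, ?_⟩
  · rw [gm2]
    simp only [List.length_append, List.length_map, List.length_range]
    ring
  · intro q hq'
    rw [gm2] at hq'
    simp only [List.mem_append, List.mem_map, List.mem_range] at hq'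
    rcases hq' with ⟨t, _, rfl⟩ | ⟨t, _, rfl⟩
    · exact (hq _ _).1
    · exact (hq _ _).2

theorem mA_gm2 {N : ℕ} {c : ℕ → ℕ → ℕ} {qa qb : ℕ → ℚ} (i j : Fin N) :
    mA (gm2 N c qa qb) i j = ((qa (c i j) : ℚ) : ℝ) := by
  have h := GMAux.ent_a (c := c) (qa := qa) (qb := qb) i.2 j.2
  rw [← h]
  rfl

theorem mB_gm2 {N : ℕ} {c : ℕ → ℕ → ℕ} {qa qb : ℕ → ℚ} (i j : Fin N) :
    mB (gm2 N c qa qb) i j = ((qb (c i j) : ℚ) : ℝ) := by
  have h := GMAux.ent_b (c := c) (qa := qa) (qb := qb) i.2 j.2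
  rw [← h]
  rfl

theorem len_gm2 {N L : ℕ} {c : ℕ → ℕ → ℕ} {qa qb : ℕ → ℚ}
    (h : ∀ v, (Pool.Agent.Lib.P8e91ed.encQ (qa v)).length ≤ L ∧
      (Pool.Agent.Lib.P8e91ed.encQ (qb v)).length ≤ L) :
    (Nsh.encG (gm2 N c qa qb)).length ≤ N + 1 + 2 * (N * N) * L := by
  have h1 := GMAux.len_fm (L := L) (gm2 N c qa qb).2 (by
    intro q hq'
    rw [gm2] at hq'
    simp only [List.mem_append, List.mem_map, List.mem_range] at hq'
    rcases hq' with ⟨t, _, rfl⟩ | ⟨t, _, rfl⟩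
    · exact (h _).1
    · exact (h _).2)
  have h2 : (gm2 N c qa qb).2.length = 2 * (N * N) := by
    rw [gm2]
    simp only [List.length_append, List.length_map, List.length_range]
    ring
  rw [h2] at h1
  have h3 : (Nsh.encG (gm2 N c qa qb)).length =
      N + (((gm2 N c qa qb).2.flatMap Pool.Agent.Lib.P8e91ed.encQ).length + 1) := by
    rw [Nsh.encG, List.length_append, List.length_replicate, List.length_cons]
    rfl
  omega

/-- the code lengths of `0` and `1` -/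
theorem len_01 : (Pool.Agent.Lib.P8e91ed.encQ 0).length ≤ 7 ∧
    (Pool.Agent.Lib.P8e91ed.encQ 1).length ≤ 7 := by
  constructor <;> simp [Pool.Agent.Lib.P8e91ed.encQ, Pool.Agent.Lib.P8e91ed.dbl]

/-- an approximate equilibrium of a game with the payoffs `qa (c k l)`, `qb (c k l)`, as functions on the natural numbers -/
theorem good_gm2 {N : ℕ} {c : ℕ → ℕ → ℕ} {qa qb : ℕ → ℚ} {ε : ℝ}
    {o : List (ℕ × ℕ) × List (ℕ × ℕ)} (h : Sol ε (gm2 N c qa qb) o) :
    Nsh.Mix N (fun k => ((o.1.getD k (0, 1)).1 : ℝ) / ((o.1.getD k (0, 1)).2 : ℝ)) ∧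
    Nsh.Mix N (fun k => ((o.2.getD k (0, 1)).1 : ℝ) / ((o.2.getD k (0, 1)).2 : ℝ)) ∧
    Nsh.Good N (fun k l => ((qa (c k l) : ℚ) : ℝ)) (fun k l => ((qb (c k l) : ℚ) : ℝ)) ε
      (fun k => ((o.1.getD k (0, 1)).1 : ℝ) / ((o.1.getD k (0, 1)).2 : ℝ))
      (fun k => ((o.2.getD k (0, 1)).1 : ℝ) / ((o.2.getD k (0, 1)).2 : ℝ)) :=
  (GMAux.anash_iff (n := N) (mA (gm2 N c qa qb)) (mB (gm2 N c qa qb)) _ _
    (fun i j => mA_gm2 i j) (fun i j => mB_gm2 i j)
    (fun k => ((o.1.getD k (0, 1)).1 : ℝ) / ((o.1.getD k (0, 1)).2 : ℝ))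
    (fun k => ((o.2.getD k (0, 1)).1 : ℝ) / ((o.2.getD k (0, 1)).2 : ℝ))).1 h.2.2

namespace GMAux

/-- the weights of the rows of the new game add up -/
theorem sum_pj (n m : ℕ) (X : ℕ → ℕ) : ∑ i ∈ range n, pj m X i = Nsh.tot (n * m) X := by
  rw [Nsh.tot]
  induction n with
  | zero => simp
  | succ n ih =>
    rw [Finset.sum_range_succ, ih, Nat.succ_mul, Finset.sum_range_add, pj]

/-- the projected strategy -/
theorem getD_outp {n m : ℕ} {X : ℕ → ℕ} {i : ℕ} (hi : i < n) :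
    ((List.range n).map fun i => (pj m X i, Nsh.tot (n * m) X)).getD i (0, 1) =
      (pj m X i, Nsh.tot (n * m) X) := by
  rw [List.getD_eq_getElem _ _ (by simpa using hi)]
  simp

theorem mix_pj {n m : ℕ} {X : ℕ → ℕ} (hX : 1 ≤ Nsh.tot (n * m) X) :
    Nsh.Mix n (fun i => (pj m X i : ℝ) / Nsh.tot (n * m) X) := by
  refine ⟨fun i _ => by positivity, ?_⟩
  rw [← Finset.sum_div, ← Nat.cast_sum, sum_pj]
  exact div_self (by exact_mod_cast (by omega : Nsh.tot (n * m) X ≠ 0))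

end GMAux

/-- and conversely -/
theorem sol_of_good {w : Game} {ε : ℝ} {m : ℕ} {X Y : ℕ → ℕ} (hX : 1 ≤ Nsh.tot (w.1 * m) X)
    (hY : 1 ≤ Nsh.tot (w.1 * m) Y)
    (h : Nsh.Good w.1 (fun i j => ((w.2.getD (i * w.1 + j) 0 : ℚ) : ℝ))
      (fun i j => ((w.2.getD (w.1 ^ 2 + (i * w.1 + j)) 0 : ℚ) : ℝ)) ε
      (fun i => (pj m X i : ℝ) / Nsh.tot (w.1 * m) X) (fun i => (pj m Y i : ℝ) / Nsh.tot (w.1 * m) Y)) :
    Sol ε w (outp w.1 m X Y) := by
  refine ⟨by simp [outp], by simp [outp], ?_⟩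
  have h1 := (GMAux.anash_iff (n := w.1) (mA w) (mB w)
    (fun i j => ((w.2.getD (i * w.1 + j) 0 : ℚ) : ℝ))
    (fun i j => ((w.2.getD (w.1 ^ 2 + (i * w.1 + j)) 0 : ℚ) : ℝ))
    (fun i j => rfl) (fun i j => rfl)
    (fun i => (pj m X i : ℝ) / Nsh.tot (w.1 * m) X)
    (fun i => (pj m Y i : ℝ) / Nsh.tot (w.1 * m) Y)).2 ⟨GMAux.mix_pj hX, GMAux.mix_pj hY, h⟩
  have e1 : strat w.1 (outp w.1 m X Y).1 =
      fun i : Fin w.1 => (pj m X i : ℝ) / Nsh.tot (w.1 * m) X := by
    funext i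
    rw [strat, outp]
    simp only
    rw [GMAux.getD_outp i.2]
  have e2 : strat w.1 (outp w.1 m X Y).2 =
      fun i : Fin w.1 => (pj m Y i : ℝ) / Nsh.tot (w.1 * m) Y := by
    funext i
    rw [strat, outp]
    simp only
    rw [GMAux.getD_outp i.2]
  rw [e1, e2]
  exact h1

end Nwl
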