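import Pool.Agent.Lib.Nwl.RDefs

/-!
# The number of random bits

MP_602ccf, project Nwl (owner helper29).

PROOF. `la n ≤ n + 1`, so `pm C' n ≤ C' * (n + 1)`, `pM C n = (2 n) ^ (3 C)`, `pT`, `n2` are bounded by polynomials in `n ≤ l` (Mathlib `Polynomial ℕ`: `X`, `+`, `*`, `^`,
`Polynomial.C`; evaluation is monotone: `Pool.Agent.Lib.PolyTime.eval_mono`, see its use in `Pool/Agent/Lib/Pa7c826m/HRed.lean`); `Polynomial.comp`.
`n_la`, ..: `n_log` (`P8e91ed.PT`), `PolyN.succ`, `PolyN.mul`, `PolyN.const`, `n_pow` or induction on the constant exponent.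
-/

set_option autoImplicit false

namespace Nwl

open Finset Pool.Agent.Lib.PolyTime Pool.Agent.Lib.Pa7c826 Pool.Agent.Lib.P8e91ed.PT
open Pool.Agent.Lib.Pa7c826t Pool.Agent.Lib

theorem LenAux.la_le (n : ℕ) : la n ≤ n + 1 := by
  unfold la
  exact Nat.add_le_add_right (Nat.log_le_self 2 n) 1

theorem len_poly (lm C C' : ℕ) (m : Polynomial ℕ) : ∃ P : Polynomial ℕ, ∀ n l : ℕ, n ≤ l →
    pT C C' n * lm + m.eval (n2 C C' n + 1 + 2 * (n2 C C' n * n2 C C' n) * 7) ≤ P.eval l := by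
  let Ppm : Polynomial ℕ := Polynomial.C C' * (Polynomial.X + 1)
  let PpM : Polynomial ℕ := (Polynomial.C 2 * Polynomial.X) ^ (3 * C)
  let PpT : Polynomial ℕ := Ppm * Ppm + Polynomial.C 2 * (PpM * Ppm)
  let Pn : Polynomial ℕ := Polynomial.X * Ppm + Polynomial.C 2 * PpM
  refine ⟨PpT * Polynomial.C lm +
    m.comp (Pn + 1 + Polynomial.C 2 * (Pn * Pn) * Polynomial.C 7), fun n l h => ?_⟩
  have h1 : pm C' n ≤ Ppm.eval l := by
    simp only [Ppm, pm, Polynomial.eval_mul, Polynomial.eval_C, Polynomial.eval_add,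
      Polynomial.eval_X, Polynomial.eval_one]
    exact Nat.mul_le_mul_left _ ((LenAux.la_le n).trans (Nat.add_le_add_right h 1))
  have h2 : pM C n ≤ PpM.eval l := by
    simp only [PpM, pM, Polynomial.eval_pow, Polynomial.eval_mul, Polynomial.eval_C,
      Polynomial.eval_X]
    exact Nat.pow_le_pow_left (Nat.mul_le_mul_left _ h) _
  have h3 : pT C C' n ≤ PpT.eval l := by
    simp only [PpT, pT, Polynomial.eval_mul, Polynomial.eval_add, Polynomial.eval_C]
    exact Nat.add_le_add (Nat.mul_le_mul h1 h1) (Nat.mul_le_mul_left _ (Nat.mul_le_mul h2 h1))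
  have h4 : n2 C C' n ≤ Pn.eval l := by
    simp only [Pn, n2, Polynomial.eval_mul, Polynomial.eval_add, Polynomial.eval_C,
      Polynomial.eval_X]
    exact Nat.add_le_add (Nat.mul_le_mul h h1) (Nat.mul_le_mul_left _ h2)
  rw [Polynomial.eval_add, Polynomial.eval_mul, Polynomial.eval_comp, Polynomial.eval_C]
  refine Nat.add_le_add (Nat.mul_le_mul_right _ h3) (eval_mono m ?_)
  simp only [Polynomial.eval_mul, Polynomial.eval_add, Polynomial.eval_C, Polynomial.eval_one]
  exact Nat.add_le_add (Nat.add_le_add_right h4 1)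
    (Nat.mul_le_mul_right _ (Nat.mul_le_mul_left _ (Nat.mul_le_mul h4 h4)))

variable {α : Type} {D : α → Prop} {ctx : List (α → List Bool)} {n : α → ℕ}

theorem n_pm (C' : ℕ) (hn : PolyN D ctx n) : PolyN D ctx (fun a => pm C' (n a)) :=
  PolyN.mul (PolyN.const C') (PolyN.succ (n_log hn))

theorem n_pM (C : ℕ) (hn : PolyN D ctx n) : PolyN D ctx (fun a => pM C (n a)) :=
  Pool.Agent.Lib.Pa7c826.PolyN.pow (PolyN.mul (PolyN.const 2) hn) (3 * C)

end Nwl
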