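import Pool.Agent.Lib.Nwl.Defs

/-!
# A table of labels inside the list of labels

MP_602ccf, project Nwl (owner helper29).

PROOF. The positions `o + (i * c + j)` (`i < r`, `j < c`) are `r * c` different positions `< T`. The involution
`(f, g) ↦ (Function.extend φ g f, f ∘ φ)` of the pairs of a list of labels `f` and a table `g` exchanges the table inside `f` with `g`,
so it maps the pairs with `P (f ∘ φ)` onto the pairs with `P g`.
-/

set_option autoImplicit false

namespace Nwl

open Finset

/-- a table as a function on the natural numbers -/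
def x2 {r c Q : ℕ} (E : Fin r → Fin c → Fin Q) (i j : ℕ) : ℕ :=
  if h : i < r ∧ j < c then (E ⟨i, h.1⟩ ⟨j, h.2⟩ : ℕ) else 0

namespace MargAux

/-- exchange of the table inside the list with a second table -/
noncomputable def swp {α β κ : Type*} (φ : α → β) (p : (β → κ) × (α → κ)) : (β → κ) × (α → κ) :=
  (Function.extend φ p.2 p.1, p.1 ∘ φ)

theorem swp_swp {α β κ : Type*} {φ : α → β} (hφ : Function.Injective φ) (p : (β → κ) × (α → κ)) :
    swp φ (swp φ p) = p := by
  obtain ⟨f, g⟩ := p
  unfold swp
  refine Prod.ext ?_ ?_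
  · funext b
    by_cases hb : ∃ a, φ a = b
    · obtain ⟨a, rfl⟩ := hb
      simp [hφ.extend_apply]
    · simp [Function.extend_apply' _ _ _ hb]
  · funext a
    simp [hφ.extend_apply]

theorem card_left {A B : Type*} [Finite B] (R : A → Prop) :
    Nat.card {p : A × B // R p.1} = Nat.card {f : A // R f} * Nat.card B := by
  rw [← Nat.card_prod]
  refine Nat.card_congr
    { toFun := fun p => (⟨p.1.1, p.2⟩, p.1.2)
      invFun := fun p => ⟨(p.1.1, p.2), p.1.2⟩
      left_inv := fun p => rfl
      right_inv := fun p => rfl }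

theorem card_right {A B : Type*} [Finite A] (R : B → Prop) :
    Nat.card {p : A × B // R p.2} = Nat.card A * Nat.card {f : B // R f} := by
  rw [← Nat.card_prod]
  refine Nat.card_congr
    { toFun := fun p => (p.1.1, ⟨p.1.2, p.2⟩)
      invFun := fun p => ⟨(p.1, p.2.1), p.2.2⟩
      left_inv := fun p => rfl
      right_inv := fun p => rfl }

theorem gen {α β κ : Type*} [Finite α] [Finite β] [Finite κ] {φ : α → β} (hφ : Function.Injective φ)
    (R : (α → κ) → Prop) :
    Nat.card {f : β → κ // R (f ∘ φ)} * Nat.card (α → κ) = Nat.card {g : α → κ // R g} * Nat.card (β → κ) := by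
  rw [← card_left (B := α → κ) (fun f : β → κ => R (f ∘ φ)), mul_comm (Nat.card {g : α → κ // R g}),
    ← card_right (A := β → κ) R]
  refine Nat.card_congr
    { toFun := fun p => ⟨swp φ p.1, p.2⟩
      invFun := fun p => ⟨swp φ p.1, ?_⟩
      left_inv := fun p => Subtype.ext (swp_swp hφ p.1)
      right_inv := fun p => Subtype.ext (swp_swp hφ p.1) }
  have h := p.2
  have e : (swp φ p.1).1 ∘ φ = p.1.2 := by
    funext a
    simp [swp, hφ.extend_apply]
  rw [e]
  exact h

end MargAux

theorem marg {T Q r c o : ℕ} (ho : o + r * c ≤ T) (P : (ℕ → ℕ → ℕ) → Prop)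
    (hP : ∀ E E' : ℕ → ℕ → ℕ, (∀ i < r, ∀ j < c, E i j = E' i j) → (P E ↔ P E')) :
    Nat.card {f : Fin T → Fin Q // P (fun i j => xt f (o + (i * c + j)))} * Q ^ (r * c) =
      Nat.card {E : Fin r → Fin c → Fin Q // P (x2 E)} * Q ^ T := by
  have hlt : ∀ i j : ℕ, i < r → j < c → o + (i * c + j) < T := by
    intro i j hi hj
    have h1 : i * c + j < r * c := by
      have h2 : (i + 1) * c ≤ r * c := Nat.mul_le_mul_right _ hi
      have h3 : (i + 1) * c = i * c + c := by ring
      omega
    omega
  let φ : Fin r × Fin c → Fin T := fun p => ⟨o + (p.1.1 * c + p.2.1), hlt _ _ p.1.2 p.2.2⟩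
  have hφ : Function.Injective φ := by
    rintro ⟨⟨i, hi⟩, ⟨j, hj⟩⟩ ⟨⟨i', hi'⟩, ⟨j', hj'⟩⟩ h
    have h1 : o + (i * c + j) = o + (i' * c + j') := congrArg Fin.val h
    have h2 : i * c + j = i' * c + j' := by omega
    have hc : 0 < c := by omega
    have e1 : i = i' := by
      have a1 : (i * c + j) / c = i := by
        rw [Nat.add_comm, Nat.add_mul_div_right _ _ hc, Nat.div_eq_of_lt hj, Nat.zero_add]
      have a2 : (i' * c + j') / c = i' := by
        rw [Nat.add_comm, Nat.add_mul_div_right _ _ hc, Nat.div_eq_of_lt hj', Nat.zero_add]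
      rw [← a1, ← a2, h2]
    subst e1
    have e2 : j = j' := by omega
    subst e2
    rfl
  have h := MargAux.gen (κ := Fin Q) hφ (fun g => P (x2 fun i j => g (i, j)))
  have e1 : Nat.card (Fin r × Fin c → Fin Q) = Q ^ (r * c) := by
    simp [Nat.card_eq_fintype_card]
  have e2 : Nat.card (Fin T → Fin Q) = Q ^ T := by
    simp [Nat.card_eq_fintype_card]
  rw [e1, e2] at h
  have e3 : Nat.card {f : Fin T → Fin Q // P (fun i j => xt f (o + (i * c + j)))} =
      Nat.card {f : Fin T → Fin Q // P (x2 fun i j => (f ∘ φ) (i, j))} := by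
    refine Nat.card_congr (Equiv.subtypeEquivRight fun f => hP _ _ ?_)
    intro i hi j hj
    have h5 := hlt i j hi hj
    simp only [xt, x2, Function.comp, φ, h5, hi, hj, and_self, dite_true]
  have e4 : Nat.card {E : Fin r → Fin c → Fin Q // P (x2 E)} =
      Nat.card {g : Fin r × Fin c → Fin Q // P (x2 fun i j => g (i, j))} := by
    refine Nat.card_congr (Equiv.subtypeEquiv (Equiv.curry _ _ _).symm fun E => ?_)
    exact Iff.rfl
  rw [e3, e4]
  exact h

end Nwl
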