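import Pool.Agent.Lib.Nwl.Defs
import Pool.Agent.Lib.Nsh.Basic

/-!
# Analysis of the game of Theorem 1

MP_602ccf, project Nwl (owner helper29). Paper proof: /team-store/602ccf_winlose.md, section 1.

PROOF. Write `R k l = ce1 .. % 2`, `C k l = (ce1 .. / 2) / (3 K)`, `At = a / K`, `Bt = b / K`. For `k = i * K + s`,
`l = j * K + t` (`s, t < K`; `Nat.mul_add_div`, `Nat.mul_add_mod`): `R k l = 1` if `(s + t) % K < a i j`, else `0`, and
`3 * C k l = Bt i j + At i j + 1 - R k l`.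
Sums over `range (n * K)`: split as `∑ i < n, ∑ s < K` of the value at `i * K + s` (`Finset.sum_range_mul_add`-like lemma, or
`Finset.sum_nat_mod`, or induction on `n`; state it once as an auxiliary lemma).
For fixed `t < K`: `∑ s < K, R (i * K + s) (j * K + t) = a i j` (the map `s ↦ (s + t) % K` is a permutation of `range K`), the same for
the sum over `t` with fixed `s`.
(1) Average of the row regrets over `s < K`: `(At yb) i ≤ u + e` for all `i < n`, where `u = bil (n K) R x y`, `yb = pr K y`.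
    So `w := bil n At xb yb ≤ u + e` (`bil_le_of_rv_le`).
(2) `bil (n K) C x y = (bil n Bt xb yb + w + 1 - u) / 3`, and the average over `t` of the column payoffs is
    `((xb Bt) j + (xb At) j - (xb At) j + 1) / 3`. So `(xb Bt) j ≤ bil n Bt xb yb + w - u + 3 e`, averaging over `yb`: `u ≤ w + 3 e`.
(3) Both regrets are at most `4 e`.
-/

set_option autoImplicit false

namespace Nwl

open Finset Nsh

namespace OneAux

theorem sum_split (n K : ℕ) (f : ℕ → ℝ) :
    ∑ k ∈ range (n * K), f k = ∑ i ∈ range n, ∑ s ∈ range K, f (i * K + s) := by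
  induction n with
  | zero => simp
  | succ n ih =>
    rw [Nat.succ_mul, sum_range_add, ih, sum_range_succ]

theorem idx_lt {n K i s : ℕ} (hi : i < n) (hs : s < K) : i * K + s < n * K := by
  calc i * K + s < i * K + K := by omega
    _ = (i + 1) * K := by ring
    _ ≤ n * K := Nat.mul_le_mul_right K hi

theorem idx_div {K i s : ℕ} (hs : s < K) : (i * K + s) / K = i := by
  rw [mul_comm, Nat.mul_add_div (by omega), Nat.div_eq_of_lt hs, Nat.add_zero]

theorem idx_mod {K i s : ℕ} (hs : s < K) : (i * K + s) % K = s := by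
  rw [mul_comm, Nat.mul_add_mod, Nat.mod_eq_of_lt hs]

theorem sum_perm {K t c : ℕ} (ht : t < K) (hc : c ≤ K) :
    ∑ s ∈ range K, (if (s + t) % K < c then (1 : ℝ) else 0) = c := by
  have hK : 0 < K := by omega
  have h1 : ∑ s ∈ range K, (if (s + t) % K < c then (1 : ℝ) else 0) =
      ∑ s ∈ range K, (if s < c then (1 : ℝ) else 0) := by
    refine sum_nbij' (fun s => (s + t) % K) (fun s => (s + (K - t)) % K) ?_ ?_ ?_ ?_ ?_
    · intro s _
      exact mem_range.2 (Nat.mod_lt _ hK)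
    · intro s _
      exact mem_range.2 (Nat.mod_lt _ hK)
    · intro s hs
      have hs' := mem_range.1 hs
      show ((s + t) % K + (K - t)) % K = s
      rw [Nat.mod_add_mod]
      have : s + t + (K - t) = s + K := by omega
      rw [this, Nat.add_mod_right, Nat.mod_eq_of_lt hs']
    · intro s hs
      have hs' := mem_range.1 hs
      show ((s + (K - t)) % K + t) % K = s
      rw [Nat.mod_add_mod]
      have : s + (K - t) + t = s + K := by omega
      rw [this, Nat.add_mod_right, Nat.mod_eq_of_lt hs']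
    · intro s _
      rfl
  rw [h1, ← sum_filter, sum_const, nsmul_eq_mul, mul_one]
  have h2 : (range K).filter (fun s => s < c) = range c := by
    ext s
    simp only [mem_filter, mem_range]
    omega
  rw [h2, card_range]

theorem pr_sum (n K : ℕ) (x : ℕ → ℝ) : ∑ i ∈ range n, pr K x i = ∑ k ∈ range (n * K), x k := by
  rw [sum_split]
  rfl

theorem mix_pr {n K : ℕ} {x : ℕ → ℝ} (hx : Mix (n * K) x) : Mix n (pr K x) where
  nn i hi := sum_nonneg (fun s hs => hx.nn _ (idx_lt hi (mem_range.1 hs)))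
  sum := by rw [pr_sum, hx.sum]

/-- block-constant matrices: columns -/
theorem cv_block {n K : ℕ} (g : ℕ → ℕ → ℝ) (x : ℕ → ℝ) (l : ℕ) :
    cv (n * K) (fun k l => g (k / K) (l / K)) x l = cv n g (pr K x) (l / K) := by
  unfold cv pr
  rw [sum_split]
  refine sum_congr rfl (fun i _ => ?_)
  rw [sum_mul]
  refine sum_congr rfl (fun s hs => ?_)
  show x (i * K + s) * g ((i * K + s) / K) (l / K) = x (i * K + s) * g i (l / K)
  rw [idx_div (mem_range.1 hs)]

theorem rv_block {n K : ℕ} (g : ℕ → ℕ → ℝ) (y : ℕ → ℝ) (k : ℕ) :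
    rv (n * K) (fun k l => g (k / K) (l / K)) y k = rv n g (pr K y) (k / K) := by
  unfold rv pr
  rw [sum_split]
  refine sum_congr rfl (fun i _ => ?_)
  rw [mul_sum]
  refine sum_congr rfl (fun s hs => ?_)
  show g (k / K) ((i * K + s) / K) * y (i * K + s) = g (k / K) i * y (i * K + s)
  rw [idx_div (mem_range.1 hs)]

theorem bil_block {n K : ℕ} (g : ℕ → ℕ → ℝ) (x y : ℕ → ℝ) :
    bil (n * K) (fun k l => g (k / K) (l / K)) x y = bil n g (pr K x) (pr K y) := by
  unfold bil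
  rw [sum_split]
  refine sum_congr rfl (fun i _ => ?_)
  unfold pr
  rw [sum_mul]
  refine sum_congr rfl (fun s hs => ?_)
  rw [rv_block g y (i * K + s), idx_div (mem_range.1 hs)]
  rfl

theorem ce1_mod (K : ℕ) (a b : ℕ → ℕ → ℕ) (k l : ℕ) :
    ((ce1 K a b k l % 2 : ℕ) : ℝ) = if (k % K + l % K) % K < a (k / K) (l / K) then 1 else 0 := by
  unfold ce1
  split_ifs with h
  · have : (2 * (b (k / K) (l / K) + a (k / K) (l / K)) + 1) % 2 = 1 := by omega
    rw [this]
    norm_num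
  · have : (2 * (b (k / K) (l / K) + a (k / K) (l / K) + K)) % 2 = 0 := by omega
    rw [this]
    norm_num

theorem ce1_div {K : ℕ} (hK : 0 < K) (a b : ℕ → ℕ → ℕ) (k l : ℕ) :
    ((ce1 K a b k l / 2 : ℕ) : ℝ) / (3 * K) = 1 / 3 * (((b (k / K) (l / K) : ℝ) / K + (a (k / K) (l / K) : ℝ) / K + 1) -
      ((ce1 K a b k l % 2 : ℕ) : ℝ)) := by
  have hK' : (K : ℝ) ≠ 0 := by exact_mod_cast hK.ne'
  unfold ce1
  split_ifs with h
  · have h1 : (2 * (b (k / K) (l / K) + a (k / K) (l / K)) + 1) % 2 = 1 := by omega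
    have h2 : (2 * (b (k / K) (l / K) + a (k / K) (l / K)) + 1) / 2 = b (k / K) (l / K) + a (k / K) (l / K) := by omega
    rw [h1, h2]
    push_cast
    field_simp
    ring
  · have h1 : (2 * (b (k / K) (l / K) + a (k / K) (l / K) + K)) % 2 = 0 := by omega
    have h2 : (2 * (b (k / K) (l / K) + a (k / K) (l / K) + K)) / 2 = b (k / K) (l / K) + a (k / K) (l / K) + K := by omega
    rw [h1, h2]
    push_cast
    field_simp
    ring

theorem sum_row {K : ℕ} {a : ℕ → ℕ → ℕ} (b : ℕ → ℕ → ℕ) (ha : ∀ i j, a i j ≤ K) (i j : ℕ) {t : ℕ} (ht : t < K) :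
    ∑ s ∈ range K, ((ce1 K a b (i * K + s) (j * K + t) % 2 : ℕ) : ℝ) = a i j := by
  rw [← sum_perm ht (ha i j)]
  refine sum_congr rfl (fun s hs => ?_)
  have hs' := mem_range.1 hs
  rw [ce1_mod, idx_div hs', idx_mod hs', idx_div ht, idx_mod ht]

theorem sum_col {K : ℕ} {a : ℕ → ℕ → ℕ} (b : ℕ → ℕ → ℕ) (ha : ∀ i j, a i j ≤ K) (i j : ℕ) {s : ℕ} (hs : s < K) :
    ∑ t ∈ range K, ((ce1 K a b (i * K + s) (j * K + t) % 2 : ℕ) : ℝ) = a i j := by
  rw [← sum_perm hs (ha i j)]
  refine sum_congr rfl (fun t ht => ?_)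
  have ht' := mem_range.1 ht
  rw [ce1_mod, idx_div hs, idx_mod hs, idx_div ht', idx_mod ht', add_comm s t]

theorem sum_rv {n K : ℕ} {a : ℕ → ℕ → ℕ} (b : ℕ → ℕ → ℕ) (hK : 0 < K) (ha : ∀ i j, a i j ≤ K) (y : ℕ → ℝ) (i : ℕ) :
    ∑ s ∈ range K, rv (n * K) (fun k l => ((ce1 K a b k l % 2 : ℕ) : ℝ)) y (i * K + s) =
      K * rv n (fun i j => (a i j : ℝ) / K) (pr K y) i := by
  have hK' : (K : ℝ) ≠ 0 := by exact_mod_cast hK.ne'
  unfold rv
  simp only [sum_split n K]
  rw [sum_comm, mul_sum]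
  refine sum_congr rfl (fun j _ => ?_)
  rw [sum_comm]
  unfold pr
  rw [mul_sum, mul_sum]
  refine sum_congr rfl (fun t ht => ?_)
  rw [← sum_mul, sum_row b ha i j (mem_range.1 ht)]
  field_simp

theorem sum_cv {n K : ℕ} {a : ℕ → ℕ → ℕ} (b : ℕ → ℕ → ℕ) (hK : 0 < K) (ha : ∀ i j, a i j ≤ K) (x : ℕ → ℝ) (j : ℕ) :
    ∑ t ∈ range K, cv (n * K) (fun k l => ((ce1 K a b k l % 2 : ℕ) : ℝ)) x (j * K + t) =
      K * cv n (fun i j => (a i j : ℝ) / K) (pr K x) j := by
  have hK' : (K : ℝ) ≠ 0 := by exact_mod_cast hK.ne'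
  unfold cv
  simp only [sum_split n K]
  rw [sum_comm, mul_sum]
  refine sum_congr rfl (fun i _ => ?_)
  rw [sum_comm]
  unfold pr
  rw [sum_mul, mul_sum]
  refine sum_congr rfl (fun s hs => ?_)
  rw [← mul_sum, sum_col b ha i j (mem_range.1 hs)]
  field_simp

end OneAux

open OneAux in
theorem one {n K : ℕ} {a b : ℕ → ℕ → ℕ} (hK : 0 < K) (ha : ∀ i j, a i j ≤ K) (hb : ∀ i j, b i j ≤ K)
    {x y : ℕ → ℝ} (hx : Mix (n * K) x) (hy : Mix (n * K) y) {e : ℝ}
    (h : Good (n * K) (fun k l => ((ce1 K a b k l % 2 : ℕ) : ℝ))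
      (fun k l => ((ce1 K a b k l / 2 : ℕ) : ℝ) / (3 * K)) e x y) :
    Mix n (pr K x) ∧ Mix n (pr K y) ∧
      Good n (fun i j => (a i j : ℝ) / K) (fun i j => (b i j : ℝ) / K) (4 * e) (pr K x) (pr K y) := by
  have hK' : (0 : ℝ) < K := by exact_mod_cast hK
  have mx := mix_pr hx
  have my := mix_pr hy
  refine ⟨mx, my, ?_⟩
  obtain ⟨h1, h2⟩ := h
  set R : ℕ → ℕ → ℝ := fun k l => ((ce1 K a b k l % 2 : ℕ) : ℝ) with hR
  set C : ℕ → ℕ → ℝ := fun k l => ((ce1 K a b k l / 2 : ℕ) : ℝ) / (3 * K) with hC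
  set At : ℕ → ℕ → ℝ := fun i j => (a i j : ℝ) / K with hAt
  set Bt : ℕ → ℕ → ℝ := fun i j => (b i j : ℝ) / K with hBt
  set g : ℕ → ℕ → ℝ := fun i j => Bt i j + At i j + 1 with hg
  set xb := pr K x with hxb
  set yb := pr K y with hyb
  set u := bil (n * K) R x y with hu
  set w := bil n At xb yb with hw
  -- (1)
  have r1 : ∀ i < n, rv n At yb i ≤ u + e := by
    intro i hi
    have e1 : ∑ s ∈ range K, rv (n * K) R y (i * K + s) ≤ ∑ _s ∈ range K, (u + e) :=
      sum_le_sum (fun s hs => h1 _ (idx_lt hi (mem_range.1 hs)))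
    rw [sum_rv b hK ha y i, sum_const, card_range, nsmul_eq_mul] at e1
    exact le_of_mul_le_mul_left e1 hK'
  have r2 : w ≤ u + e := bil_le_of_rv_le mx r1
  -- the column payoffs
  have hCg : C = fun k l => 1 / 3 * (g (k / K) (l / K) - R k l) := by
    funext k l
    exact ce1_div hK a b k l
  have c1 : ∀ l, cv (n * K) C x l = 1 / 3 * (cv n g xb (l / K) - cv (n * K) R x l) := by
    intro l
    rw [← cv_block g x l, hCg]
    unfold cv
    rw [← sum_sub_distrib, mul_sum]
    refine sum_congr rfl (fun k _ => ?_)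
    ring
  have c2 : bil (n * K) C x y = 1 / 3 * (bil n g xb yb - u) := by
    rw [hu, ← bil_block g x y, bil_eq_cv, bil_eq_cv (R := R), bil_eq_cv (R := fun k l => g (k / K) (l / K)),
      ← sum_sub_distrib, mul_sum]
    refine sum_congr rfl (fun l _ => ?_)
    rw [c1 l, ← cv_block g x l]
    ring
  have g1 : ∀ j, cv n g xb j = cv n Bt xb j + cv n At xb j + 1 := by
    intro j
    rw [← mx.sum]
    unfold cv
    rw [← sum_add_distrib, ← sum_add_distrib]
    refine sum_congr rfl (fun i _ => ?_)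
    rw [hg]
    ring
  have g2 : bil n g xb yb = bil n Bt xb yb + w + 1 := by
    rw [hw, bil_eq_cv, bil_eq_cv (R := Bt), bil_eq_cv (R := At), ← my.sum]
    rw [← sum_add_distrib, ← sum_add_distrib]
    refine sum_congr rfl (fun j _ => ?_)
    rw [g1 j]
    ring
  -- (2)
  have r3 : ∀ j < n, cv n Bt xb j ≤ bil n Bt xb yb + (w - u) + 3 * e := by
    intro j hj
    have e1 : ∑ t ∈ range K, cv (n * K) C x (j * K + t) ≤ ∑ _t ∈ range K, (bil (n * K) C x y + e) :=
      sum_le_sum (fun t ht => h2 _ (idx_lt hj (mem_range.1 ht)))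
    have e2 : ∑ t ∈ range K, cv (n * K) C x (j * K + t) = K * (1 / 3 * (cv n g xb j - cv n At xb j)) := by
      have e3 : ∑ t ∈ range K, cv (n * K) C x (j * K + t) =
          ∑ t ∈ range K, (1 / 3 * cv n g xb j - 1 / 3 * cv (n * K) R x (j * K + t)) := by
        refine sum_congr rfl (fun t ht => ?_)
        rw [c1, idx_div (mem_range.1 ht)]
        ring
      rw [e3, sum_sub_distrib, sum_const, card_range, nsmul_eq_mul, ← mul_sum, sum_cv b hK ha x j]
      ring
    rw [e2, sum_const, card_range, nsmul_eq_mul] at e1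
    have e4 := le_of_mul_le_mul_left e1 hK'
    rw [c2, g1 j, g2] at e4
    linarith
  have r4 : bil n Bt xb yb ≤ bil n Bt xb yb + (w - u) + 3 * e := bil_le_of_cv_le my r3
  refine ⟨fun i hi => ?_, fun j hj => ?_⟩
  · have := r1 i hi
    linarith
  · have := r3 j hj
    linarith

/-- the new column payoffs are in `[0, 1]` -/
theorem ce1_le {K : ℕ} {a b : ℕ → ℕ → ℕ} (ha : ∀ i j, a i j ≤ K) (hb : ∀ i j, b i j ≤ K) (k l : ℕ) :
    ce1 K a b k l / 2 ≤ 3 * K ∧ ce1 K a b k l ≤ 6 * K + 1 := by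
  have h1 := ha (k / K) (l / K)
  have h2 := hb (k / K) (l / K)
  unfold ce1
  split_ifs with h
  · constructor <;> omega
  · constructor <;> omega

end Nwl
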