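import Pool.Agent.Lib.Nwl.RDefs

/-!
# Poly side: the cells of the new games

MP_602ccf, project Nwl (owner helper29).

PROOF. `n_ite`, `PolyP.lt`, `PolyP.le`, `PolyP.and`, `PolyP.or`, `P2ba8ab.nDiv'`, `P2ba8ab.nMod'`, `PM.get`, `PV.get`, `PolyN.sub`. In the branches the domain is
restricted (`n_ite` gives the condition in the domain), so the indices are in range: in `p_ce1` the row `k = p.2 / (n K) < n K`, `k / K < n`; in `p_ce2` with
`N = n m + 2 M`: `k < n m` gives `0 < m`, `k / m < n`, `k % m * m + l % m < m * m`; `n m ≤ l < N` gives `(l - n m) / 2 < M`.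
`cvl`, `inR`, `inC` are decided by `PolyP` (unfold). `v_lb`: `PV.mk`, `nSum` over `u < lm` of `if r.getD (t * lm + u) false = true then 2 ^ u else 0`
(`PolyB.getD`, `PolyP.ofB`; `2 ^ u` with `u < lm` constant: a table, or `n_pow`), or induction on `lm` with `Finset.sum_range_succ`.
-/

set_option autoImplicit false

namespace Nwl

open Finset Pool.Agent.Lib.PolyTime Pool.Agent.Lib.Pa7c826 Pool.Agent.Lib.P8e91ed.PT
open Pool.Agent.Lib.Pa7c826t Pool.Agent.Lib Nsh

variable {α : Type} {D : α → Prop} {ctx : List (α → List Bool)}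

namespace PCellAux

theorem p_ite {P : α → Prop} {_ : ∀ a, Decidable (P a)} {f g : α → ℕ} (hP : PolyP D ctx P)
    (hf : PolyN D ctx f) (hg : PolyN D ctx g) : PolyN D ctx (fun a => if P a then f a else g a) :=
  n_ite hP (PolyC.mono hf fun _ h => h.1) (PolyC.mono hg fun _ h => h.1)

theorem p_cvl {v w l : α → ℕ} (D' Q : ℕ) (hv : PolyN D ctx v) (hw : PolyN D ctx w)
    (hl : PolyN D ctx l) : PolyN D ctx (fun a => cvl D' Q (v a) (w a) (l a)) := by
  have hR : PolyP D ctx (fun a => inR D' (v a) (l a)) := by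
    unfold inR
    exact (PolyP.lt hl (PolyN.const D')).or ((PolyP.le (PolyN.const (2 * D')) hl).and
      (PolyP.lt hl ((PolyN.const (2 * D')).add hv)))
  have hC : PolyP D ctx (fun a => inC D' Q (w a) (l a)) := by
    unfold inC
    exact ((PolyP.le (PolyN.const D') hl).and (PolyP.lt hl (PolyN.const (2 * D')))).or
      (PolyP.le (PolyN.const Q) (hl.add hw))
  unfold cvl
  exact p_ite hR (PolyN.const 1) (p_ite hC (PolyN.const 2) (PolyN.const 0))

theorem idx {n m k : ℕ} (h : k < n * m) : k / m < n :=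
  Nat.div_lt_of_lt_mul (by rw [mul_comm]; exact h)

theorem pos_of_lt {n m k : ℕ} (h : k < n * m) : 0 < m := by
  rcases Nat.eq_zero_or_pos m with h0 | h0
  · rw [h0, mul_zero] at h
    exact absurd h (Nat.not_lt_zero _)
  · exact h0

theorem pair_lt {M m x y : ℕ} (hx : x < M) (hy : y < m) : x * m + y < M * m :=
  calc x * m + y < x * m + m := by omega
    _ = (x + 1) * m := by ring
    _ ≤ M * m := Nat.mul_le_mul_right _ hx

theorem ce1g {n k l : α → ℕ} {a b : α → ℕ → ℕ → ℕ} {K : ℕ} (hn : PolyN D ctx n)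
    (ha : PM D ctx n a) (hb : PM D ctx n b) (hk : PolyN D ctx k) (hl : PolyN D ctx l)
    (hkn : ∀ x, D x → k x < n x * K) (hln : ∀ x, D x → l x < n x * K) :
    PolyN D ctx (fun x => ce1 K (a x) (b x) (k x) (l x)) := by
  have cK : PolyN D ctx (fun _ => K) := PolyN.const K
  have A := PM.get ha hn (P2ba8ab.nDiv' hk cK) (P2ba8ab.nDiv' hl cK)
    (fun x hx => idx (hkn x hx)) (fun x hx => idx (hln x hx))
  have B := PM.get hb hn (P2ba8ab.nDiv' hk cK) (P2ba8ab.nDiv' hl cK)
    (fun x hx => idx (hkn x hx)) (fun x hx => idx (hln x hx))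
  unfold ce1
  refine p_ite (PolyP.lt (P2ba8ab.nMod' ((P2ba8ab.nMod' hk cK).add (P2ba8ab.nMod' hl cK)) cK) A)
    ?_ ?_
  · exact ((PolyN.const 2).mul (B.add A)).add (PolyN.const 1)
  · exact (PolyN.const 2).mul ((B.add A).add cK)

theorem ce2g {n m M k l : α → ℕ} {al be : α → ℕ → ℕ → ℕ} {lab : α → ℕ → ℕ} (D' Q : ℕ)
    (hn : PolyN D ctx n) (hm : PolyN D ctx m) (hM : PolyN D ctx M) (hal : PM D ctx n al)
    (hbe : PM D ctx n be) (hlab : PV D ctx (fun x => m x * m x + 2 * (M x * m x)) lab)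
    (hk : PolyN D ctx k) (hl : PolyN D ctx l) (hkN : ∀ x, D x → k x < n x * m x + 2 * M x)
    (hlN : ∀ x, D x → l x < n x * m x + 2 * M x) :
    PolyN D ctx (fun x => ce2 (n x) (m x) (M x) D' Q (al x) (be x) (lab x) (k x) (l x)) := by
  have hnm : PolyN D ctx (fun x => n x * m x) := hn.mul hm
  have hkm := P2ba8ab.nMod' hk hm
  have hlm := P2ba8ab.nMod' hl hm
  have hkd := P2ba8ab.nDiv' hk hm
  have hld := P2ba8ab.nDiv' hl hm
  have hks := P2ba8ab.nDiv' (PolyN.sub hk hnm) (PolyN.const 2)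
  have hls := P2ba8ab.nDiv' (PolyN.sub hl hnm) (PolyN.const 2)
  unfold ce2
  refine n_ite (PolyP.lt hk hnm) ?_ ?_
  · refine n_ite ((PolyP.lt hl hnm).mono fun _ h => h.1) ?_ ?_
    · refine p_cvl D' Q ?_ ?_ ?_
      · exact PM.get (hal.mono fun _ h => h.1.1) (PolyC.mono hn fun _ h => h.1.1)
          (PolyC.mono hkd fun _ h => h.1.1) (PolyC.mono hld fun _ h => h.1.1)
          (fun x hx => idx hx.1.2) (fun x hx => idx hx.2)
      · exact PM.get (hbe.mono fun _ h => h.1.1) (PolyC.mono hn fun _ h => h.1.1)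
          (PolyC.mono hkd fun _ h => h.1.1) (PolyC.mono hld fun _ h => h.1.1)
          (fun x hx => idx hx.1.2) (fun x hx => idx hx.2)
      · refine PV.get (hlab.mono fun _ h => h.1.1)
          (PolyC.mono ((hkm.mul hm).add hlm) fun _ h => h.1.1) (fun x hx => ?_)
        have h0 := pos_of_lt hx.1.2
        exact (pair_lt (Nat.mod_lt _ h0) (Nat.mod_lt _ h0)).trans_le (Nat.le_add_right _ _)
    · refine n_ite (PolyP.lt (PV.get (hlab.mono fun _ h => h.1.1)
        (PolyC.mono (((hm.mul hm).add (hM.mul hm)).add ((hls.mul hm).add hkm)) fun _ h => h.1.1)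
        (fun x hx => ?_)) (PolyN.const D')) (PolyN.const 2) (PolyN.const 1)
      have h0 := pos_of_lt hx.1.2
      have h1 := hlN x hx.1.1
      have h2 : (l x - n x * m x) / 2 < M x := by omega
      have h3 := pair_lt h2 (Nat.mod_lt (k x) h0)
      omega
  · refine n_ite ((PolyP.lt hl hnm).mono fun _ h => h.1) ?_ ?_
    · refine n_ite (PolyP.lt (PV.get (hlab.mono fun _ h => h.1.1)
        (PolyC.mono ((hm.mul hm).add ((hks.mul hm).add hlm)) fun _ h => h.1.1)
        (fun x hx => ?_)) (PolyN.const D')) (PolyN.const 1) (PolyN.const 2)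
      have h0 := pos_of_lt hx.2
      have h1 := hkN x hx.1.1
      have h2 : (k x - n x * m x) / 2 < M x := by omega
      have h3 := pair_lt h2 (Nat.mod_lt (l x) h0)
      omega
    · refine p_ite (PolyP.eq ?_ ?_) (PolyN.const 1) (PolyN.const 2)
      · exact PolyC.mono (P2ba8ab.nMod' (PolyN.sub hk hnm) (PolyN.const 2)) fun _ h => h.1.1
      · exact PolyC.mono (P2ba8ab.nMod' (PolyN.sub hl hnm) (PolyN.const 2)) fun _ h => h.1.1

theorem p_lb {r : α → List Bool} {T : α → ℕ} (lm : ℕ) (hr : PolyC D ctx r) (j : ℕ) :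
    PolyN (Dx D T) (cx ctx) (fun p => ∑ u ∈ range j,
      if (r p.1).getD (p.2 * lm + u) false = true then 2 ^ u else 0) := by
  induction j with
  | zero => exact (PolyN.const 0).congr (fun p _ => by simp)
  | succ j ih =>
    have h : PolyN (Dx D T) (cx ctx)
        (fun p => if (r p.1).getD (p.2 * lm + j) false = true then 2 ^ j else 0) :=
      p_ite (PolyP.ofB (PolyB.getD (up hr) (((nL (n := T)).mul (PolyN.const lm)).add
        (PolyN.const j)))) (PolyN.const (2 ^ j)) (PolyN.const 0)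
    refine (ih.add h).congr (fun p _ => ?_)
    rw [sum_range_succ]

end PCellAux

theorem p_ce1 {n : α → ℕ} {a b : α → ℕ → ℕ → ℕ} {K : ℕ} (hK : 0 < K) (hn : PolyN D ctx n)
    (ha : PM D ctx n a) (hb : PM D ctx n b) :
    PolyN (Dx D (fun x => n x * K * (n x * K))) (cx ctx)
      (fun p => ce1 K (a p.1) (b p.1) (p.2 / (n p.1 * K)) (p.2 % (n p.1 * K))) := by
  have hnK : PolyN (Dx D (fun x => n x * K * (n x * K))) (cx ctx) (fun p => n p.1 * K) :=
    (nU (n := fun x => n x * K * (n x * K)) hn).mul (PolyN.const K)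
  refine PCellAux.ce1g (nU hn) ha.up hb.up (P2ba8ab.nDiv' nL hnK) (P2ba8ab.nMod' nL hnK)
    (fun p hp => PCellAux.idx hp.2) (fun p hp => Nat.mod_lt _ (PCellAux.pos_of_lt hp.2))

theorem v_lb {r : α → List Bool} {T : α → ℕ} (lm : ℕ) (hr : PolyC D ctx r) (hT : PolyN D ctx T) :
    PV D ctx T (fun a => lb lm (r a)) := PV.mk hT (PCellAux.p_lb lm hr lm)

theorem p_ce2 {n m M : α → ℕ} {al be : α → ℕ → ℕ → ℕ} {lab : α → ℕ → ℕ} (D' Q : ℕ)
    (hn : PolyN D ctx n) (hm : PolyN D ctx m) (hM : PolyN D ctx M) (hal : PM D ctx n al)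
    (hbe : PM D ctx n be) (hlab : PV D ctx (fun x => m x * m x + 2 * (M x * m x)) lab) :
    PolyN (Dx D (fun x => (n x * m x + 2 * M x) * (n x * m x + 2 * M x))) (cx ctx)
      (fun p => ce2 (n p.1) (m p.1) (M p.1) D' Q (al p.1) (be p.1) (lab p.1)
        (p.2 / (n p.1 * m p.1 + 2 * M p.1)) (p.2 % (n p.1 * m p.1 + 2 * M p.1))) := by
  have hN : PolyN (Dx D (fun x => (n x * m x + 2 * M x) * (n x * m x + 2 * M x))) (cx ctx)
      (fun p => n p.1 * m p.1 + 2 * M p.1) :=
    ((nU hn).mul (nU hm)).add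
      ((PolyN.const 2).mul (nU hM))
  exact PCellAux.ce2g D' Q (nU hn) (nU hm) (nU hM) hal.up hbe.up hlab.up
    (P2ba8ab.nDiv' nL hN) (P2ba8ab.nMod' nL hN)
    (fun p hp => PCellAux.idx hp.2) (fun p hp => Nat.mod_lt _ (PCellAux.pos_of_lt hp.2))

theorem ce2_le (n m M D' Q : ℕ) (al be : ℕ → ℕ → ℕ) (lab : ℕ → ℕ) (k l : ℕ) :
    ce2 n m M D' Q al be lab k l ≤ 2 := by
  unfold ce2 cvl
  split_ifs <;> omega

end Nwl
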