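import Mathlib

/-!
# Tail bound for sums of independent functions (counting form)

MP_602ccf, project Nwl (owner helper29). Paper proof: /team-store/602ccf_winlose.md, section 3.

PROOF. For `|u| ≤ 1`: `exp (-u) ≤ 1 - u + u ^ 2` (`Real.abs_exp_sub_one_sub_id_le`). So for each `j`:
`∑ x, exp (-(c * h j x)) ≤ card X * (1 - c * E j + c ^ 2 * V j) ≤ card X * exp (-c * E j + c ^ 2 * V j)` (`Real.add_one_le_exp`).
`∑ f, exp (-(c * ∑ j, h j (f j))) = ∏ j, ∑ x, exp (-(c * h j x))` (`Finset.prod_univ_sum`, `Fintype.piFinset_univ`). Markov: each `f` in the set has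
`exp (-(c * ∑ j, h j (f j))) ≥ exp (c * t)`.
-/

set_option autoImplicit false

namespace Nwl

open Finset

theorem tail {J X : Type*} [Fintype J] [DecidableEq J] [Fintype X] (h : J → X → ℝ)
    (hb : ∀ j x, |h j x| ≤ 1) (E V : J → ℝ) (hE : ∀ j, E j * Fintype.card X ≤ ∑ x, h j x)
    (hV : ∀ j, ∑ x, (h j x) ^ 2 ≤ V j * Fintype.card X) {c t : ℝ} (hc : 0 ≤ c) (hc1 : c ≤ 1) :
    (Nat.card {f : J → X // ∑ j, h j (f j) ≤ -t} : ℝ) ≤
      Real.exp (-(c * t) - c * ∑ j, E j + c ^ 2 * ∑ j, V j) * (Fintype.card X : ℝ) ^ Fintype.card J := by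
  classical
  have hone : ∀ j, ∑ x, Real.exp (-(c * h j x)) ≤
      Fintype.card X * Real.exp (-(c * E j) + c ^ 2 * V j) := by
    intro j
    have h1 : ∀ x, Real.exp (-(c * h j x)) ≤ 1 - c * h j x + c ^ 2 * (h j x) ^ 2 := by
      intro x
      have h2 : |(-(c * h j x))| ≤ 1 := by
        rw [abs_neg, abs_mul, abs_of_nonneg hc]
        calc c * |h j x| ≤ 1 * 1 := mul_le_mul hc1 (hb j x) (abs_nonneg _) zero_le_one
          _ = 1 := one_mul 1
      have h3 := (abs_le.1 (Real.abs_exp_sub_one_sub_id_le h2)).2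
      have h4 : (-(c * h j x)) ^ 2 = c ^ 2 * (h j x) ^ 2 := by ring
      rw [h4] at h3
      linarith
    have h2 : ∑ x, Real.exp (-(c * h j x)) ≤
        Fintype.card X - c * ∑ x, h j x + c ^ 2 * ∑ x, (h j x) ^ 2 := by
      refine le_trans (sum_le_sum fun x _ => h1 x) (le_of_eq ?_)
      rw [sum_add_distrib, sum_sub_distrib, ← mul_sum, ← mul_sum]
      simp
    have h3 := mul_le_mul_of_nonneg_left (hE j) hc
    have h4 := mul_le_mul_of_nonneg_left (hV j) (sq_nonneg c)
    have h5 := mul_le_mul_of_nonneg_left (Real.add_one_le_exp (-(c * E j) + c ^ 2 * V j))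
      (Nat.cast_nonneg (α := ℝ) (Fintype.card X))
    nlinarith
  have hprod : ∑ f : J → X, Real.exp (-(c * ∑ j, h j (f j))) =
      ∏ j, ∑ x, Real.exp (-(c * h j x)) := by
    rw [Finset.prod_univ_sum, Fintype.piFinset_univ]
    refine sum_congr rfl fun f _ => ?_
    rw [← Real.exp_sum, mul_sum, ← sum_neg_distrib]
  have hle : ∑ f : J → X, Real.exp (-(c * ∑ j, h j (f j))) ≤
      (Fintype.card X : ℝ) ^ Fintype.card J *
        Real.exp (-(c * ∑ j, E j) + c ^ 2 * ∑ j, V j) := by
    rw [hprod]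
    refine le_trans (prod_le_prod (fun j _ => sum_nonneg fun x _ => (Real.exp_pos _).le)
      (fun j _ => hone j)) (le_of_eq ?_)
    rw [prod_mul_distrib, ← Real.exp_sum, prod_const, card_univ, sum_add_distrib,
      sum_neg_distrib, ← mul_sum, ← mul_sum]
  have hcard : (Nat.card {f : J → X // ∑ j, h j (f j) ≤ -t} : ℝ) * Real.exp (c * t) ≤
      ∑ f : J → X, Real.exp (-(c * ∑ j, h j (f j))) := by
    rw [Nat.card_eq_fintype_card, Fintype.card_subtype]
    calc ((univ.filter (fun f : J → X => ∑ j, h j (f j) ≤ -t)).card : ℝ) * Real.exp (c * t)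
        = ∑ f ∈ univ.filter (fun f : J → X => ∑ j, h j (f j) ≤ -t), Real.exp (c * t) := by
          rw [sum_const, nsmul_eq_mul]
      _ ≤ ∑ f ∈ univ.filter (fun f : J → X => ∑ j, h j (f j) ≤ -t),
          Real.exp (-(c * ∑ j, h j (f j))) := by
          refine sum_le_sum fun f hf => Real.exp_le_exp.2 ?_
          have h1 := (mem_filter.1 hf).2
          have h2 := mul_le_mul_of_nonneg_left h1 hc
          linarith
      _ ≤ ∑ f : J → X, Real.exp (-(c * ∑ j, h j (f j))) :=
          sum_le_sum_of_subset_of_nonneg (filter_subset _ _)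
            (fun _ _ _ => (Real.exp_pos _).le)
  have h6 := hcard.trans hle
  have h7 := mul_le_mul_of_nonneg_right h6 (Real.exp_pos (-(c * t))).le
  rw [mul_assoc, ← Real.exp_add, add_neg_cancel, Real.exp_zero, mul_one] at h7
  refine h7.trans (le_of_eq ?_)
  rw [mul_assoc, ← Real.exp_add, mul_comm]
  congr 2
  ring

end Nwl
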