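import Pool.Agent.Lib.Nwl.Defs
import Pool.Agent.Lib.Nwl.Tail

/-!
# Probability of the property G1

MP_602ccf, project Nwl (owner helper29). Paper proof: /team-store/602ccf_winlose.md, section 3 (G1).

PROOF. `#{l < Q | inR D v l} = D + v = #{l < Q | inC D Q v l}` for `v ≤ K`, `Q = 2 D + K`, and `#{l < Q | D ≤ l} = Q - D`.
`pg1R`: union over `b < m`, `v ≤ K` of the events `∑ a < m, (1[inR D v (f (a * m + b))] - (D + v) / Q) < - z * m`. For each: `tail` with
`J = Fin T`, `X = Fin Q`, `h t l = if t = a * m + b for some a < m then 1[inR D v l] - (D + v) / Q else 0` (e.g. the condition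
`t < m * m ∧ t % m = b`), `E = 0`, `V t = 1` on these `m` positions and `0` elsewhere, `c = z / 2`, `t = z * m`:
`exp (-(z / 2) * (z * m) + (z / 2) ^ 2 * m) = exp (-(z ^ 2 * m / 4))`. `pg1C`: the same with the positions `a * m + b`, `b < m`, for fixed `a`.
`pg1E`: for each `r < M` the positions `o + (r * m + b)`, `b < m`, and `1[D ≤ l] - (1 - D / Q)`.
-/

set_option autoImplicit false

namespace Nwl

open Finset

namespace PG1Aux

theorem uni {F I : Type*} [Fintype F] [Fintype I] (P : F → Prop) (B : I → F → Prop) (c : ℝ)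
    (h : ∀ f, P f → ∃ i, B i f) (hB : ∀ i, (Nat.card {f // B i f} : ℝ) ≤ c) :
    (Nat.card {f // P f} : ℝ) ≤ Fintype.card I * c := by
  classical
  have h1 : (univ.filter (fun f => P f)) ⊆ univ.biUnion (fun i : I => univ.filter (fun f => B i f)) := by
    intro f hf
    obtain ⟨i, hi⟩ := h f (mem_filter.1 hf).2
    exact mem_biUnion.2 ⟨i, mem_univ _, mem_filter.2 ⟨mem_univ _, hi⟩⟩
  have h2 := (card_le_card h1).trans card_biUnion_le
  rw [Nat.card_eq_fintype_card, Fintype.card_subtype]
  calc ((univ.filter (fun f => P f)).card : ℝ)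
      ≤ ((∑ i : I, (univ.filter (fun f => B i f)).card : ℕ) : ℝ) := by exact_mod_cast h2
    _ = ∑ i : I, ((univ.filter (fun f => B i f)).card : ℝ) := by push_cast; rfl
    _ ≤ ∑ i : I, c := by
        refine sum_le_sum fun i _ => ?_
        have := hB i
        rwa [Nat.card_eq_fintype_card, Fintype.card_subtype] at this
    _ = Fintype.card I * c := by rw [sum_const, card_univ, nsmul_eq_mul]

theorem sel {T Q : ℕ} (A : Finset ℕ) (hA : ∀ t ∈ A, t < T) (g : ℕ → ℕ → ℝ) (w : ℝ)
    (hg : ∀ t ∈ A, ∀ l < Q, |g t l| ≤ 1) (hs : ∀ t ∈ A, 0 ≤ ∑ l ∈ range Q, g t l)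
    (hw : ∀ t ∈ A, ∑ l ∈ range Q, (g t l) ^ 2 ≤ w * Q) {c τ : ℝ} (hc : 0 ≤ c) (hc1 : c ≤ 1) :
    (Nat.card {f : Fin T → Fin Q // ∑ t ∈ A, g t (xt f t) ≤ -τ} : ℝ) ≤
      Real.exp (-(c * τ) + c ^ 2 * (w * A.card)) * (Q : ℝ) ^ T := by
  classical
  have hAr : A ⊆ range T := fun t ht => mem_range.2 (hA t ht)
  have key := tail (J := Fin T) (X := Fin Q) (fun t l => if (t : ℕ) ∈ A then g t l else 0)
    (fun j x => by
      split_ifs with h
      · exact hg _ h _ x.2
      · simp)
    (fun _ => 0) (fun j => if (j : ℕ) ∈ A then w else 0)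
    (fun j => by
      split_ifs with h
      · rw [zero_mul, Fin.sum_univ_eq_sum_range (fun l => g j l) Q]
        exact hs _ h
      · simp)
    (fun j => by
      split_ifs with h
      · rw [Fintype.card_fin, Fin.sum_univ_eq_sum_range (fun l => (g j l) ^ 2) Q]
        exact hw _ h
      · simp) (c := c) (t := τ) hc hc1
  have e1 : ∀ f : Fin T → Fin Q, ∑ j : Fin T, (if (j : ℕ) ∈ A then g j (f j) else 0) =
      ∑ t ∈ A, g t (xt f t) := by
    intro f
    have h1 : ∀ j : Fin T, (if (j : ℕ) ∈ A then g j (f j) else 0) =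
        (fun t : ℕ => if t ∈ A then g t (xt f t) else 0) j := by
      intro j
      have : xt f (j : ℕ) = (f j : ℕ) := by
        unfold xt
        rw [dif_pos j.2]
      simp only [this]
    rw [sum_congr rfl fun j _ => h1 j, Fin.sum_univ_eq_sum_range
      (fun t : ℕ => if t ∈ A then g t (xt f t) else 0) T, sum_ite_mem,
      inter_eq_right.2 hAr]
  have e2 : ∑ j : Fin T, (if (j : ℕ) ∈ A then w else 0) = w * A.card := by
    rw [Fin.sum_univ_eq_sum_range (fun t : ℕ => if t ∈ A then w else 0) T, sum_ite_mem,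
      inter_eq_right.2 hAr, sum_const, nsmul_eq_mul, mul_comm]
  simp only [e1, e2, sum_const_zero, mul_zero, sub_zero, Fintype.card_fin] at key
  exact key

/-- the case of `m` positions and a fixed set of labels -/
theorem one {T Q m d : ℕ} (pos : ℕ → ℕ) (hpos : ∀ a < m, pos a < T)
    (hinj : ∀ a < m, ∀ b < m, pos a = pos b → a = b) (R : ℕ → Prop) [DecidablePred R]
    (hR : ((range Q).filter R).card = d) (hQ : 0 < Q) {z : ℝ} (hz : 0 ≤ z) (hz1 : z ≤ 1) :
    (Nat.card {f : Fin T → Fin Q //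
      (((range m).filter (fun a => R (xt f (pos a)))).card : ℝ) < (m : ℝ) * ((d : ℝ) / Q - z)} : ℝ) ≤
      Real.exp (-(z ^ 2 * m / 4)) * (Q : ℝ) ^ T := by
  classical
  have hQ' : (0 : ℝ) < Q := by exact_mod_cast hQ
  have hd : d ≤ Q := by
    rw [← hR]
    exact (card_filter_le _ _).trans (by simp)
  have hp0 : (0 : ℝ) ≤ (d : ℝ) / Q := by positivity
  have hp1 : (d : ℝ) / Q ≤ 1 := by
    rw [div_le_one hQ']
    exact_mod_cast hd
  have hinj' : Set.InjOn pos (range m : Finset ℕ) := by
    intro a ha b hb h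
    exact hinj a (mem_range.1 (mem_coe.1 ha)) b (mem_range.1 (mem_coe.1 hb)) h
  have hcA : ((range m).image pos).card = m := by
    rw [card_image_of_injOn hinj', card_range]
  have hgb : ∀ l, |(if R l then (1 : ℝ) else 0) - (d : ℝ) / Q| ≤ 1 := by
    intro l
    rw [abs_le]
    split_ifs <;> constructor <;> linarith
  have key := sel (T := T) (Q := Q) ((range m).image pos)
    (by
      intro t ht
      obtain ⟨a, ha, rfl⟩ := mem_image.1 ht
      exact hpos a (mem_range.1 ha))
    (fun _ l => (if R l then (1 : ℝ) else 0) - (d : ℝ) / Q) 1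
    (fun _ _ l _ => hgb l)
    (fun _ _ => by
      rw [sum_sub_distrib, ← sum_filter, sum_const, nsmul_eq_mul, hR, sum_const, card_range,
        nsmul_eq_mul, mul_one, mul_div_cancel₀ _ hQ'.ne', sub_self])
    (fun _ _ => by
      calc ∑ l ∈ range Q, ((if R l then (1 : ℝ) else 0) - (d : ℝ) / Q) ^ 2
          ≤ ∑ l ∈ range Q, (1 : ℝ) := by
            refine sum_le_sum fun l _ => ?_
            have := hgb l
            rw [← sq_abs]
            exact pow_le_one₀ (abs_nonneg _) this
        _ = 1 * Q := by simp)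
    (c := z / 2) (τ := z * m) (by linarith) (by linarith)
  have hsub : ∀ f : Fin T → Fin Q,
      (((range m).filter (fun a => R (xt f (pos a)))).card : ℝ) < (m : ℝ) * ((d : ℝ) / Q - z) →
      ∑ t ∈ (range m).image pos, ((if R (xt f t) then (1 : ℝ) else 0) - (d : ℝ) / Q) ≤ -(z * m) := by
    intro f hf
    rw [sum_image hinj', sum_sub_distrib, ← sum_filter, sum_const, nsmul_eq_mul, sum_const,
      card_range, nsmul_eq_mul, mul_one]
    linarith
  rw [hcA] at key
  refine le_trans ?_ (key.trans (le_of_eq ?_))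
  · rw [Nat.card_eq_fintype_card, Fintype.card_subtype, Nat.card_eq_fintype_card,
      Fintype.card_subtype]
    have : (univ.filter fun f : Fin T → Fin Q =>
        (((range m).filter (fun a => R (xt f (pos a)))).card : ℝ) < (m : ℝ) * ((d : ℝ) / Q - z)) ⊆
        univ.filter fun f : Fin T → Fin Q =>
          ∑ t ∈ (range m).image pos, ((if R (xt f t) then (1 : ℝ) else 0) - (d : ℝ) / Q) ≤
            -(z * m) := by
      intro f hf
      exact mem_filter.2 ⟨mem_univ _, hsub f (mem_filter.1 hf).2⟩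
    exact_mod_cast card_le_card this
  · congr 2
    ring

open Classical in
theorem cR {D K Q v : ℕ} (hQ : Q = 2 * D + K) (hv : v ≤ K) :
    ((range Q).filter (fun l => inR D v l)).card = D + v := by
  have : (range Q).filter (fun l => inR D v l) = range D ∪ Ico (2 * D) (2 * D + v) := by
    ext l
    rw [mem_filter, mem_range, mem_union, mem_range, mem_Ico, inR]
    omega
  rw [this, card_union_of_disjoint, card_range, Nat.card_Ico]
  · omega
  · rw [disjoint_left]
    intro l h1 h2
    rw [mem_range] at h1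
    rw [mem_Ico] at h2
    omega

open Classical in
theorem cC {D K Q v : ℕ} (hQ : Q = 2 * D + K) (hv : v ≤ K) :
    ((range Q).filter (fun l => inC D Q v l)).card = D + v := by
  have : (range Q).filter (fun l => inC D Q v l) = Ico D (2 * D) ∪ Ico (Q - v) Q := by
    ext l
    rw [mem_filter, mem_range, mem_union, mem_Ico, mem_Ico, inC]
    omega
  rw [this, card_union_of_disjoint, Nat.card_Ico, Nat.card_Ico]
  · omega
  · rw [disjoint_left]
    intro l h1 h2
    rw [mem_Ico] at h1 h2
    omega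

theorem cE {D K Q : ℕ} (hQ : Q = 2 * D + K) :
    ((range Q).filter (fun l => D ≤ l)).card = Q - D := by
  have : (range Q).filter (fun l => D ≤ l) = Ico D Q := by
    ext l
    simp only [mem_filter, mem_range, mem_Ico]
    omega
  rw [this, Nat.card_Ico]

end PG1Aux

variable {T m M K D Q o : ℕ} {z : ℝ}

theorem pg1R (hK : 0 < K) (hQ : Q = 2 * D + K) (hz : 0 ≤ z) (hz1 : z ≤ 1) (hT : m * m ≤ T) :
    (Nat.card {f : Fin T → Fin Q // ¬ G1R m K D Q z (fun a b => xt f (a * m + b))} : ℝ) ≤
      ((m : ℝ) * (K + 1)) * Real.exp (-(z ^ 2 * m / 4)) * (Q : ℝ) ^ T := by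
  classical
  have h := PG1Aux.uni (F := Fin T → Fin Q) (I := Fin m × Fin (K + 1))
    (fun f => ¬ G1R m K D Q z (fun a b => xt f (a * m + b)))
    (fun i f => (((range m).filter (fun a => inR D i.2 (xt f (a * m + i.1)))).card : ℝ) <
      (m : ℝ) * (((D + i.2 : ℕ) : ℝ) / Q - z))
    (Real.exp (-(z ^ 2 * m / 4)) * (Q : ℝ) ^ T)
    (by
      intro f hf
      unfold G1R at hf
      push Not at hf
      obtain ⟨b, hb, v, hv, h⟩ := hf
      refine ⟨(⟨b, hb⟩, ⟨v, by omega⟩), ?_⟩
      push_cast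
      exact h)
    (by
      rintro ⟨⟨b, hb⟩, ⟨v, hv⟩⟩
      refine PG1Aux.one (fun a => a * m + b) ?_ ?_ (fun l => inR D v l)
        (PG1Aux.cR hQ (by omega)) (by omega) hz hz1
      · intro a ha
        have : (a + 1) * m ≤ m * m := Nat.mul_le_mul_right _ ha
        have : (a + 1) * m = a * m + m := by ring
        omega
      · intro a ha a' ha' h
        exact Nat.eq_of_mul_eq_mul_right (by omega) (by omega : a * m = a' * m))
  rw [Fintype.card_prod, Fintype.card_fin, Fintype.card_fin] at h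
  refine h.trans (le_of_eq ?_)
  push_cast
  ring

theorem pg1C (hK : 0 < K) (hQ : Q = 2 * D + K) (hz : 0 ≤ z) (hz1 : z ≤ 1) (hT : m * m ≤ T) :
    (Nat.card {f : Fin T → Fin Q // ¬ G1C m K D Q z (fun a b => xt f (a * m + b))} : ℝ) ≤
      ((m : ℝ) * (K + 1)) * Real.exp (-(z ^ 2 * m / 4)) * (Q : ℝ) ^ T := by
  classical
  have h := PG1Aux.uni (F := Fin T → Fin Q) (I := Fin m × Fin (K + 1))
    (fun f => ¬ G1C m K D Q z (fun a b => xt f (a * m + b)))
    (fun i f => (((range m).filter (fun b => inC D Q i.2 (xt f (i.1 * m + b)))).card : ℝ) <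
      (m : ℝ) * (((D + i.2 : ℕ) : ℝ) / Q - z))
    (Real.exp (-(z ^ 2 * m / 4)) * (Q : ℝ) ^ T)
    (by
      intro f hf
      unfold G1C at hf
      push Not at hf
      obtain ⟨b, hb, v, hv, h⟩ := hf
      refine ⟨(⟨b, hb⟩, ⟨v, by omega⟩), ?_⟩
      push_cast
      exact h)
    (by
      rintro ⟨⟨b, hb⟩, ⟨v, hv⟩⟩
      refine PG1Aux.one (fun a => b * m + a) ?_ ?_ (fun l => inC D Q v l)
        (PG1Aux.cC hQ (by omega)) (by omega) hz hz1
      · intro a ha
        have : (b + 1) * m ≤ m * m := Nat.mul_le_mul_right _ hb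
        have : (b + 1) * m = b * m + m := by ring
        omega
      · intro a ha a' ha' h
        omega)
  rw [Fintype.card_prod, Fintype.card_fin, Fintype.card_fin] at h
  refine h.trans (le_of_eq ?_)
  push_cast
  ring

theorem pg1E (hK : 0 < K) (hQ : Q = 2 * D + K) (hz : 0 ≤ z) (hz1 : z ≤ 1) (hT : o + M * m ≤ T) :
    (Nat.card {f : Fin T → Fin Q // ¬ G1E m M D Q z (fun r b => xt f (o + (r * m + b)))} : ℝ) ≤
      (M : ℝ) * Real.exp (-(z ^ 2 * m / 4)) * (Q : ℝ) ^ T := by
  classical
  have hQ0 : (0 : ℝ) < Q := by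
    have : 0 < Q := by omega
    exact_mod_cast this
  have e1 : (((Q - D : ℕ) : ℝ) / Q) = 1 - (D : ℝ) / Q := by
    rw [Nat.cast_sub (by omega), sub_div, div_self hQ0.ne']
  have h := PG1Aux.uni (F := Fin T → Fin Q) (I := Fin M)
    (fun f => ¬ G1E m M D Q z (fun r b => xt f (o + (r * m + b))))
    (fun i f => (((range m).filter (fun b => D ≤ xt f (o + (i * m + b)))).card : ℝ) <
      (m : ℝ) * (((Q - D : ℕ) : ℝ) / Q - z))
    (Real.exp (-(z ^ 2 * m / 4)) * (Q : ℝ) ^ T)
    (by
      intro f hf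
      unfold G1E at hf
      push Not at hf
      obtain ⟨b, hb, h⟩ := hf
      refine ⟨⟨b, hb⟩, ?_⟩
      rw [e1]
      exact h)
    (by
      rintro ⟨b, hb⟩
      refine PG1Aux.one (fun a => o + (b * m + a)) ?_ ?_ (fun l => D ≤ l)
        (PG1Aux.cE hQ) (by omega) hz hz1
      · intro a ha
        have : (b + 1) * m ≤ M * m := Nat.mul_le_mul_right _ hb
        have : (b + 1) * m = b * m + m := by ring
        omega
      · intro a ha a' ha' h
        omega)
  rw [Fintype.card_fin] at h
  refine h.trans (le_of_eq ?_)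
  ring

end Nwl
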