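import Pool.Agent.Lib.Nwl.Marg
import Pool.Agent.Lib.Nwl.Tail

/-!
# Probability of the property G2

MP_602ccf, project Nwl (owner helper29). Paper proof: /team-store/602ccf_winlose.md, section 3 (G2).

PROOF. `marg` (`r = M`, `c = m`): it suffices to count tables `E : Fin M → (Fin m → Fin Q)`. Union over `T ⊆ range m`, `T.card ≤ s`, `b < m`,
`b ∉ T` (at most `2 ^ m * m` pairs). For a pair: the property fails iff `∑ r, g (E r) ≤ 0` with
`g x = 1[x t < D for all t ∈ T] * (1[x b < D] - D / Q + z)`, `|g| ≤ 1` (`z ≤ 1 / 4 ≤ D / Q ≤ 1 / 2`). `tail` with `J = Fin M`,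
`X = Fin m → Fin Q`: `∑ x, g x = (D / Q) ^ T.card * z * Q ^ m` and `∑ x, g x ^ 2 ≤ (D / Q) ^ T.card * Q ^ m` (the number of `x` with
`x t < D` on `T` is `D ^ T.card * Q ^ (m - T.card)`, on `T ∪ {b}` it is `D ^ (T.card + 1) * Q ^ (m - T.card - 1)`:
`Fintype.card_pi`/`Fintype.piFinset`, `Finset.prod_ite`), `c = z / 2`, `t = 0`: the exponent is
`- (z / 2) * M * q * z + (z / 2) ^ 2 * M * q = -(M * q * z ^ 2 / 4)` with `q = (D / Q) ^ T.card ≥ (1 / 4) ^ s`.
-/

set_option autoImplicit false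

namespace Nwl

open Finset

namespace PG2Aux

/-- number of vectors with small entries on a set of positions -/
theorem box {m D Q : ℕ} (hQ : 0 < Q) (hDQ : D ≤ Q) (S : Finset (Fin m)) :
    ((univ.filter (fun x : Fin m → Fin Q => ∀ i ∈ S, (x i : ℕ) < D)).card : ℝ) =
      ((D : ℝ) / Q) ^ S.card * (Q : ℝ) ^ m := by
  classical
  have h1 : univ.filter (fun x : Fin m → Fin Q => ∀ i ∈ S, (x i : ℕ) < D) =
      Fintype.piFinset (fun i : Fin m =>
        if i ∈ S then univ.filter (fun y : Fin Q => (y : ℕ) < D) else univ) := by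
    ext x
    simp only [mem_filter, mem_univ, true_and, Fintype.mem_piFinset]
    refine forall_congr' fun i => ?_
    by_cases hi : i ∈ S <;> simp [hi]
  have h2 : (univ.filter (fun y : Fin Q => (y : ℕ) < D)).card = D := by
    have h3 : (univ.filter (fun y : Fin Q => (y : ℕ) < D)).map Fin.valEmbedding = range D := by
      ext a
      simp only [mem_map, mem_filter, mem_univ, true_and, Fin.valEmbedding_apply, mem_range]
      constructor
      · rintro ⟨y, hy, rfl⟩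
        exact hy
      · intro ha
        exact ⟨⟨a, lt_of_lt_of_le ha hDQ⟩, ha, rfl⟩
    rw [← card_map Fin.valEmbedding, h3, card_range]
  have hQ' : (Q : ℝ) ≠ 0 := by
    have : (0 : ℝ) < Q := by exact_mod_cast hQ
    exact this.ne'
  rw [h1, Fintype.card_piFinset, Nat.cast_prod]
  have h4 : ∀ i : Fin m, (((if i ∈ S then univ.filter (fun y : Fin Q => (y : ℕ) < D)
      else univ : Finset (Fin Q)).card : ℕ) : ℝ) = (if i ∈ S then (D : ℝ) / Q else 1) * Q := by
    intro i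
    by_cases hi : i ∈ S
    · rw [if_pos hi, if_pos hi, h2, div_mul_cancel₀ _ hQ']
    · rw [if_neg hi, if_neg hi, one_mul, card_univ, Fintype.card_fin]
  rw [prod_congr rfl fun i _ => h4 i, prod_mul_distrib, prod_const, card_univ, Fintype.card_fin]
  congr 1
  rw [prod_ite, prod_const, prod_const_one, mul_one]
  congr 2
  ext i
  simp

/-- summand of the property G2 for a set of positions and a further position -/
noncomputable def gg {m Q : ℕ} (D : ℕ) (z : ℝ) (S : Finset (Fin m)) (b : Fin m) (x : Fin m → Fin Q) : ℝ :=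
  if ∀ i ∈ S, (x i : ℕ) < D then (if (x b : ℕ) < D then 1 else 0) - ((D : ℝ) / Q - z) else 0

theorem gg_abs {m Q D : ℕ} {z : ℝ} (hz : 0 < z) (h1 : z ≤ (D : ℝ) / Q) (h2 : (D : ℝ) / Q ≤ 1)
    (S : Finset (Fin m)) (b : Fin m) (x : Fin m → Fin Q) : |gg D z S b x| ≤ 1 := by
  unfold gg
  split_ifs <;> rw [abs_le] <;> constructor <;> linarith

theorem gg_sum {m Q D : ℕ} {z : ℝ} (hQ : 0 < Q) (hDQ : D ≤ Q) (S : Finset (Fin m)) (b : Fin m)
    (hb : b ∉ S) : ∑ x : Fin m → Fin Q, gg D z S b x = ((D : ℝ) / Q) ^ S.card * z * (Q : ℝ) ^ m := by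
  classical
  have h1 := box hQ hDQ S
  have h2 := box hQ hDQ (insert b S)
  rw [card_insert_of_notMem hb, pow_succ] at h2
  have h3 : ∀ x : Fin m → Fin Q, gg D z S b x =
      (if ∀ i ∈ insert b S, (x i : ℕ) < D then (1 : ℝ) else 0) -
        ((D : ℝ) / Q - z) * (if ∀ i ∈ S, (x i : ℕ) < D then (1 : ℝ) else 0) := by
    intro x
    have h4 : (∀ i ∈ insert b S, (x i : ℕ) < D) ↔ ((x b : ℕ) < D ∧ ∀ i ∈ S, (x i : ℕ) < D) := by
      simp
    unfold gg
    by_cases h5 : ∀ i ∈ S, (x i : ℕ) < D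
    · by_cases h6 : (x b : ℕ) < D
      · rw [if_pos h5, if_pos h6, if_pos (h4.2 ⟨h6, h5⟩), if_pos h5]
        ring
      · rw [if_pos h5, if_neg h6, if_neg (fun h => h6 (h4.1 h).1), if_pos h5]
        ring
    · rw [if_neg h5, if_neg (fun h => h5 (h4.1 h).2), if_neg h5]
      ring
  rw [sum_congr rfl fun x _ => h3 x, sum_sub_distrib, ← mul_sum, sum_boole, sum_boole, h1, h2]
  ring

theorem gg_sq {m Q D : ℕ} {z : ℝ} (hQ : 0 < Q) (hDQ : D ≤ Q) (hz : 0 < z) (h1 : z ≤ (D : ℝ) / Q)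
    (h2 : (D : ℝ) / Q ≤ 1) (S : Finset (Fin m)) (b : Fin m) :
    ∑ x : Fin m → Fin Q, (gg D z S b x) ^ 2 ≤ ((D : ℝ) / Q) ^ S.card * (Q : ℝ) ^ m := by
  classical
  rw [← box hQ hDQ S, ← sum_boole]
  refine sum_le_sum fun x _ => ?_
  by_cases h5 : ∀ i ∈ S, (x i : ℕ) < D
  · rw [if_pos h5]
    have h6 := gg_abs hz h1 h2 S b x
    rw [← sq_abs]
    exact pow_le_one₀ (abs_nonneg _) h6
  · unfold gg
    rw [if_neg h5, if_neg h5]
    norm_num

theorem pair {m M s D Q : ℕ} {z : ℝ} (hQ : 0 < Q) (hDQ : D ≤ Q) (hz : 0 < z) (hz1 : z ≤ 1 / 4)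
    (h4 : 1 / 4 ≤ (D : ℝ) / Q) (S : Finset (Fin m)) (b : Fin m) (hb : b ∉ S) (hS : S.card ≤ s) :
    (Nat.card {E : Fin M → Fin m → Fin Q // ∑ r, gg D z S b (E r) ≤ 0} : ℝ) ≤
      Real.exp (-(M * (1 / 4) ^ s * z ^ 2 / 4)) * (Q : ℝ) ^ (M * m) := by
  have hQ' : (0 : ℝ) < Q := by exact_mod_cast hQ
  have h2 : (D : ℝ) / Q ≤ 1 := by
    rw [div_le_one hQ']
    exact_mod_cast hDQ
  have h1 : z ≤ (D : ℝ) / Q := hz1.trans h4
  have hcard : (Fintype.card (Fin m → Fin Q) : ℝ) = (Q : ℝ) ^ m := by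
    simp
  have h := tail (J := Fin M) (X := Fin m → Fin Q) (fun _ x => gg D z S b x)
    (fun _ x => gg_abs hz h1 h2 S b x) (fun _ => ((D : ℝ) / Q) ^ S.card * z)
    (fun _ => ((D : ℝ) / Q) ^ S.card)
    (fun _ => by rw [hcard, gg_sum hQ hDQ S b hb])
    (fun _ => by rw [hcard]; exact gg_sq hQ hDQ hz h1 h2 S b) (c := z / 2) (t := 0)
    (by linarith) (by linarith)
  rw [neg_zero] at h
  refine h.trans ?_
  rw [hcard, Fintype.card_fin, ← pow_mul, mul_comm m M]
  refine mul_le_mul_of_nonneg_right (Real.exp_le_exp.2 ?_) (by positivity)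
  simp only [sum_const, card_univ, Fintype.card_fin, nsmul_eq_mul]
  have hq : (1 / 4 : ℝ) ^ s ≤ ((D : ℝ) / Q) ^ S.card :=
    (pow_le_pow_of_le_one (by norm_num) (by norm_num) hS).trans (pow_le_pow_left₀ (by norm_num) h4 _)
  have h7 : (M : ℝ) * (1 / 4) ^ s * z ^ 2 ≤ M * ((D : ℝ) / Q) ^ S.card * z ^ 2 := by
    gcongr
  nlinarith

theorem fails {m M s D Q : ℕ} {z : ℝ} (E : Fin M → Fin m → Fin Q) (h : ¬ G2 m M s D Q z (x2 E)) :
    ∃ (S : Finset (Fin m)) (b : Fin m), S.card ≤ s ∧ b ∉ S ∧ ∑ r, gg D z S b (E r) ≤ 0 := by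
  classical
  unfold G2 at h
  push Not at h
  obtain ⟨T, hT, hs, b, hb, hbT, hle⟩ := h
  have hmap : (univ.filter (fun i : Fin m => (i : ℕ) ∈ T)).map Fin.valEmbedding = T := by
    ext a
    simp only [mem_map, mem_filter, mem_univ, true_and, Fin.valEmbedding_apply]
    constructor
    · rintro ⟨y, hy, rfl⟩
      exact hy
    · intro ha
      exact ⟨⟨a, mem_range.1 (hT ha)⟩, ha, rfl⟩
  refine ⟨univ.filter (fun i : Fin m => (i : ℕ) ∈ T), ⟨b, hb⟩, ?_, ?_, ?_⟩
  · rw [← card_map Fin.valEmbedding, hmap]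
    exact hs
  · simpa using hbT
  · have hx : ∀ (r : Fin M) (i : Fin m), x2 E r i = (E r i : ℕ) := by
      intro r i
      simp [x2]
    have hiff : ∀ r : Fin M, (∀ t ∈ T, x2 E r t < D) ↔
        (∀ i ∈ univ.filter (fun i : Fin m => (i : ℕ) ∈ T), (E r i : ℕ) < D) := by
      intro r
      constructor
      · intro h i hi
        rw [← hx]
        exact h _ (mem_filter.1 hi).2
      · intro h t ht
        have h1 := h ⟨t, mem_range.1 (hT ht)⟩ (mem_filter.2 ⟨mem_univ _, ht⟩)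
        rw [← hx] at h1
        exact h1
    have hb' : ∀ r : Fin M, x2 E r b = (E r ⟨b, hb⟩ : ℕ) := fun r => hx r ⟨b, hb⟩
    have e1 : ((RT M D (x2 E) T).card : ℝ) = ∑ r : Fin M,
        (if ∀ i ∈ univ.filter (fun i : Fin m => (i : ℕ) ∈ T), (E r i : ℕ) < D then (1 : ℝ) else 0) := by
      unfold RT
      rw [← sum_boole, sum_range]
      refine sum_congr rfl fun r _ => ?_
      exact if_congr (hiff r) rfl rfl
    have e2 : (((RT M D (x2 E) T).filter (fun r => x2 E r b < D)).card : ℝ) = ∑ r : Fin M,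
        (if (∀ i ∈ univ.filter (fun i : Fin m => (i : ℕ) ∈ T), (E r i : ℕ) < D) ∧
          (E r ⟨b, hb⟩ : ℕ) < D then (1 : ℝ) else 0) := by
      unfold RT
      rw [filter_filter, ← sum_boole, sum_range]
      refine sum_congr rfl fun r _ => ?_
      refine if_congr ?_ rfl rfl
      rw [hiff r, hb' r]
    have e3 : ∑ r, gg D z (univ.filter (fun i : Fin m => (i : ℕ) ∈ T)) ⟨b, hb⟩ (E r) =
        (((RT M D (x2 E) T).filter (fun r => x2 E r b < D)).card : ℝ) -
          ((D : ℝ) / Q - z) * ((RT M D (x2 E) T).card : ℝ) := by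
      rw [e1, e2, mul_sum, ← sum_sub_distrib]
      refine sum_congr rfl fun r _ => ?_
      unfold gg
      by_cases h5 : ∀ i ∈ univ.filter (fun i : Fin m => (i : ℕ) ∈ T), (E r i : ℕ) < D
      · by_cases h6 : (E r ⟨b, hb⟩ : ℕ) < D
        · rw [if_pos h5, if_pos h6, if_pos ⟨h5, h6⟩, if_pos h5]
          ring
        · rw [if_pos h5, if_neg h6, if_neg (fun h => h6 h.2), if_pos h5]
          ring
      · rw [if_neg h5, if_neg (fun h => h5 h.1), if_neg h5]
        ring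
    rw [e3]
    linarith

end PG2Aux

theorem pg2 {T m M s K D Q o : ℕ} {z : ℝ} (hK : 0 < K) (hQ : Q = 2 * D + K) (hz : 0 < z)
    (hz1 : z ≤ 1 / 4) (hD : Q ≤ 4 * D) (hT : o + M * m ≤ T) :
    (Nat.card {f : Fin T → Fin Q // ¬ G2 m M s D Q z (fun r b => xt f (o + (r * m + b)))} : ℝ) ≤
      ((2 : ℝ) ^ m * m) * Real.exp (-(M * (1 / 4) ^ s * z ^ 2 / 4)) * (Q : ℝ) ^ T := by
  classical
  have hQ0 : 0 < Q := by omega
  have hDQ : D ≤ Q := by omega
  have hQ' : (0 : ℝ) < Q := by exact_mod_cast hQ0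
  have h4 : 1 / 4 ≤ (D : ℝ) / Q := by
    rw [le_div_iff₀ hQ']
    have : (Q : ℝ) ≤ 4 * D := by exact_mod_cast hD
    linarith
  have hP : ∀ E E' : ℕ → ℕ → ℕ, (∀ i < M, ∀ j < m, E i j = E' i j) →
      (¬ G2 m M s D Q z E ↔ ¬ G2 m M s D Q z E') := by
    have key : ∀ E E' : ℕ → ℕ → ℕ, (∀ i < M, ∀ j < m, E i j = E' i j) →
        G2 m M s D Q z E → G2 m M s D Q z E' := by
      intro E E' h hG S hS hs b hb hbS
      have h1 := hG S hS hs b hb hbS
      have e1 : RT M D E S = RT M D E' S := by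
        unfold RT
        refine filter_congr fun r hr => ?_
        refine forall₂_congr fun t ht => ?_
        rw [h r (mem_range.1 hr) t (mem_range.1 (hS ht))]
      have e2 : (RT M D E S).filter (fun r => E r b < D) = (RT M D E' S).filter (fun r => E' r b < D) := by
        rw [e1]
        refine filter_congr fun r hr => ?_
        rw [h r (mem_range.1 (mem_filter.1 hr).1) b hb]
      rw [e2, e1] at h1
      exact h1
    intro E E' h
    exact not_congr ⟨key E E' h, key E' E fun i hi j hj => (h i hi j hj).symm⟩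
  have hmarg := marg (Q := Q) (o := o) (r := M) (c := m) hT (fun E => ¬ G2 m M s D Q z E) hP
  have hunion : (Nat.card {E : Fin M → Fin m → Fin Q // ¬ G2 m M s D Q z (x2 E)} : ℝ) ≤
      ((2 : ℝ) ^ m * m) * (Real.exp (-(M * (1 / 4) ^ s * z ^ 2 / 4)) * (Q : ℝ) ^ (M * m)) := by
    have hsub : (univ.filter fun E : Fin M → Fin m → Fin Q => ¬ G2 m M s D Q z (x2 E)) ⊆
        ((univ : Finset (Finset (Fin m) × Fin m)).filter (fun p => p.1.card ≤ s ∧ p.2 ∉ p.1)).biUnion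
          (fun p => univ.filter fun E : Fin M → Fin m → Fin Q => ∑ r, PG2Aux.gg D z p.1 p.2 (E r) ≤ 0) := by
      intro E hE
      obtain ⟨S, b, h1, h2, h3⟩ := PG2Aux.fails E (mem_filter.1 hE).2
      exact mem_biUnion.2 ⟨(S, b), mem_filter.2 ⟨mem_univ _, h1, h2⟩, mem_filter.2 ⟨mem_univ _, h3⟩⟩
    rw [Nat.card_eq_fintype_card, Fintype.card_subtype]
    have h1 : ((univ.filter fun E : Fin M → Fin m → Fin Q => ¬ G2 m M s D Q z (x2 E)).card : ℝ) ≤
        ∑ p ∈ (univ : Finset (Finset (Fin m) × Fin m)).filter (fun p => p.1.card ≤ s ∧ p.2 ∉ p.1),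
          ((univ.filter fun E : Fin M → Fin m → Fin Q => ∑ r, PG2Aux.gg D z p.1 p.2 (E r) ≤ 0).card : ℝ) := by
      exact_mod_cast (card_le_card hsub).trans card_biUnion_le
    refine h1.trans ?_
    have h2 : ∀ p ∈ (univ : Finset (Finset (Fin m) × Fin m)).filter (fun p => p.1.card ≤ s ∧ p.2 ∉ p.1),
        ((univ.filter fun E : Fin M → Fin m → Fin Q => ∑ r, PG2Aux.gg D z p.1 p.2 (E r) ≤ 0).card : ℝ) ≤
          Real.exp (-(M * (1 / 4) ^ s * z ^ 2 / 4)) * (Q : ℝ) ^ (M * m) := by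
      intro p hp
      have h3 := (mem_filter.1 hp).2
      have h5 := PG2Aux.pair (M := M) hQ0 hDQ hz hz1 h4 p.1 p.2 h3.2 h3.1
      rw [Nat.card_eq_fintype_card, Fintype.card_subtype] at h5
      exact h5
    refine (sum_le_card_nsmul _ _ _ h2).trans ?_
    rw [nsmul_eq_mul]
    refine mul_le_mul_of_nonneg_right ?_ (by positivity)
    have h6 : ((univ : Finset (Finset (Fin m) × Fin m)).filter (fun p => p.1.card ≤ s ∧ p.2 ∉ p.1)).card ≤
        2 ^ m * m := by
      refine (card_le_univ _).trans (le_of_eq ?_)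
      simp
    exact_mod_cast h6
  have hpos : (0 : ℝ) < (Q : ℝ) ^ (M * m) := by positivity
  have hm : (Nat.card {f : Fin T → Fin Q // ¬ G2 m M s D Q z (fun r b => xt f (o + (r * m + b)))} : ℝ) *
      (Q : ℝ) ^ (M * m) =
      (Nat.card {E : Fin M → Fin m → Fin Q // ¬ G2 m M s D Q z (x2 E)} : ℝ) * (Q : ℝ) ^ T := by
    exact_mod_cast hmarg
  have h8 := mul_le_mul_of_nonneg_right hunion (show (0 : ℝ) ≤ (Q : ℝ) ^ T by positivity)
  rw [← hm] at h8
  refine le_of_mul_le_mul_right (h8.trans (le_of_eq ?_)) hpos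
  ring

end Nwl
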