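import Pool.Agent.Lib.Nwl.Defs
import Pool.Agent.Lib.Nwl.Tail

/-!
# Probability of the property G3

MP_602ccf, project Nwl (owner helper29). Paper proof: /team-store/602ccf_winlose.md, section 3 (G3).

PROOF. Only the values of `f`, `g` at `a, b < m` matter: union over `S, S' ⊆ range m` and `f, g : Fin m → Fin n` (at most
`4 ^ m * n ^ (2 * m)` cases; if `n = 0` the property is void). For each case `tail` with `J = Fin T`, `X = Fin Q`:
`h t l = 1[inZ D Q va vb l] - (K - va - vb) / Q` with `va = al (f a) (g b)`, `vb = be (f a) (g b)` if `t = a * m + b` with `a ∈ S`, `b ∈ S'`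
(`a = t / m`, `b = t % m`, `t < m * m`), else `0`. `#{l < Q | inZ D Q va vb l} = K - va - vb`, so the mean is `0` and the mean of the square is
`≤ (K - va - vb) / Q ≤ K / Q / 2` (`va + vb ≥ K / 2`). `c = δ / 2`, `t = δ / 2 * (K / Q) * s ^ 2`, `∑ V ≤ s ^ 2 * (K / Q / 2)`:
exponent `-(δ ^ 2 / 4) * (K / Q) * s ^ 2 + (δ ^ 2 / 4) * (K / Q) / 2 * s ^ 2 = -(δ ^ 2 * (K / Q) * s ^ 2 / 8)`.
-/

set_option autoImplicit false

namespace Nwl

open Finset

namespace PG3Aux

theorem uni {F I : Type*} [Fintype F] [Fintype I] (P : F → Prop) (B : I → F → Prop) (c : ℝ)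
    (h : ∀ f, P f → ∃ i, B i f) (hB : ∀ i, (Nat.card {f // B i f} : ℝ) ≤ c) :
    (Nat.card {f // P f} : ℝ) ≤ Fintype.card I * c := by
  classical
  have h1 : (univ.filter (fun f => P f)) ⊆ univ.biUnion (fun i : I => univ.filter (fun f => B i f)) := by
    intro f hf
    obtain ⟨i, hi⟩ := h f (mem_filter.1 hf).2
    exact mem_biUnion.2 ⟨i, mem_univ _, mem_filter.2 ⟨mem_univ _, hi⟩⟩
  have h2 := (card_le_card h1).trans card_biUnion_le
  rw [Nat.card_eq_fintype_card, Fintype.card_subtype]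
  calc ((univ.filter (fun f => P f)).card : ℝ)
      ≤ ((∑ i : I, (univ.filter (fun f => B i f)).card : ℕ) : ℝ) := by exact_mod_cast h2
    _ = ∑ i : I, ((univ.filter (fun f => B i f)).card : ℝ) := by push_cast; rfl
    _ ≤ ∑ i : I, c := by
        refine sum_le_sum fun i _ => ?_
        have := hB i
        rwa [Nat.card_eq_fintype_card, Fintype.card_subtype] at this
    _ = Fintype.card I * c := by rw [sum_const, card_univ, nsmul_eq_mul]

theorem sel {T Q : ℕ} (A : Finset ℕ) (hA : ∀ t ∈ A, t < T) (g : ℕ → ℕ → ℝ) (w : ℝ)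
    (hg : ∀ t ∈ A, ∀ l < Q, |g t l| ≤ 1) (hs : ∀ t ∈ A, 0 ≤ ∑ l ∈ range Q, g t l)
    (hw : ∀ t ∈ A, ∑ l ∈ range Q, (g t l) ^ 2 ≤ w * Q) {c τ : ℝ} (hc : 0 ≤ c) (hc1 : c ≤ 1) :
    (Nat.card {f : Fin T → Fin Q // ∑ t ∈ A, g t (xt f t) ≤ -τ} : ℝ) ≤
      Real.exp (-(c * τ) + c ^ 2 * (w * A.card)) * (Q : ℝ) ^ T := by
  classical
  have hAr : A ⊆ range T := fun t ht => mem_range.2 (hA t ht)
  have key := tail (J := Fin T) (X := Fin Q) (fun t l => if (t : ℕ) ∈ A then g t l else 0)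
    (fun j x => by
      split_ifs with h
      · exact hg _ h _ x.2
      · simp)
    (fun _ => 0) (fun j => if (j : ℕ) ∈ A then w else 0)
    (fun j => by
      split_ifs with h
      · rw [zero_mul, Fin.sum_univ_eq_sum_range (fun l => g j l) Q]
        exact hs _ h
      · simp)
    (fun j => by
      split_ifs with h
      · rw [Fintype.card_fin, Fin.sum_univ_eq_sum_range (fun l => (g j l) ^ 2) Q]
        exact hw _ h
      · simp) (c := c) (t := τ) hc hc1
  have e1 : ∀ f : Fin T → Fin Q, ∑ j : Fin T, (if (j : ℕ) ∈ A then g j (f j) else 0) =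
      ∑ t ∈ A, g t (xt f t) := by
    intro f
    have h1 : ∀ j : Fin T, (if (j : ℕ) ∈ A then g j (f j) else 0) =
        (fun t : ℕ => if t ∈ A then g t (xt f t) else 0) j := by
      intro j
      have : xt f (j : ℕ) = (f j : ℕ) := by
        unfold xt
        rw [dif_pos j.2]
      simp only [this]
    rw [sum_congr rfl fun j _ => h1 j, Fin.sum_univ_eq_sum_range
      (fun t : ℕ => if t ∈ A then g t (xt f t) else 0) T, sum_ite_mem,
      inter_eq_right.2 hAr]
  have e2 : ∑ j : Fin T, (if (j : ℕ) ∈ A then w else 0) = w * A.card := by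
    rw [Fin.sum_univ_eq_sum_range (fun t : ℕ => if t ∈ A then w else 0) T, sum_ite_mem,
      inter_eq_right.2 hAr, sum_const, nsmul_eq_mul, mul_comm]
  simp only [e1, e2, sum_const_zero, mul_zero, sub_zero, Fintype.card_fin] at key
  exact key

open Classical in
theorem cZ {D K Q va vb : ℕ} (hQ : Q = 2 * D + K) (hv : va + vb ≤ K) :
    ((range Q).filter (fun l => inZ D Q va vb l)).card = K - va - vb := by
  have : (range Q).filter (fun l => inZ D Q va vb l) = Ico (2 * D + va) (Q - vb) := by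
    ext l
    rw [mem_filter, mem_range, mem_Ico, inZ]
    omega
  rw [this, Nat.card_Ico]
  omega

open Classical in
/-- the summand of `G3` -/
noncomputable def gz (D Q K va vb l : ℕ) : ℝ :=
  (if inZ D Q va vb l then (1 : ℝ) else 0) - ((K : ℝ) - va - vb) / Q

theorem gz_abs {D Q K va vb : ℕ} (hK : 0 < K) (hQ : Q = 2 * D + K) (hv : va + vb ≤ K) (l : ℕ) :
    |gz D Q K va vb l| ≤ 1 := by
  have hQ0 : (0 : ℝ) < Q := by
    have : 0 < Q := by omega
    exact_mod_cast this
  have h1 : (va : ℝ) + vb ≤ K := by exact_mod_cast hv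
  have h2 : (K : ℝ) ≤ Q := by
    have : K ≤ Q := by omega
    exact_mod_cast this
  have h3 : (0 : ℝ) ≤ va := Nat.cast_nonneg _
  have h4 : (0 : ℝ) ≤ vb := Nat.cast_nonneg _
  have h5 : ((K : ℝ) - va - vb) / Q ≤ 1 := by
    rw [div_le_one hQ0]
    linarith
  have h6 : (0 : ℝ) ≤ ((K : ℝ) - va - vb) / Q := div_nonneg (by linarith) hQ0.le
  unfold gz
  rw [abs_le]
  split_ifs <;> constructor <;> linarith

theorem gz_sum {D Q K va vb : ℕ} (hK : 0 < K) (hQ : Q = 2 * D + K) (hv : va + vb ≤ K) :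
    ∑ l ∈ range Q, gz D Q K va vb l = 0 := by
  classical
  have hQ0 : (0 : ℝ) < Q := by
    have : 0 < Q := by omega
    exact_mod_cast this
  have hc := cZ (D := D) hQ hv
  unfold gz
  rw [sum_sub_distrib, ← sum_filter, sum_const, nsmul_eq_mul, sum_const, card_range, nsmul_eq_mul,
    mul_one, mul_div_cancel₀ _ hQ0.ne']
  rw [show (((range Q).filter (fun l => inZ D Q va vb l)).card : ℝ) = ((K - va - vb : ℕ) : ℝ) by
    rw [← hc]]
  rw [Nat.sub_sub, Nat.cast_sub hv]
  push_cast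
  ring

theorem gz_sq {D Q K va vb : ℕ} (hK : 0 < K) (hQ : Q = 2 * D + K) (hv : va + vb ≤ K)
    (hv2 : K ≤ 2 * (va + vb)) :
    ∑ l ∈ range Q, (gz D Q K va vb l) ^ 2 ≤ ((K : ℝ) / Q / 2) * Q := by
  classical
  have hQ0 : (0 : ℝ) < Q := by
    have : 0 < Q := by omega
    exact_mod_cast this
  have hs := gz_sum (D := D) hK hQ hv
  have h1 : (va : ℝ) + vb ≤ K := by exact_mod_cast hv
  have h2 : (K : ℝ) ≤ 2 * (va + vb) := by exact_mod_cast hv2
  set p : ℝ := ((K : ℝ) - va - vb) / Q with hp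
  have h6 : (0 : ℝ) ≤ p := div_nonneg (by linarith) hQ0.le
  have hpQ : p * Q = (K : ℝ) - va - vb := by rw [hp, div_mul_cancel₀ _ hQ0.ne']
  have e1 : ∀ l, (gz D Q K va vb l) ^ 2 ≤ (1 - 2 * p) * gz D Q K va vb l + p := by
    intro l
    have e2 : gz D Q K va vb l = (if inZ D Q va vb l then (1 : ℝ) else 0) - p := rfl
    rw [e2]
    split_ifs
    · nlinarith
    · nlinarith
  calc ∑ l ∈ range Q, (gz D Q K va vb l) ^ 2
      ≤ ∑ l ∈ range Q, ((1 - 2 * p) * gz D Q K va vb l + p) := sum_le_sum fun l _ => e1 l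
    _ = p * Q := by
        rw [sum_add_distrib, ← mul_sum, hs, mul_zero, zero_add, sum_const, card_range,
          nsmul_eq_mul, mul_comm]
    _ ≤ ((K : ℝ) / Q / 2) * Q := by
        rw [hpQ]
        have : ((K : ℝ) / Q / 2) * Q = K / 2 := by field_simp
        rw [this]
        linarith

/-- value of an extended function -/
theorem xt_lt {m n : ℕ} (f : Fin m → Fin n) {a : ℕ} (h : a < m) : xt f a = (f ⟨a, h⟩ : ℕ) := by
  unfold xt
  rw [dif_pos h]

end PG3Aux

theorem pg3 {T n m s K D Q : ℕ} {δ : ℝ} {al be : ℕ → ℕ → ℕ} (hK : 0 < K) (hQ : Q = 2 * D + K)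
    (hal : ∀ i j, K ≤ 4 * al i j ∧ 2 * al i j ≤ K) (hbe : ∀ i j, K ≤ 4 * be i j ∧ 2 * be i j ≤ K)
    (hδ : 0 ≤ δ) (hδ1 : δ ≤ 1) (hT : m * m ≤ T) :
    (Nat.card {f : Fin T → Fin Q // ¬ G3 n m s K D Q δ al be (fun a b => xt f (a * m + b))} : ℝ) ≤
      ((4 : ℝ) ^ m * (n : ℝ) ^ (2 * m)) * Real.exp (-(δ ^ 2 * ((K : ℝ) / Q) * (s : ℝ) ^ 2 / 8)) *
        (Q : ℝ) ^ T := by
  classical
  have hQ0 : (0 : ℝ) < Q := by
    have : 0 < Q := by omega
    exact_mod_cast this
  have hvv : ∀ i j, al i j + be i j ≤ K := fun i j => by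
    have h1 := (hal i j).2
    have h2 := (hbe i j).2
    omega
  have hvv2 : ∀ i j, K ≤ 2 * (al i j + be i j) := fun i j => by
    have h1 := (hal i j).1
    have h2 := (hbe i j).1
    omega
  have hdec : ∀ {a b : ℕ}, b < m → (a * m + b) / m = a ∧ (a * m + b) % m = b := by
    intro a b hb
    have hm : 0 < m := by omega
    constructor
    · rw [add_comm, Nat.add_mul_div_right _ _ hm, Nat.div_eq_of_lt hb, zero_add]
    · rw [add_comm, Nat.add_mul_mod_self_right, Nat.mod_eq_of_lt hb]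
  have h := PG3Aux.uni (F := Fin T → Fin Q)
    (I := ↥((range m).powerset) × ↥((range m).powerset) × (Fin m → Fin n) × (Fin m → Fin n))
    (fun φ => ¬ G3 n m s K D Q δ al be (fun a b => xt φ (a * m + b)))
    (fun i φ => (i.1 : Finset ℕ).card ≤ s ∧ (i.2.1 : Finset ℕ).card ≤ s ∧
      ∑ a ∈ (i.1 : Finset ℕ), ∑ b ∈ (i.2.1 : Finset ℕ),
        PG3Aux.gz D Q K (al (xt i.2.2.1 a) (xt i.2.2.2 b)) (be (xt i.2.2.1 a) (xt i.2.2.2 b))
          (xt φ (a * m + b)) ≤ -(δ / 2 * ((K : ℝ) / Q) * (s : ℝ) ^ 2))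
    (Real.exp (-(δ ^ 2 * ((K : ℝ) / Q) * (s : ℝ) ^ 2 / 8)) * (Q : ℝ) ^ T)
    (by
      intro φ hφ
      unfold G3 at hφ
      push Not at hφ
      obtain ⟨S, hS, S', hS', hs, hs', f, g, hf, hg, h⟩ := hφ
      refine ⟨(⟨S, mem_powerset.2 hS⟩, ⟨S', mem_powerset.2 hS'⟩, (fun a => ⟨f a, hf a⟩),
        (fun b => ⟨g b, hg b⟩)), hs, hs', ?_⟩
      refine le_trans (le_of_eq ?_) h.le
      refine sum_congr rfl fun a ha => sum_congr rfl fun b hb => ?_
      have ha' := mem_range.1 (hS ha)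
      have hb' := mem_range.1 (hS' hb)
      rw [PG3Aux.xt_lt _ ha', PG3Aux.xt_lt _ hb']
      rfl)
    (by
      rintro ⟨⟨S, hS⟩, ⟨S', hS'⟩, f, g⟩
      rw [mem_powerset] at hS hS'
      dsimp only
      by_cases hs : S.card ≤ s ∧ S'.card ≤ s
      · set A : Finset ℕ := (S ×ˢ S').image (fun p => p.1 * m + p.2) with hA
        have hinj : Set.InjOn (fun p : ℕ × ℕ => p.1 * m + p.2) ((S ×ˢ S' : Finset (ℕ × ℕ)) : Set (ℕ × ℕ)) := by
          rintro ⟨a, b⟩ h1 ⟨a', b'⟩ h2 h
          rw [mem_coe, mem_product] at h1 h2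
          have hb := hdec (a := a) (mem_range.1 (hS' h1.2))
          have hb' := hdec (a := a') (mem_range.1 (hS' h2.2))
          dsimp only at h hb hb'
          rw [h] at hb
          rw [Prod.mk.injEq]
          exact ⟨hb.1.symm.trans hb'.1, hb.2.symm.trans hb'.2⟩
        have hAc : A.card ≤ s * s := by
          rw [hA, card_image_of_injOn hinj, card_product]
          exact Nat.mul_le_mul hs.1 hs.2
        have key := PG3Aux.sel (T := T) (Q := Q) A
          (by
            intro t ht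
            obtain ⟨⟨a, b⟩, hp, rfl⟩ := mem_image.1 ht
            rw [mem_product] at hp
            have ha := mem_range.1 (hS hp.1)
            have hb := mem_range.1 (hS' hp.2)
            have h1 : (a + 1) * m ≤ m * m := Nat.mul_le_mul_right _ ha
            have h2 : (a + 1) * m = a * m + m := by ring
            dsimp only at hb ⊢
            omega)
          (fun t l => PG3Aux.gz D Q K (al (xt f (t / m)) (xt g (t % m))) (be (xt f (t / m)) (xt g (t % m))) l)
          ((K : ℝ) / Q / 2)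
          (fun t _ l _ => PG3Aux.gz_abs hK hQ (hvv _ _) l)
          (fun t _ => le_of_eq (PG3Aux.gz_sum hK hQ (hvv _ _)).symm)
          (fun t _ => PG3Aux.gz_sq hK hQ (hvv _ _) (hvv2 _ _))
          (c := δ / 2) (τ := δ / 2 * ((K : ℝ) / Q) * (s : ℝ) ^ 2) (by linarith) (by linarith)
        have hsum : ∀ φ : Fin T → Fin Q, ∑ t ∈ A, PG3Aux.gz D Q K (al (xt f (t / m)) (xt g (t % m)))
            (be (xt f (t / m)) (xt g (t % m))) (xt φ t) =
            ∑ a ∈ S, ∑ b ∈ S', PG3Aux.gz D Q K (al (xt f a) (xt g b)) (be (xt f a) (xt g b))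
              (xt φ (a * m + b)) := by
          intro φ
          rw [hA, sum_image hinj, sum_product]
          refine sum_congr rfl fun a ha => sum_congr rfl fun b hb => ?_
          have hb' := hdec (a := a) (mem_range.1 (hS' hb))
          dsimp only
          rw [hb'.1, hb'.2]
        simp only [hsum] at key
        have hle : (Nat.card {φ : Fin T → Fin Q // S.card ≤ s ∧ S'.card ≤ s ∧
            ∑ a ∈ S, ∑ b ∈ S', PG3Aux.gz D Q K (al (xt f a) (xt g b)) (be (xt f a) (xt g b))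
              (xt φ (a * m + b)) ≤ -(δ / 2 * ((K : ℝ) / Q) * (s : ℝ) ^ 2)} : ℝ) =
            Nat.card {φ : Fin T → Fin Q // 
            ∑ a ∈ S, ∑ b ∈ S', PG3Aux.gz D Q K (al (xt f a) (xt g b)) (be (xt f a) (xt g b))
              (xt φ (a * m + b)) ≤ -(δ / 2 * ((K : ℝ) / Q) * (s : ℝ) ^ 2)} := by
          simp only [hs.1, hs.2, true_and]
        rw [hle]
        refine key.trans ?_
        refine mul_le_mul_of_nonneg_right (Real.exp_le_exp.2 ?_) (by positivity)
        have h1 : (A.card : ℝ) ≤ (s : ℝ) ^ 2 := by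
          rw [sq]
          exact_mod_cast hAc
        have h2 : (0 : ℝ) ≤ (K : ℝ) / Q / 2 := by positivity
        have h3 : (δ / 2) ^ 2 * ((K : ℝ) / Q / 2 * A.card) ≤
            (δ / 2) ^ 2 * ((K : ℝ) / Q / 2 * (s : ℝ) ^ 2) :=
          mul_le_mul_of_nonneg_left (mul_le_mul_of_nonneg_left h1 h2) (sq_nonneg _)
        have h4 : -(δ / 2 * (δ / 2 * ((K : ℝ) / Q) * (s : ℝ) ^ 2)) +
            (δ / 2) ^ 2 * ((K : ℝ) / Q / 2 * (s : ℝ) ^ 2) =
            -(δ ^ 2 * ((K : ℝ) / Q) * (s : ℝ) ^ 2 / 8) := by ring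
        linarith
      · have : IsEmpty {φ : Fin T → Fin Q // S.card ≤ s ∧ S'.card ≤ s ∧
            ∑ a ∈ S, ∑ b ∈ S', PG3Aux.gz D Q K (al (xt f a) (xt g b)) (be (xt f a) (xt g b))
              (xt φ (a * m + b)) ≤ -(δ / 2 * ((K : ℝ) / Q) * (s : ℝ) ^ 2)} :=
          ⟨fun φ => hs ⟨φ.2.1, φ.2.2.1⟩⟩
        rw [Nat.card_of_isEmpty]
        push_cast
        positivity)
  have hcard : (Fintype.card (↥((range m).powerset) × ↥((range m).powerset) × (Fin m → Fin n) ×
      (Fin m → Fin n)) : ℝ) = (4 : ℝ) ^ m * (n : ℝ) ^ (2 * m) := by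
    rw [Fintype.card_prod, Fintype.card_prod, Fintype.card_prod, Fintype.card_coe, card_powerset,
      card_range, Fintype.card_fun, Fintype.card_fin, Fintype.card_fin]
    push_cast
    rw [show (4 : ℝ) = 2 * 2 by norm_num, mul_pow, two_mul m, pow_add]
    ring
  rw [hcard] at h
  refine h.trans (le_of_eq ?_)
  ring

end Nwl
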