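import Pool.Agent.Lib.Nwl.Defs

/-!
# The constants of Theorem 2

MP_602ccf, project Nwl (owner helper29). Paper proof: /team-store/602ccf_winlose.md, section 3 (constants).

PROOF. `z = 2 ^ (-(2a+6))`, `δ = 2 ^ (-a)`, `θ = 2 ^ (-(a+3))`. Write `Λ = la n ≥ 1` (`2 ^ (Λ - 1) ≤ n < 2 ^ Λ`), `s = C Λ`, `m = C' Λ`,
`M = (2 n) ^ (3 C)`, so `2 ^ (3 C Λ) ≤ M ≤ 2 ^ (6 C Λ)`. Take `C' = 4 ^ (2 a + 7) * (6 * C + pK a + 10)` (`= (4 / z ^ 2) (6 C + K + 10)`) and `C` so large that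
`2 ^ C * z ^ 2 / 4 ≥ 2 * C' + 4 + ..` and `C ^ 2 * δ ^ 2 * θ / 8 ≥ 4 * C' + 4` (`C'` is linear in `C`; e.g. `C = 2 ^ (20 * a + 100)`-like, or an
`eventually` argument). With `exp (-x) ≤ 2 ^ (-x)` (`x ≥ 0`):
(1), (2): `z ^ 2 * m / 4 ≥ (6 C + K + 10) Λ`, `m * (K + 1) ≤ M * 2 ^ K`, `M ≤ 2 ^ (6 C Λ)`.
(3): `M * (1 / 4) ^ s ≥ 2 ^ (C Λ) ≥ 2 ^ C * Λ`, so the exponent is at least `(2 C' + 4) Λ ≥ 2 m + 4`, and `2 ^ m * m ≤ 2 ^ (2 m)`.
(4): `4 ^ m * n ^ (2 m) ≤ 2 ^ (2 m + 2 m Λ) ≤ 2 ^ (4 C' Λ ^ 2)`.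
-/

set_option autoImplicit false

namespace Nwl

open Finset

namespace ParAux

theorem key (A x : ℝ) (y : ℕ) (hA : A * 16 ≤ 2 ^ y) (hx : (y : ℝ) ≤ x) :
    A * Real.exp (-x) ≤ 1 / 16 := by
  have h1 : Real.exp (-x) ≤ (1 / 2 : ℝ) ^ y := by
    calc Real.exp (-x) ≤ Real.exp (-(y : ℝ)) := Real.exp_le_exp.mpr (by linarith)
      _ = Real.exp (-1) ^ y := by
          rw [← Real.exp_nat_mul]
          congr 1
          ring
      _ ≤ (1 / 2 : ℝ) ^ y := by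
          refine pow_le_pow_left₀ (Real.exp_pos _).le ?_ y
          rw [Real.exp_neg, one_div]
          refine inv_anti₀ (by norm_num) ?_
          have := Real.add_one_le_exp (1 : ℝ)
          linarith
  have h2 : A ≤ 2 ^ y / 16 := by linarith
  calc A * Real.exp (-x) ≤ 2 ^ y / 16 * Real.exp (-x) :=
        mul_le_mul_of_nonneg_right h2 (Real.exp_pos _).le
    _ ≤ 2 ^ y / 16 * (1 / 2 : ℝ) ^ y := mul_le_mul_of_nonneg_left h1 (by positivity)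
    _ = 1 / 16 := by
        rw [div_mul_eq_mul_div, ← mul_pow]
        norm_num

theorem lt2 (k : ℕ) : k < 2 ^ k := Nat.lt_two_pow_self

theorem la_pos (n : ℕ) : 1 ≤ la n := by unfold la; omega

theorem la_lo (n : ℕ) (hn : 1 ≤ n) : 2 ^ la n ≤ 2 * n := by
  unfold la
  rw [pow_succ, mul_comm]
  exact Nat.mul_le_mul_left 2 (Nat.pow_log_le_self 2 (by omega))

theorem la_hi (n : ℕ) : n ≤ 2 ^ la n := by
  unfold la
  exact (Nat.lt_pow_succ_log_self (by norm_num) n).le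

theorem cst1 (a : ℕ) : 15 * a + 58 ≤ 2 ^ (7 * a + 25) := by
  have h := lt2 (7 * a)
  rw [pow_add]
  nlinarith

theorem cstK (a : ℕ) : pK a + 12 ≤ 2 ^ (7 * a + 25) := by
  unfold pK
  have h1 : 2 ^ (a + 2) ≤ 2 ^ (7 * a + 24) := Nat.pow_le_pow_right (by norm_num) (by omega)
  have h2 : 2 ^ 24 ≤ 2 ^ (7 * a + 24) := Nat.pow_le_pow_right (by norm_num) (by omega)
  have h3 : 2 ^ (7 * a + 25) = 2 * 2 ^ (7 * a + 24) := by rw [show 7 * a + 25 = (7 * a + 24) + 1 by ring, pow_succ]; ring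
  have h4 : (12 : ℕ) ≤ 2 ^ 24 := by norm_num
  omega

theorem zz (a : ℕ) (m : ℝ) : (1 / 2 ^ (2 * a + 6)) ^ 2 * m / 4 = m / 4 ^ (2 * a + 7) := by
  have : (4 : ℝ) ^ (2 * a + 7) = (2 ^ (2 * a + 6)) ^ 2 * 4 := by
    rw [← pow_mul, show (4 : ℝ) = 2 ^ 2 by norm_num, ← pow_mul, ← pow_add]
    congr 1
    ring
  rw [this]
  field_simp

theorem pw1 (x y : ℕ) : 2 * 2 ^ x * 2 ^ x * (8 * 2 ^ y) = 2 ^ (1 + x + x + (3 + y)) := by
  rw [pow_add 2 (1 + x + x), pow_add 2 (1 + x), pow_add 2 1, pow_add 2 3]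
  norm_num

theorem pw2 (x y : ℕ) : 4 * 2 ^ x * 8 * 2 ^ y = 2 ^ (2 + x + 3 + y) := by
  rw [pow_add 2 (2 + x + 3), pow_add 2 (2 + x), pow_add 2 2]
  norm_num

theorem aux3 (w B m Λ : ℕ) (hw1 : 1 ≤ w) (hΛ1 : 1 ≤ Λ) (hm' : m = w * B * Λ) :
    2 * m + 4 ≤ 2 * (w * (B + 2)) * Λ := by
  have h : 1 ≤ w * Λ := Nat.mul_le_mul hw1 hΛ1
  have e : 2 * (w * (B + 2)) * Λ = 2 * (w * B * Λ) + 4 * (w * Λ) := by ring
  rw [e, hm']
  omega

theorem aux3' (w B m Λ C P : ℕ) (hw1 : 1 ≤ w) (hΛ1 : 1 ≤ Λ) (hm' : m = w * B * Λ)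
    (hBC : B + 2 ≤ 8 * C) (hP : 2 * w * w * (8 * C) ≤ P) : (2 * m + 4) * w ≤ P * Λ := by
  calc (2 * m + 4) * w ≤ (2 * (w * (B + 2)) * Λ) * w :=
        Nat.mul_le_mul_right _ (aux3 w B m Λ hw1 hΛ1 hm')
    _ = (2 * w * w * (B + 2)) * Λ := by ring
    _ ≤ (2 * w * w * (8 * C)) * Λ :=
        Nat.mul_le_mul_right _ (Nat.mul_le_mul_left _ hBC)
    _ ≤ P * Λ := Nat.mul_le_mul_right _ hP

theorem aux4 (w B m Λ : ℕ) (hw1 : 1 ≤ w) (hΛ1 : 1 ≤ Λ) (hm' : m = w * B * Λ) :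
    4 * (m * Λ) + 4 ≤ 4 * (w * (B + 2)) * (Λ * Λ) := by
  have h : 1 ≤ w * (Λ * Λ) := Nat.mul_le_mul hw1 (Nat.mul_le_mul hΛ1 hΛ1)
  have e : 4 * (w * (B + 2)) * (Λ * Λ) = 4 * (w * B * Λ * Λ) + 8 * (w * (Λ * Λ)) := by ring
  rw [e, hm']
  omega

theorem aux4' (w B m Λ C Q : ℕ) (hw1 : 1 ≤ w) (hΛ1 : 1 ≤ Λ) (hm' : m = w * B * Λ)
    (hBC : B + 2 ≤ 8 * C) (hC : 4 * w * 8 * Q = C) : (4 * (m * Λ) + 4) * Q ≤ (C * Λ) ^ 2 := by
  calc (4 * (m * Λ) + 4) * Q ≤ (4 * (w * (B + 2)) * (Λ * Λ)) * Q :=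
        Nat.mul_le_mul_right _ (aux4 w B m Λ hw1 hΛ1 hm')
    _ ≤ (4 * (w * (8 * C)) * (Λ * Λ)) * Q :=
        Nat.mul_le_mul_right _ (Nat.mul_le_mul_right _ (Nat.mul_le_mul_left _
          (Nat.mul_le_mul_left _ hBC)))
    _ = (4 * w * 8 * Q) * (C * (Λ * Λ)) := by ring
    _ = (C * Λ) ^ 2 := by rw [hC]; ring

end ParAux

theorem par (a : ℕ) : ∃ C C' : ℕ, 0 < C ∧ C < C' ∧ ∀ n : ℕ, 1 ≤ n →
    ((pm C' n : ℝ) * (pK a + 1)) * Real.exp (-((1 / 2 ^ (2 * a + 6)) ^ 2 * pm C' n / 4)) ≤ 1 / 16 ∧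
    (pM C n : ℝ) * Real.exp (-((1 / 2 ^ (2 * a + 6)) ^ 2 * pm C' n / 4)) ≤ 1 / 16 ∧
    ((2 : ℝ) ^ pm C' n * pm C' n) *
      Real.exp (-(pM C n * (1 / 4) ^ ps C n * (1 / 2 ^ (2 * a + 6)) ^ 2 / 4)) ≤ 1 / 16 ∧
    ((4 : ℝ) ^ pm C' n * (n : ℝ) ^ (2 * pm C' n)) *
      Real.exp (-((1 / 2 ^ a) ^ 2 * ((pK a : ℝ) / pQ a) * (ps C n : ℝ) ^ 2 / 8)) ≤ 1 / 16 := by
  obtain ⟨C, hC⟩ : ∃ C : ℕ, C = 2 ^ (7 * a + 25) := ⟨_, rfl⟩
  obtain ⟨w, hw⟩ : ∃ w : ℕ, w = 4 ^ (2 * a + 7) := ⟨_, rfl⟩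
  obtain ⟨K, hK⟩ : ∃ K : ℕ, K = pK a := ⟨_, rfl⟩
  have hw' : w = 2 ^ (4 * a + 14) := by
    rw [hw, show (4 : ℕ) = 2 ^ 2 by norm_num, ← pow_mul]
    congr 1
    ring
  have hw1 : 1 ≤ w := by rw [hw]; exact Nat.one_le_pow _ _ (by norm_num)
  have hwR : (4 : ℝ) ^ (2 * a + 7) = (w : ℝ) := by rw [hw]; push_cast; rfl
  have hw0 : (0 : ℝ) < (w : ℝ) := by exact_mod_cast hw1
  have hC1 : 15 * a + 58 ≤ C := by rw [hC]; exact ParAux.cst1 a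
  have hCK : K + 12 ≤ C := by rw [hC, hK]; exact ParAux.cstK a
  refine ⟨C, w * (6 * C + K + 10), by omega, ?_, ?_⟩
  · calc C < 1 * (6 * C + K + 10) := by omega
      _ ≤ w * (6 * C + K + 10) := Nat.mul_le_mul_right _ hw1
  intro n hn
  obtain ⟨B, hB⟩ : ∃ B : ℕ, B = 6 * C + K + 10 := ⟨_, rfl⟩
  rw [← hB, ← hK]
  obtain ⟨Λ, hΛ⟩ : ∃ Λ : ℕ, Λ = la n := ⟨_, rfl⟩
  have hΛ1 : 1 ≤ Λ := by rw [hΛ]; exact ParAux.la_pos n
  have hlo : 2 ^ Λ ≤ 2 * n := by rw [hΛ]; exact ParAux.la_lo n hn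
  have hhi : n ≤ 2 ^ Λ := by rw [hΛ]; exact ParAux.la_hi n
  obtain ⟨m, hm⟩ : ∃ m : ℕ, m = pm (w * B) n := ⟨_, rfl⟩
  have hm' : m = w * B * Λ := by rw [hm, hΛ]; rfl
  rw [← hm]
  have hmz : (1 / 2 ^ (2 * a + 6)) ^ 2 * (m : ℝ) / 4 = ((B * Λ : ℕ) : ℝ) := by
    rw [ParAux.zz, hwR, hm']
    push_cast
    field_simp
  have hMhi : pM C n ≤ 2 ^ (6 * C * Λ) := by
    unfold pM
    calc (2 * n) ^ (3 * C) ≤ (2 ^ (2 * Λ)) ^ (3 * C) := by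
          refine Nat.pow_le_pow_left ?_ _
          calc 2 * n ≤ 2 ^ Λ * 2 ^ Λ := Nat.mul_le_mul (by
                calc 2 = 2 ^ 1 := by norm_num
                  _ ≤ 2 ^ Λ := Nat.pow_le_pow_right (by norm_num) hΛ1) hhi
            _ = 2 ^ (2 * Λ) := by rw [← pow_add]; congr 1; ring
      _ = 2 ^ (6 * C * Λ) := by rw [← pow_mul]; congr 1; ring
  have hMlo : 2 ^ (3 * C * Λ) ≤ pM C n := by
    unfold pM
    calc 2 ^ (3 * C * Λ) = (2 ^ Λ) ^ (3 * C) := by rw [← pow_mul]; congr 1; ring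
      _ ≤ (2 * n) ^ (3 * C) := Nat.pow_le_pow_left hlo _
  -- the bound for a linear function of `C`
  have hCΛ : 2 ^ C * Λ ≤ 2 ^ (C * Λ) := by
    have h1 : Λ ≤ 2 ^ (Λ - 1) := by
      have := ParAux.lt2 (Λ - 1)
      omega
    calc 2 ^ C * Λ ≤ 2 ^ C * 2 ^ (Λ - 1) := Nat.mul_le_mul_left _ h1
      _ = 2 ^ (C + (Λ - 1)) := by rw [← pow_add]
      _ ≤ 2 ^ (C * Λ) := by
        refine Nat.pow_le_pow_right (by norm_num) ?_
        obtain ⟨t, rfl⟩ : ∃ t, Λ = t + 1 := ⟨Λ - 1, by omega⟩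
        have : t ≤ C * t := Nat.le_mul_of_pos_left t (by omega)
        simp only [Nat.add_sub_cancel]
        rw [Nat.mul_succ]
        omega
  have hBC : B + 2 ≤ 8 * C := by omega
  refine ⟨?_, ?_, ?_, ?_⟩
  · rw [hmz]
    refine ParAux.key _ _ (B * Λ) ?_ le_rfl
    have : m * (K + 1) * 16 ≤ 2 ^ (B * Λ) := by
      have hK1 : K + 1 ≤ 2 ^ (K * Λ) := by
        calc K + 1 ≤ 2 ^ K := ParAux.lt2 K
          _ ≤ 2 ^ (K * Λ) := Nat.pow_le_pow_right (by norm_num) (Nat.le_mul_of_pos_right _ hΛ1)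
      have hw2 : w ≤ 2 ^ (C * Λ) := by
        rw [hw']
        refine Nat.pow_le_pow_right (by norm_num) ?_
        calc 4 * a + 14 ≤ C := by omega
          _ ≤ C * Λ := Nat.le_mul_of_pos_right _ hΛ1
      have hB2 : B * Λ ≤ 2 ^ (2 * C * Λ + 3 * Λ) := by
        have h8 : C < 2 ^ C := ParAux.lt2 C
        have hc1 : 2 ^ C ≤ 2 ^ (C * Λ) :=
          Nat.pow_le_pow_right (by norm_num) (Nat.le_mul_of_pos_right _ hΛ1)
        have h3 : 8 ≤ 2 ^ (3 * Λ) := by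
          calc 8 = 2 ^ 3 := by norm_num
            _ ≤ 2 ^ (3 * Λ) := Nat.pow_le_pow_right (by norm_num) (by omega)
        calc B * Λ ≤ (8 * C) * Λ := Nat.mul_le_mul_right _ (by omega)
          _ = 8 * (C * Λ) := by ring
          _ ≤ 2 ^ (3 * Λ) * (2 ^ (C * Λ) * 2 ^ (C * Λ)) := by
              refine Nat.mul_le_mul h3 ?_
              calc C * Λ ≤ 2 ^ C * Λ := Nat.mul_le_mul_right _ h8.le
                _ ≤ 2 ^ (C * Λ) := hCΛ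
                _ ≤ 2 ^ (C * Λ) * 2 ^ (C * Λ) :=
                  Nat.le_mul_of_pos_right _ (Nat.pow_pos (by norm_num))
          _ = 2 ^ (2 * C * Λ + 3 * Λ) := by
              rw [← pow_add, ← pow_add]; congr 1; ring
      have h16 : 16 ≤ 2 ^ (4 * Λ) := by
        calc 16 = 2 ^ 4 := by norm_num
          _ ≤ 2 ^ (4 * Λ) := Nat.pow_le_pow_right (by norm_num) (by omega)
      calc m * (K + 1) * 16 = w * (B * Λ) * (K + 1) * 16 := by rw [hm']; ring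
        _ ≤ 2 ^ (C * Λ) * 2 ^ (2 * C * Λ + 3 * Λ) * 2 ^ (K * Λ) * 2 ^ (4 * Λ) := by
            refine Nat.mul_le_mul (Nat.mul_le_mul (Nat.mul_le_mul hw2 hB2) hK1) h16
        _ = 2 ^ (3 * C * Λ + K * Λ + 7 * Λ) := by
            rw [← pow_add, ← pow_add, ← pow_add]; congr 1; ring
        _ ≤ 2 ^ (B * Λ) := by
            refine Nat.pow_le_pow_right (by norm_num) ?_
            rw [hB]
            have : 3 * C * Λ + K * Λ + 7 * Λ + (3 * C * Λ + 3 * Λ) = (6 * C + K + 10) * Λ := by ring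
            omega
    exact_mod_cast this
  · rw [hmz]
    refine ParAux.key _ _ (B * Λ) ?_ le_rfl
    have : pM C n * 16 ≤ 2 ^ (B * Λ) := by
      have h16 : 16 ≤ 2 ^ (4 * Λ) := by
        calc 16 = 2 ^ 4 := by norm_num
          _ ≤ 2 ^ (4 * Λ) := Nat.pow_le_pow_right (by norm_num) (by omega)
      calc pM C n * 16 ≤ 2 ^ (6 * C * Λ) * 2 ^ (4 * Λ) := Nat.mul_le_mul hMhi h16
        _ = 2 ^ (6 * C * Λ + 4 * Λ) := by rw [← pow_add]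
        _ ≤ 2 ^ (B * Λ) := by
            refine Nat.pow_le_pow_right (by norm_num) ?_
            rw [hB]
            have : 6 * C * Λ + 4 * Λ + (K * Λ + 6 * Λ) = (6 * C + K + 10) * Λ := by ring
            omega
    exact_mod_cast this
  · refine ParAux.key _ _ (2 * m + 4) ?_ ?_
    · have : 2 ^ m * m * 16 ≤ 2 ^ (2 * m + 4) := by
        calc 2 ^ m * m * 16 ≤ 2 ^ m * 2 ^ m * 16 :=
              Nat.mul_le_mul_right _ (Nat.mul_le_mul_left _ (ParAux.lt2 m).le)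
          _ = 2 ^ (2 * m + 4) := by
              rw [pow_add, two_mul, pow_add, show (2 : ℕ) ^ 4 = 16 by norm_num]
      exact_mod_cast this
    · have e1 : (pM C n : ℝ) * (1 / 4) ^ ps C n * (1 / 2 ^ (2 * a + 6)) ^ 2 / 4 =
          (pM C n : ℝ) * (1 / 4) ^ ps C n / w := by
        rw [← hwR, ← ParAux.zz]
        ring
      rw [e1]
      have e2 : (2 : ℝ) ^ (C * Λ) ≤ (pM C n : ℝ) * (1 / 4) ^ ps C n := by
        have e3 : (2 : ℝ) ^ (3 * C * Λ) ≤ (pM C n : ℝ) := by exact_mod_cast hMlo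
        have e4 : (1 / 4 : ℝ) ^ ps C n = 1 / 2 ^ (2 * (C * Λ)) := by
          rw [show ps C n = C * Λ by rw [hΛ]; rfl, pow_mul (2 : ℝ), one_div_pow]
          norm_num
        calc (2 : ℝ) ^ (C * Λ) = 2 ^ (3 * C * Λ) * (1 / 4) ^ ps C n := by
              rw [e4, show 3 * C * Λ = C * Λ + 2 * (C * Λ) by ring, pow_add]
              field_simp
          _ ≤ _ := mul_le_mul_of_nonneg_right e3 (by positivity)
      rw [le_div_iff₀ hw0]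
      refine le_trans ?_ e2
      have : (2 * m + 4) * w ≤ 2 ^ (C * Λ) := by
        refine le_trans (ParAux.aux3' w B m Λ C (2 ^ C) hw1 hΛ1 hm' hBC ?_) hCΛ
        calc 2 * w * w * (8 * C) = 2 ^ (15 * a + 57) := by
              rw [hw', hC, ParAux.pw1]
              congr 1
              ring
          _ ≤ 2 ^ C := Nat.pow_le_pow_right (by norm_num) (by omega)
      exact_mod_cast this
  · refine ParAux.key _ _ (4 * (m * Λ) + 4) ?_ ?_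
    · have : 4 ^ m * n ^ (2 * m) * 16 ≤ 2 ^ (4 * (m * Λ) + 4) := by
        have h1 : n ^ (2 * m) ≤ 2 ^ (2 * (m * Λ)) := by
          calc n ^ (2 * m) ≤ (2 ^ Λ) ^ (2 * m) := Nat.pow_le_pow_left hhi _
            _ = 2 ^ (2 * (m * Λ)) := by rw [← pow_mul]; congr 1; ring
        have h2 : 4 ^ m ≤ 2 ^ (2 * (m * Λ)) := by
          rw [show (4 : ℕ) = 2 ^ 2 by norm_num, ← pow_mul]
          exact Nat.pow_le_pow_right (by norm_num)
            (Nat.mul_le_mul_left _ (Nat.le_mul_of_pos_right _ hΛ1))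
        calc 4 ^ m * n ^ (2 * m) * 16 ≤ 2 ^ (2 * (m * Λ)) * 2 ^ (2 * (m * Λ)) * 16 :=
              Nat.mul_le_mul_right _ (Nat.mul_le_mul h2 h1)
          _ = 2 ^ (4 * (m * Λ) + 4) := by
              rw [← pow_add, pow_add 2 _ 4]
              congr 2
              ring
      exact_mod_cast this
    · have hq : (pK a : ℝ) / pQ a = 1 / 2 ^ (a + 3) := by
        unfold pK pQ
        push_cast
        rw [show 2 * a + 5 = (a + 2) + (a + 3) by ring, pow_add (2 : ℝ) (a + 2) (a + 3)]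
        field_simp
      have e1 : (1 / 2 ^ a) ^ 2 * ((K : ℝ) / pQ a) * (ps C n : ℝ) ^ 2 / 8 =
          ((C * Λ : ℕ) : ℝ) ^ 2 / 2 ^ (3 * a + 6) := by
        rw [hK, hq, show ps C n = C * Λ by rw [hΛ]; rfl,
          show 3 * a + 6 = a + a + (a + 3) + 3 by ring, pow_add (2 : ℝ) (a + a + (a + 3)) 3,
          pow_add (2 : ℝ) (a + a), pow_add (2 : ℝ) a a]
        field_simp
        ring
      rw [e1, le_div_iff₀ (by positivity)]
      have : (4 * (m * Λ) + 4) * 2 ^ (3 * a + 6) ≤ (C * Λ) ^ 2 := by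
        refine ParAux.aux4' w B m Λ C _ hw1 hΛ1 hm' hBC ?_
        rw [hw', hC, ParAux.pw2]
        congr 1
        ring
      exact_mod_cast this

theorem ps_lt_pm {C C' n : ℕ} (h : C < C') : ps C n < pm C' n := by
  unfold ps pm
  exact Nat.mul_lt_mul_of_pos_right h (ParAux.la_pos n)

/-- the parameters -/
theorem pars (a : ℕ) : 0 < pK a ∧ pQ a = 2 * pD a + pK a ∧ pQ a ≤ 4 * pD a ∧
    (pK a : ℝ) / pQ a = 1 / 2 ^ (a + 3) := by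
  have h1 : 2 ^ (a + 2) = 2 * 2 ^ (a + 1) := by rw [pow_succ 2 (a + 1)]; ring
  have h2 : 2 ^ (2 * a + 5) = 2 * 2 ^ (2 * a + 4) := by rw [pow_succ 2 (2 * a + 4)]; ring
  have h3 : 4 * 2 ^ (a + 1) ≤ 2 ^ (2 * a + 4) := by
    rw [show 4 * 2 ^ (a + 1) = 2 ^ (a + 3) by rw [pow_add, pow_add]; ring]
    exact Nat.pow_le_pow_right (by norm_num) (by omega)
  refine ⟨by unfold pK; positivity, ?_, ?_, ?_⟩
  · unfold pK pQ pD
    omega
  · unfold pQ pD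
    omega
  · unfold pK pQ
    push_cast
    rw [show 2 * a + 5 = (a + 2) + (a + 3) by ring, pow_add (2 : ℝ) (a + 2) (a + 3)]
    field_simp

end Nwl
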