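import Pool.Agent.Lib.Nwl.PG1
import Pool.Agent.Lib.Nwl.PG2
import Pool.Agent.Lib.Nwl.PG3
import Pool.Agent.Lib.Nwl.Par

/-!
# At least half of the labels are good

MP_602ccf, project Nwl (owner helper29). Paper proof: /team-store/602ccf_winlose.md, section 3.

PROOF. `C`, `C'` from `par a`. The complement is covered by the seven bad events of `pg1R`, `pg1C`, `pg1E` (`o = m * m` and
`o = m * m + M * m`), `pg2` (same `o`), `pg3`, each of size at most `Q ^ T / 16`; `7 / 16 ≤ 1 / 2`. `pars` gives the hypotheses;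
`z = 1 / 2 ^ (2 * a + 6) ≤ 1 / 4`, `T = pT C C' n = m * m + 2 * (M * m)`.
-/

set_option autoImplicit false

namespace Nwl

open Finset

namespace PGoodAux

theorem compl_le {X : Type} [Finite X] (P Q R : X → Prop) (h : ∀ x, Q x → R x → P x) :
    Nat.card {x // ¬ P x} ≤ Nat.card {x // ¬ Q x} + Nat.card {x // ¬ R x} := by
  classical
  have := Fintype.ofFinite X
  rw [Nat.card_eq_fintype_card, Nat.card_eq_fintype_card, Nat.card_eq_fintype_card,
    Fintype.card_subtype, Fintype.card_subtype, Fintype.card_subtype]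
  refine (Finset.card_le_card ?_).trans (Finset.card_union_le _ _)
  intro x hx
  simp only [Finset.mem_filter, Finset.mem_univ, true_and, Finset.mem_union] at hx ⊢
  by_contra hcon
  push Not at hcon
  exact hx (h x hcon.1 hcon.2)

theorem card_add {X : Type} [Finite X] (P : X → Prop) :
    Nat.card {x // P x} + Nat.card {x // ¬ P x} = Nat.card X := by
  classical
  rw [← Nat.card_sum]
  exact Nat.card_congr (Equiv.sumCompl P)

theorem scale {x c e q : ℝ} (hx : x ≤ c * e * q) (hc : c * e ≤ 1 / 16) (hq : 0 ≤ q) :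
    x ≤ 1 / 16 * q :=
  hx.trans (mul_le_mul_of_nonneg_right hc hq)

end PGoodAux

open PGoodAux in
theorem pgood (a : ℕ) : ∃ C C' : ℕ, 0 < C ∧ C < C' ∧ ∀ n : ℕ, 1 ≤ n → ∀ al be : ℕ → ℕ → ℕ,
    (∀ i j, pK a ≤ 4 * al i j ∧ 2 * al i j ≤ pK a) → (∀ i j, pK a ≤ 4 * be i j ∧ 2 * be i j ≤ pK a) →
    (pQ a) ^ pT C C' n ≤ 2 * Nat.card {f : Fin (pT C C' n) → Fin (pQ a) //
      GLab n (pm C' n) (pM C n) (ps C n) (pK a) (pD a) (pQ a) (1 / 2 ^ (2 * a + 6)) (1 / 2 ^ a) al be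
        (xt f)} := by
  obtain ⟨C, C', hC, hCC, hpar⟩ := par a
  refine ⟨C, C', hC, hCC, fun n hn al be hal hbe => ?_⟩
  obtain ⟨hK, hQ, hD, -⟩ := pars a
  obtain ⟨h1, h2, h3, h4⟩ := hpar n hn
  have hz0 : (0 : ℝ) < 1 / 2 ^ (2 * a + 6) := by positivity
  have hz4 : (1 : ℝ) / 2 ^ (2 * a + 6) ≤ 1 / 4 := by
    refine one_div_le_one_div_of_le (by norm_num) ?_
    have : (2 : ℝ) ^ 2 ≤ 2 ^ (2 * a + 6) := pow_le_pow_right₀ (by norm_num) (by omega)
    linarith
  have hz1 : (1 : ℝ) / 2 ^ (2 * a + 6) ≤ 1 := by linarith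
  have hδ0 : (0 : ℝ) ≤ 1 / 2 ^ a := by positivity
  have hδ1 : (1 : ℝ) / 2 ^ a ≤ 1 := by
    rw [div_le_one (by positivity)]
    exact one_le_pow₀ (by norm_num)
  have hT1 : pm C' n * pm C' n ≤ pT C C' n := by
    unfold pT
    omega
  have hT2 : pm C' n * pm C' n + pM C n * pm C' n ≤ pT C C' n := by
    unfold pT
    omega
  have hT3 : pm C' n * pm C' n + pM C n * pm C' n + pM C n * pm C' n ≤ pT C C' n := by
    unfold pT
    omega
  have hq : (0 : ℝ) ≤ (pQ a : ℝ) ^ pT C C' n := by positivity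
  have b1 := scale (pg1R (T := pT C C' n) hK hQ hz0.le hz1 hT1) h1 hq
  have b2 := scale (pg1C (T := pT C C' n) hK hQ hz0.le hz1 hT1) h1 hq
  have b3 := scale (pg1E (T := pT C C' n) (o := pm C' n * pm C' n) hK hQ hz0.le hz1 hT2) h2 hq
  have b4 := scale (pg1E (T := pT C C' n) (o := pm C' n * pm C' n + pM C n * pm C' n)
    hK hQ hz0.le hz1 hT3) h2 hq
  have b5 := scale (pg2 (T := pT C C' n) (o := pm C' n * pm C' n) (s := ps C n)
    hK hQ hz0 hz4 hD hT2) h3 hq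
  have b6 := scale (pg2 (T := pT C C' n) (o := pm C' n * pm C' n + pM C n * pm C' n)
    (s := ps C n) hK hQ hz0 hz4 hD hT3) h3 hq
  have b7 := scale (pg3 (T := pT C C' n) (s := ps C n) hK hQ hal hbe hδ0 hδ1 hT1) h4 hq
  -- the complement
  have c1 := compl_le
    (fun f : Fin (pT C C' n) → Fin (pQ a) =>
      GLab n (pm C' n) (pM C n) (ps C n) (pK a) (pD a) (pQ a) (1 / 2 ^ (2 * a + 6)) (1 / 2 ^ a)
        al be (xt f))
    (fun f => G1R (pm C' n) (pK a) (pD a) (pQ a) (1 / 2 ^ (2 * a + 6))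
      (fun a b => xt f (a * pm C' n + b)))
    (fun f => G1C (pm C' n) (pK a) (pD a) (pQ a) (1 / 2 ^ (2 * a + 6))
        (fun a b => xt f (a * pm C' n + b)) ∧
      G1E (pm C' n) (pM C n) (pD a) (pQ a) (1 / 2 ^ (2 * a + 6))
        (fun r b => xt f (pm C' n * pm C' n + (r * pm C' n + b))) ∧
      G1E (pm C' n) (pM C n) (pD a) (pQ a) (1 / 2 ^ (2 * a + 6))
        (fun r b => xt f (pm C' n * pm C' n + pM C n * pm C' n + (r * pm C' n + b))) ∧
      G2 (pm C' n) (pM C n) (ps C n) (pD a) (pQ a) (1 / 2 ^ (2 * a + 6))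
        (fun r b => xt f (pm C' n * pm C' n + (r * pm C' n + b))) ∧
      G2 (pm C' n) (pM C n) (ps C n) (pD a) (pQ a) (1 / 2 ^ (2 * a + 6))
        (fun r b => xt f (pm C' n * pm C' n + pM C n * pm C' n + (r * pm C' n + b))) ∧
      G3 n (pm C' n) (ps C n) (pK a) (pD a) (pQ a) (1 / 2 ^ a) al be
        (fun a b => xt f (a * pm C' n + b)))
    (fun f k1 k2 => ⟨k1, k2.1, k2.2.1, k2.2.2.1, k2.2.2.2.1, k2.2.2.2.2.1, k2.2.2.2.2.2⟩)
  have c2 := compl_le _ _ _ (fun (f : Fin (pT C C' n) → Fin (pQ a))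
    (k1 : G1C (pm C' n) (pK a) (pD a) (pQ a) (1 / 2 ^ (2 * a + 6))
        (fun a b => xt f (a * pm C' n + b)))
    (k2 : G1E (pm C' n) (pM C n) (pD a) (pQ a) (1 / 2 ^ (2 * a + 6))
        (fun r b => xt f (pm C' n * pm C' n + (r * pm C' n + b))) ∧
      G1E (pm C' n) (pM C n) (pD a) (pQ a) (1 / 2 ^ (2 * a + 6))
        (fun r b => xt f (pm C' n * pm C' n + pM C n * pm C' n + (r * pm C' n + b))) ∧
      G2 (pm C' n) (pM C n) (ps C n) (pD a) (pQ a) (1 / 2 ^ (2 * a + 6))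
        (fun r b => xt f (pm C' n * pm C' n + (r * pm C' n + b))) ∧
      G2 (pm C' n) (pM C n) (ps C n) (pD a) (pQ a) (1 / 2 ^ (2 * a + 6))
        (fun r b => xt f (pm C' n * pm C' n + pM C n * pm C' n + (r * pm C' n + b))) ∧
      G3 n (pm C' n) (ps C n) (pK a) (pD a) (pQ a) (1 / 2 ^ a) al be
        (fun a b => xt f (a * pm C' n + b))) => And.intro k1 k2)
  have c3 := compl_le _ _ _ (fun (f : Fin (pT C C' n) → Fin (pQ a))
    (k1 : G1E (pm C' n) (pM C n) (pD a) (pQ a) (1 / 2 ^ (2 * a + 6))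
        (fun r b => xt f (pm C' n * pm C' n + (r * pm C' n + b))))
    (k2 : G1E (pm C' n) (pM C n) (pD a) (pQ a) (1 / 2 ^ (2 * a + 6))
        (fun r b => xt f (pm C' n * pm C' n + pM C n * pm C' n + (r * pm C' n + b))) ∧
      G2 (pm C' n) (pM C n) (ps C n) (pD a) (pQ a) (1 / 2 ^ (2 * a + 6))
        (fun r b => xt f (pm C' n * pm C' n + (r * pm C' n + b))) ∧
      G2 (pm C' n) (pM C n) (ps C n) (pD a) (pQ a) (1 / 2 ^ (2 * a + 6))
        (fun r b => xt f (pm C' n * pm C' n + pM C n * pm C' n + (r * pm C' n + b))) ∧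
      G3 n (pm C' n) (ps C n) (pK a) (pD a) (pQ a) (1 / 2 ^ a) al be
        (fun a b => xt f (a * pm C' n + b))) => And.intro k1 k2)
  have c4 := compl_le _ _ _ (fun (f : Fin (pT C C' n) → Fin (pQ a))
    (k1 : G1E (pm C' n) (pM C n) (pD a) (pQ a) (1 / 2 ^ (2 * a + 6))
        (fun r b => xt f (pm C' n * pm C' n + pM C n * pm C' n + (r * pm C' n + b))))
    (k2 : G2 (pm C' n) (pM C n) (ps C n) (pD a) (pQ a) (1 / 2 ^ (2 * a + 6))
        (fun r b => xt f (pm C' n * pm C' n + (r * pm C' n + b))) ∧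
      G2 (pm C' n) (pM C n) (ps C n) (pD a) (pQ a) (1 / 2 ^ (2 * a + 6))
        (fun r b => xt f (pm C' n * pm C' n + pM C n * pm C' n + (r * pm C' n + b))) ∧
      G3 n (pm C' n) (ps C n) (pK a) (pD a) (pQ a) (1 / 2 ^ a) al be
        (fun a b => xt f (a * pm C' n + b))) => And.intro k1 k2)
  have c5 := compl_le _ _ _ (fun (f : Fin (pT C C' n) → Fin (pQ a))
    (k1 : G2 (pm C' n) (pM C n) (ps C n) (pD a) (pQ a) (1 / 2 ^ (2 * a + 6))
        (fun r b => xt f (pm C' n * pm C' n + (r * pm C' n + b))))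
    (k2 : G2 (pm C' n) (pM C n) (ps C n) (pD a) (pQ a) (1 / 2 ^ (2 * a + 6))
        (fun r b => xt f (pm C' n * pm C' n + pM C n * pm C' n + (r * pm C' n + b))) ∧
      G3 n (pm C' n) (ps C n) (pK a) (pD a) (pQ a) (1 / 2 ^ a) al be
        (fun a b => xt f (a * pm C' n + b))) => And.intro k1 k2)
  have c6 := compl_le _ _ _ (fun (f : Fin (pT C C' n) → Fin (pQ a))
    (k1 : G2 (pm C' n) (pM C n) (ps C n) (pD a) (pQ a) (1 / 2 ^ (2 * a + 6))
        (fun r b => xt f (pm C' n * pm C' n + pM C n * pm C' n + (r * pm C' n + b))))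
    (k2 : G3 n (pm C' n) (ps C n) (pK a) (pD a) (pQ a) (1 / 2 ^ a) al be
        (fun a b => xt f (a * pm C' n + b))) => And.intro k1 k2)
  have c7 := card_add
    (fun f : Fin (pT C C' n) → Fin (pQ a) =>
      GLab n (pm C' n) (pM C n) (ps C n) (pK a) (pD a) (pQ a) (1 / 2 ^ (2 * a + 6)) (1 / 2 ^ a)
        al be (xt f))
  have c8 : Nat.card (Fin (pT C C' n) → Fin (pQ a)) = pQ a ^ pT C C' n := by
    rw [Nat.card_eq_fintype_card, Fintype.card_fun, Fintype.card_fin, Fintype.card_fin]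
  rw [c8] at c7
  have c1' := (Nat.cast_le (α := ℝ)).2 c1
  have c2' := (Nat.cast_le (α := ℝ)).2 c2
  have c3' := (Nat.cast_le (α := ℝ)).2 c3
  have c4' := (Nat.cast_le (α := ℝ)).2 c4
  have c5' := (Nat.cast_le (α := ℝ)).2 c5
  have c6' := (Nat.cast_le (α := ℝ)).2 c6
  have c7' := congrArg (Nat.cast (R := ℝ)) c7
  rw [Nat.cast_add] at c1' c2' c3' c4' c5' c6' c7'
  rw [Nat.cast_pow] at c7'
  have hfin : (((pQ a) ^ pT C C' n : ℕ) : ℝ) ≤ ((2 * Nat.card {f : Fin (pT C C' n) → Fin (pQ a) //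
      GLab n (pm C' n) (pM C n) (ps C n) (pK a) (pD a) (pQ a) (1 / 2 ^ (2 * a + 6)) (1 / 2 ^ a) al be
        (xt f)} : ℕ) : ℝ) := by
    rw [Nat.cast_pow, Nat.cast_mul, Nat.cast_ofNat]
    linarith
  exact_mod_cast hfin

end Nwl
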