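import Pool.Agent.Lib.Nwl.RDefs

/-!
# Poly side: reading the input

MP_602ccf, project Nwl (owner helper29).

PROOF. `inp_w`, `pg_w`: as `Nsh.inp_of`, `Nsh.pg_gm` (`Pool/Agent/Lib/Nsh/PFin.lean`), in a general context.
`pre_w`: `encG x.1 ++ x.2 = un n ++ false :: (entries ++ x.2)`; `afterTrue` gives `entries ++ x.2`, and `skipQ^[2 * n ^ 2]` of it is `x.2`
(`skipQ_enc`, induction; the number of entries is `2 * n ^ 2` by `IsG`): `poly_skipQ_iter`. Then `encG x.1` is the prefix of length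
`(encG x.1 ++ x.2).length - x.2.length`: `PolyC.take`, `PolyN.length`, `PolyN.sub`.
-/

set_option autoImplicit false

namespace Nwl

open Finset Pool.Agent.Lib.PolyTime Pool.Agent.Lib.Pa7c826 Pool.Agent.Lib.P8e91ed.PT
open Pool.Agent.Lib.Pa7c826t Pool.Agent.Lib

/-! ### Auxiliary lemmas -/

namespace PInAux

theorem skipQ_append (ans : List ℚ) (rest : List Bool) :
    skipQ^[ans.length] (ans.flatMap Pool.Agent.Lib.P8e91ed.encQ ++ rest) = rest := by
  induction ans with
  | nil => rfl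
  | cons x ans ih =>
    rw [List.length_cons, Function.iterate_succ_apply, List.flatMap_cons, List.append_assoc,
      skipQ_enc, ih]

theorem take' {α : Type} {D : α → Prop} {ctx : List (α → List Bool)} {t : α → List Bool}
    {k : α → ℕ} (ht : PolyC D ctx t) (hk : PolyN D ctx k) :
    PolyC D ctx (fun a => (t a).take (k a)) :=
  (PolyC.reverse (PolyC.drop (PolyC.reverse ht) (PolyN.sub (PolyN.length ht) hk))).congr
    (fun a _ => by
      rw [← List.reverse_take, List.reverse_reverse])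

end PInAux

theorem inp_w {α : Type} {D : α → Prop} {ctx : List (α → List Bool)} {w : α → Game}
    (hw : PolyC D ctx (fun a => Nsh.encG (w a))) (h1 : ∀ a, D a → 1 ≤ (w a).1) :
    Inp D ctx (fun a => (((w a).1, 1, (w a).2) : ℕ × ℕ × List ℚ)) := by
  have hh : ∀ w : ℕ × List ℚ, Nsh.encG w =
      un w.1 ++ false :: w.2.flatMap Pool.Agent.Lib.P8e91ed.encQ := fun w => rfl
  refine ⟨?_, h1, fun _ _ => le_rfl⟩
  have h2 : PolyC D ctx (fun a => un (w a).1) :=
    hw.takeTrue.congr (fun a _ => by rw [hh, takeWhile_un])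
  have h3 : PolyC D ctx (fun a => (w a).2.flatMap Pool.Agent.Lib.P8e91ed.encQ) :=
    hw.afterTrue.congr (fun a _ => by rw [hh, afterTrue_un])
  exact (PolyC.append h2 (PolyC.cons false (PolyC.append (PolyC.const (un 1))
    (PolyC.cons false h3)))).congr (fun a _ => rfl)

theorem pg_w {α : Type} {D : α → Prop} {ctx : List (α → List Bool)} {w : α → Game}
    (hw : PolyC D ctx (fun a => Nsh.encG (w a))) (h1 : ∀ a, D a → 1 ≤ (w a).1) (p : ℕ) :
    Nsh.PG D ctx (fun a => Nsh.gm p (w a)) := by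
  have h := inp_w hw h1
  have hn : PolyN D ctx (fun a => (w a).1) := h.nN
  have hn' : PolyN (Dx D (fun a => (w a).1 * (w a).1)) (cx ctx)
      (fun p => (w p.1).1) := upN (n := fun a => (w a).1 * (w a).1) hn
  have hidx : PolyN (Dx D (fun a => (w a).1 * (w a).1)) (cx ctx)
      (fun q => q.2 / (w q.1).1 * (w q.1).1 + q.2 % (w q.1).1) :=
    (((P2ba8ab.nDiv' nL hn').mul hn').add (P2ba8ab.nMod' nL hn'))
  have hp : PolyN (Dx D (fun a => (w a).1 * (w a).1)) (cx ctx)
      (fun _ => 2 ^ p) := PolyN.const (2 ^ p)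
  refine ⟨hn, h1, Nsh.PM.mk hn ?_, Nsh.PM.mk hn ?_⟩
  · exact (h.up (n := fun a => (w a).1 * (w a).1)).nTab (p := fun _ => p) hp hidx
  · exact (h.up (n := fun a => (w a).1 * (w a).1)).nTab (p := fun _ => p) hp
      ((hn'.mul hn').add hidx)

theorem pre_w {D : Game × List Bool → Prop} (hD : ∀ x, D x → IsG x.1) :
    PolyC D [fun x => Nsh.encG x.1 ++ x.2] (fun x => Nsh.encG x.1) ∧
      PolyC D [fun x => Nsh.encG x.1 ++ x.2] (fun x => x.2) := by
  have h0 : PolyC D [fun x => Nsh.encG x.1 ++ x.2]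
      (fun x : Game × List Bool => Nsh.encG x.1 ++ x.2) := PolyC.var (by simp)
  have hh : ∀ x : Game × List Bool, Nsh.encG x.1 ++ x.2 =
      un x.1.1 ++ false :: (x.1.2.flatMap Pool.Agent.Lib.P8e91ed.encQ ++ x.2) := fun x => by
    show (List.replicate x.1.1 true ++ false :: x.1.2.flatMap Pool.Agent.Lib.P8e91ed.encQ) ++ x.2 =
      List.replicate x.1.1 true ++ false :: (x.1.2.flatMap Pool.Agent.Lib.P8e91ed.encQ ++ x.2)
    rw [List.append_assoc, List.cons_append]
  have hn : PolyN D [fun x => Nsh.encG x.1 ++ x.2] (fun x : Game × List Bool => x.1.1) :=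
    (PolyN.length h0.takeTrue).congr (fun x _ => by rw [hh, takeWhile_un, un_length])
  have h1 : PolyC D [fun x => Nsh.encG x.1 ++ x.2] (fun x : Game × List Bool =>
      x.1.2.flatMap Pool.Agent.Lib.P8e91ed.encQ ++ x.2) :=
    h0.afterTrue.congr (fun x _ => by rw [hh, afterTrue_un])
  have h2 : PolyC D [fun x => Nsh.encG x.1 ++ x.2] (fun x : Game × List Bool => x.2) :=
    (poly_skipQ_iter h1 ((PolyN.const 2).mul (PolyN.pow hn 2))).congr (fun x hx => by
      have h3 : x.1.2.length = 2 * x.1.1 ^ 2 := (hD x hx).2.1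
      rw [← h3, PInAux.skipQ_append])
  refine ⟨?_, h2⟩
  refine (PInAux.take' h0 (PolyN.sub (PolyN.length h0) (PolyN.length h2))).congr (fun x _ => ?_)
  rw [List.length_append, Nat.add_sub_cancel, List.take_left]

end Nwl
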