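import Pool.Agent.Lib.Nwl.RDefs

/-!
# Poly side: reading the output of the subroutine, writing the output

MP_602ccf, project Nwl (owner helper29).

PROOF. `p_nmb`: `drest^[k]` as `poly_skipQ_iter` in `Pool/Agent/Lib/P8e91ed/PolyIn.lean` (`PolyC.natRec`; `(drest l).length ≤ l.length`), `poly_dfst`.
`v_rdw`: `PV.mk`, `n_card`, `PolyP.and`, `PolyP.binle` as in `Inp.nTab` (same file). `p_outp`: `pj` is an inner sum (`nSum`, `PV.get` at the index
`i * m + a < n * m`), `Nsh.p_tot`; then as `Nsh.p_sol` (`Pool/Agent/Lib/Nsh/PFin.lean`).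
-/

set_option autoImplicit false

namespace Nwl

open Finset Pool.Agent.Lib.PolyTime Pool.Agent.Lib.Pa7c826 Pool.Agent.Lib.P8e91ed.PT
open Pool.Agent.Lib.Pa7c826t Pool.Agent.Lib Nsh

variable {α : Type} {D : α → Prop} {ctx : List (α → List Bool)}

namespace POutAux

theorem poly_drest_iter {t : α → List Bool} {k : α → ℕ} (ht : PolyC D ctx t)
    (hk : PolyN D ctx k) : PolyC D ctx (fun a => drest^[k a] (t a)) := by
  obtain ⟨pt, hpt⟩ := ht.length_le
  refine PolyC.natRec (fun a k => drest^[k] (t a)) hk ht ?_ ⟨pt, fun a ha k hk' => ?_⟩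
  · have h1 : PolyC (fun p : α × ℕ => D p.1 ∧ p.2 < k p.1)
        (PolyTime.lift ctx ++ [fun p => un p.2, fun p => drest^[p.2] (t p.1)])
        (fun p => drest^[p.2] (t p.1)) := PolyC.var (by simp)
    exact (poly_drest h1).congr (fun p _ => by rw [Function.iterate_succ_apply'])
  · refine le_trans ?_ (hpt a ha)
    clear hk'
    induction k with
    | zero => rfl
    | succ k ih =>
      rw [Function.iterate_succ_apply']
      refine le_trans ?_ ih
      simp only [drest, List.length_drop]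
      omega

end POutAux

theorem p_nmb {s : α → List Bool} {k : α → ℕ} (hs : PolyC D ctx s) (hk : PolyN D ctx k) :
    PolyBin D ctx (fun a => nmb (s a) (k a)) :=
  ⟨_, poly_dfst (POutAux.poly_drest_iter hs hk), fun _ _ => rfl⟩

namespace POutAux

theorem p_rdw {s : α → List Bool} {B k : α → ℕ} (hs : PolyC D ctx s) (hB : PolyN D ctx B)
    (hk : PolyN D ctx k) : PolyN D ctx (fun a => rdw (B a) (s a) (k a)) := by
  have h1 : PolyBin D ctx (fun a => nmb (s a) (2 * k a + 1)) :=
    p_nmb hs ((PolyN.const 2).mul hk).succ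
  have h2 : PolyBin D ctx (fun a => nmb (s a) (2 * k a)) := p_nmb hs ((PolyN.const 2).mul hk)
  unfold rdw
  exact n_card (P := fun a t => 1 ≤ nmb (s a) (2 * k a + 1) ∧
      (t + 1) * nmb (s a) (2 * k a + 1) ≤ B a * nmb (s a) (2 * k a)) hB
    ((PolyP.binle (bin_const 1) (bin_up h1)).and
      (PolyP.binle (bin_mul (bin_ofN (PolyN.succ nL)) (bin_up h1))
        (bin_mul (bin_up (bin_ofN hB)) (bin_up h2))))

end POutAux

theorem v_rdw {s : α → List Bool} {B n o : α → ℕ} (hs : PolyC D ctx s) (hB : PolyN D ctx B)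
    (hn : PolyN D ctx n) (ho : PolyN D ctx o) :
    PV D ctx n (fun a k => rdw (B a) (s a) (o a + k)) := by
  exact PV.mk hn (POutAux.p_rdw (cU hs) (nU hB) ((nU ho).add nL))

theorem p_outp {n m : α → ℕ} {X Y : α → ℕ → ℕ} (hn : PolyN D ctx n) (hm : PolyN D ctx m)
    (hX : PV D ctx (fun a => n a * m a) X) (hY : PV D ctx (fun a => n a * m a) Y) :
    PolyC D ctx (fun a => encO (outp (n a) (m a) (X a) (Y a))) := by
  have key : ∀ {x : α → ℕ → ℕ}, PV D ctx (fun a => n a * m a) x →
      PolyC D ctx (fun a => ((List.range (n a)).map fun i =>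
        (pj (m a) (x a) i, tot (n a * m a) (x a))).flatMap Pool.Agent.Lib.P8e91ed.encOut) := by
    intro x hx
    have h1 : PolyN (Dx D n) (cx ctx) (fun q => pj (m q.1) (x q.1) q.2) := by
      refine nSum (n := fun q : α × ℕ => m q.1) (f := fun q b => x q.1 (q.2 * m q.1 + b)) (nU hm) ?_
      refine PV.get (n := fun q : (α × ℕ) × ℕ => n q.1.1 * m q.1.1)
        (f := fun q : (α × ℕ) × ℕ => x q.1.1) (i := fun q => q.1.2 * m q.1.1 + q.2)
        (hx.up.up) (((nU nL).mul (nU (nU hm))).add nL) ?_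
      rintro ⟨⟨a, i⟩, b⟩ ⟨⟨_, hi⟩, hb⟩
      have hi' : i < n a := hi
      have hb' : b < m a := hb
      show i * m a + b < n a * m a
      calc i * m a + b < i * m a + m a := by omega
        _ = (i + 1) * m a := by ring
        _ ≤ n a * m a := Nat.mul_le_mul_right _ hi'
    have h2 : PolyN D ctx (fun a => tot (n a * m a) (x a)) := p_tot (hn.mul hm) hx
    have h3 : PolyN (Dx D n) (cx ctx) (fun q => tot (n q.1 * m q.1) (x q.1)) := upN (n := n) h2
    have h4 : PolyC (Dx D n) (cx ctx) (fun q => Pool.Agent.Lib.P8e91ed.encOut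
        (pj (m q.1) (x q.1) q.2, tot (n q.1 * m q.1) (x q.1))) :=
      PolyC.append (cDbl (bin_bits (bin_ofN h1))) (cDbl (bin_bits (bin_ofN h3)))
    refine (PolyC.flatMap_range (n := n) (t := fun q => Pool.Agent.Lib.P8e91ed.encOut
        (pj (m q.1) (x q.1) q.2, tot (n q.1 * m q.1) (x q.1))) hn h4).congr ?_
    intro w _
    rw [List.flatMap_map]
  exact PolyC.append (key hX) (key hY)

end Nwl
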