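import Pool.Agent.Lib.Nwl.RDefs

/-!
# Poly side: code of a game

MP_602ccf, project Nwl (owner helper29).

PROOF. `c_tab`: induction on `K` as `binTable` in `Pool/Agent/Lib/P8e91ed/PolyOut.lean`, with `Pool.Agent.Lib.Wsm.c_ite` (`Pool/Agent/Lib/Wsm/PTab.lean`) and `PolyC.const`.
`c_game`: `encG (gm2 N c qa qb) = un N ++ false :: ((range (N * N)).flatMap (encQ (qa (c ..))) ++ (range (N * N)).flatMap (encQ (qb (c ..))))`
(`List.flatMap_append`, `List.flatMap_map`); `PolyC.append`, `PolyC.cons`, `PolyC.flatMap_range`, `c_tab` for `encQ ∘ qa`, `encQ ∘ qb`. Model: `Nsh.p_sol`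
(`Pool/Agent/Lib/Nsh/PFin.lean`).
-/

set_option autoImplicit false

namespace Nwl

open Finset Pool.Agent.Lib.PolyTime Pool.Agent.Lib.Pa7c826 Pool.Agent.Lib.P8e91ed.PT
open Pool.Agent.Lib.Pa7c826t Pool.Agent.Lib

theorem c_tab (g : ℕ → List Bool) (K : ℕ) : ∀ {α : Type} {D : α → Prop} {ctx : List (α → List Bool)}
    {f : α → ℕ}, PolyN D ctx f → (∀ a, D a → f a ≤ K) → PolyC D ctx (fun a => g (f a)) := by
  induction K with
  | zero =>
    intro α D ctx f _ hfc
    exact (PolyC.const (g 0)).congr (fun a ha => by rw [Nat.le_zero.1 (hfc a ha)])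
  | succ K ih =>
    intro α D ctx f hf hfc
    have h1 := PolyC.ite (D := D) (ctx := ctx) (PolyB.natEq hf (PolyN.const (K + 1)))
      (PolyC.const (g (K + 1)))
      (ih (f := f) (PolyC.mono hf fun _ h => h.1) (fun a ha => by
        have h2 := hfc a ha.1
        have h3 : f a ≠ K + 1 := by simpa using ha.2
        omega))
    refine h1.congr (fun a _ => ?_)
    by_cases h2 : f a = K + 1
    · simp [h2]
    · simp [h2]

variable {α : Type} {D : α → Prop} {ctx : List (α → List Bool)}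

theorem c_game {N : α → ℕ} {c : α → ℕ → ℕ → ℕ} (qa qb : ℕ → ℚ) (K : ℕ) (hN : PolyN D ctx N)
    (hc : PolyN (Dx D (fun a => N a * N a)) (cx ctx)
      (fun p => c p.1 (p.2 / N p.1) (p.2 % N p.1)))
    (hK : ∀ a, D a → ∀ k l, c a k l ≤ K) :
    PolyC D ctx (fun a => Nsh.encG (gm2 (N a) (c a) qa qb)) := by
  have key : ∀ q : ℕ → ℚ, PolyC D ctx (fun a => (List.range (N a * N a)).flatMap (fun t =>
      Pool.Agent.Lib.P8e91ed.encQ (q (c a (t / N a) (t % N a))))) := by
    intro q
    exact PolyC.flatMap_range (n := fun a => N a * N a)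
      (t := fun p => Pool.Agent.Lib.P8e91ed.encQ (q (c p.1 (p.2 / N p.1) (p.2 % N p.1))))
      (hN.mul hN) (c_tab (fun v => Pool.Agent.Lib.P8e91ed.encQ (q v)) K hc
        (fun p hp => hK p.1 hp.1 _ _))
  refine (PolyC.append hN (PolyC.cons false (PolyC.append (key qa) (key qb)))).congr ?_
  intro a _
  unfold Nsh.encG gm2
  rw [List.flatMap_append, List.flatMap_map, List.flatMap_map]
  rfl

end Nwl
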