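import Pool.Agent.Lib.Nwl.Defs
import Pool.Agent.Lib.Nsh.PFin

/-!
# Completeness of 0/1 games: algorithms

MP_602ccf, project Nwl (owner helper29). The definitions below are those of the hand-ins.
-/

set_option autoImplicit false

namespace Nwl

open Finset

/-- An input `(n, entries)`: the `n²` entries of `A`, row by row, followed by those of `B`. -/
abbrev Game := ℕ × List ℚ

/-- Positively normalized games: `n ≥ 1`, and `2 n²` entries, all in `[0, 1]`. -/
def IsG (w : Game) : Prop := 1 ≤ w.1 ∧ w.2.length = 2 * w.1 ^ 2 ∧ ∀ q ∈ w.2, 0 ≤ q ∧ q ≤ 1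

/-- Matrix of the row player. -/
def mA (w : Game) (i j : Fin w.1) : ℝ := ((w.2.getD (i * w.1 + j) 0 : ℚ) : ℝ)

/-- Matrix of the column player. -/
def mB (w : Game) (i j : Fin w.1) : ℝ := ((w.2.getD (w.1 ^ 2 + (i * w.1 + j)) 0 : ℚ) : ℝ)

/-- The strategy given by a list of fractions. -/
noncomputable def strat (n : ℕ) (l : List (ℕ × ℕ)) (i : Fin n) : ℝ :=
  ((l.getD i (0, 1)).1 : ℝ) / ((l.getD i (0, 1)).2 : ℝ)

/-- The output `o` is an `ε`-approximate equilibrium of the game `w`: two lists of `n` fractions. -/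
def Sol (ε : ℝ) (w : Game) (o : List (ℕ × ℕ) × List (ℕ × ℕ)) : Prop :=
  o.1.length = w.1 ∧ o.2.length = w.1 ∧ Nvc.ANash ε (mA w) (mB w) (strat w.1 o.1) (strat w.1 o.2)

/-- polynomial-time algorithm -/
def Easy (ε : ℝ) (𝒢 : Game → Prop) : Prop :=
  ∃ F : Game → List (ℕ × ℕ) × List (ℕ × ℕ),
    Nonempty (Turing.TM2ComputableInPolyTime (α := {w : Game // IsG w ∧ 𝒢 w}) (αΓ := Bool)
      (βΓ := Bool) (fun w => Nsh.encG w.1) Nsh.encO (fun w => F w.1)) ∧
    ∀ w : Game, IsG w → 𝒢 w → Sol ε w (F w)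

/-- randomised polynomial-time algorithm; the random bits are appended to the input -/
def REasy (ε : ℝ) (𝒢 : Game → Prop) : Prop :=
  ∃ (m : Polynomial ℕ) (F : Game → List Bool → List (ℕ × ℕ) × List (ℕ × ℕ)) (c : ℝ),
    Nonempty (Turing.TM2ComputableInPolyTime
      (α := {x : Game × List Bool // (IsG x.1 ∧ 𝒢 x.1) ∧ x.2.length = m.eval (Nsh.encG x.1).length})
      (αΓ := Bool) (βΓ := Bool) (fun x => Nsh.encG x.1.1 ++ x.1.2) Nsh.encO
      (fun x => F x.1.1 x.1.2)) ∧ 0 < c ∧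
    ∀ w : Game, IsG w → 𝒢 w → c * 2 ^ m.eval (Nsh.encG w).length ≤
      Nat.card {r : Fin (m.eval (Nsh.encG w).length) → Bool // Sol ε w (F w (List.ofFn r))}

/-- games in which the row player's payoffs are `0` or `1` -/
def RowWL (w : Game) : Prop := ∀ i j, mA w i j = 0 ∨ mA w i j = 1

/-- win-lose games in which at most one player wins -/
def WL (w : Game) : Prop := ∀ i j, (mA w i j = 0 ∧ mB w i j = 0) ∨ (mA w i j = 1 ∧ mB w i j = 0) ∨
  (mA w i j = 0 ∧ mB w i j = 1)

/-- number `k` of a coded list of numbers -/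
noncomputable def nmb (s : List Bool) (k : ℕ) : ℕ :=
  Pool.Agent.Lib.Pa7c826.bval (Pool.Agent.Lib.P8e91ed.PT.dfst (Pool.Agent.Lib.P8e91ed.PT.drest^[k] s))

/-- fraction number `k` of a coded list of fractions, multiplied by `B` and rounded down -/
noncomputable def rdw (B : ℕ) (s : List Bool) (k : ℕ) : ℕ :=
  ((range B).filter fun t => 1 ≤ nmb s (2 * k + 1) ∧
    (t + 1) * nmb s (2 * k + 1) ≤ B * nmb s (2 * k)).card

/-! ### The reductions -/

/-- game of Theorem 1, for the accuracy `2 ^ (-p)` -/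
noncomputable def g1 (p : ℕ) (w : Game) : Game :=
  gm2 (w.1 * 2 ^ p) (ce1 (2 ^ p) (Nsh.gm p w).A (Nsh.gm p w).B) (fun v => ((v % 2 : ℕ) : ℚ))
    (fun v => ((v / 2 : ℕ) : ℚ) / (3 * 2 ^ p))

/-- output of the reduction of Theorem 1; `s` is the output of the algorithm for the game `g1` -/
noncomputable def o1 (p t : ℕ) (w : Game) (s : List Bool) : List (ℕ × ℕ) × List (ℕ × ℕ) :=
  outp w.1 (2 ^ p) (fun k => rdw (w.1 * 2 ^ p * 2 ^ t) s k)
    (fun k => rdw (w.1 * 2 ^ p * 2 ^ t) s (w.1 * 2 ^ p + k))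

/-- thresholds of the row player -/
noncomputable def al2 (a : ℕ) (w : Game) (i j : ℕ) : ℕ := 2 ^ a + (Nsh.gm a w).A i j

/-- thresholds of the column player -/
noncomputable def be2 (a : ℕ) (w : Game) (i j : ℕ) : ℕ := 2 ^ a + (Nsh.gm a w).B i j

/-- number of rows of the game of Theorem 2 -/
def n2 (C C' n : ℕ) : ℕ := n * pm C' n + 2 * pM C n

/-- cells of the game of Theorem 2 -/
noncomputable def c2 (a C C' : ℕ) (w : Game) (r : List Bool) : ℕ → ℕ → ℕ :=
  ce2 w.1 (pm C' w.1) (pM C w.1) (pD a) (pQ a) (al2 a w) (be2 a w) (lb (2 * a + 5) r)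

/-- game of Theorem 2, for the accuracy `2 ^ (-a)`; `r` are the random bits -/
noncomputable def g2 (a C C' : ℕ) (w : Game) (r : List Bool) : Game :=
  gm2 (n2 C C' w.1) (c2 a C C' w r) (fun v => if v = 1 then 1 else 0) (fun v => if v = 2 then 1 else 0)

/-- output of the reduction of Theorem 2; `s` is the output of the algorithm for the game `g2` -/
noncomputable def o2 (a C C' : ℕ) (w : Game) (s : List Bool) : List (ℕ × ℕ) × List (ℕ × ℕ) :=
  outp w.1 (pm C' w.1) (fun k => rdw (n2 C C' w.1 * 2 ^ (2 * a + 9)) s k)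
    (fun k => rdw (n2 C C' w.1 * 2 ^ (2 * a + 9)) s (n2 C C' w.1 + k))

end Nwl
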