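import Pool.Agent.Lib.Nwl.RDefs

/-!
# Reading a coded output

MP_602ccf, project Nwl (owner helper29).

PROOF. `encO o` is the concatenation of the codes `dbl (bits num) ++ dbl (bits den)` of the fractions of `o.1` and then of `o.2`; `drest` removes one
`dbl` block (`drest_dbl`), `dfst` reads it (`dfst_dbl`), `bval_bits`. So (induction) `nmb (encO o) (2 * k)` and `nmb (encO o) (2 * k + 1)` are the numerator and
the denominator of the fraction number `k` of `o.1 ++ o.2`. `rdw`: for `den = 0` it is `0` and the fraction is `num / 0 = 0`; otherwise the number of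
`t < B` with `t + 1 ≤ B * num / den`, which is `⌊B * num / den⌋₊` as `num / den ≤ 1` (a coordinate of a point of the simplex).
-/

set_option autoImplicit false

namespace Nwl

open Finset

namespace RdAux

open Pool.Agent.Lib.P8e91ed Pool.Agent.Lib.P8e91ed.PT

theorem drest2 (y : ℕ × ℕ) (rest : List Bool) : drest (drest (encOut y ++ rest)) = rest := by
  unfold encOut
  rw [List.append_assoc, drest_dbl, drest_dbl]

theorem iter_drest (l : List (ℕ × ℕ)) : ∀ k, k ≤ l.length →
    drest^[2 * k] (l.flatMap encOut) = (l.drop k).flatMap encOut := by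
  induction l with
  | nil =>
    intro k hk
    have : k = 0 := by simpa using hk
    subst this
    rfl
  | cons y l ih =>
    intro k hk
    rcases k with _ | k
    · rfl
    · have h1 : 2 * (k + 1) = 2 * k + 1 + 1 := by ring
      rw [h1, Function.iterate_succ_apply, Function.iterate_succ_apply, List.flatMap_cons, drest2,
        ih k (by simpa using hk), List.drop_succ_cons]

theorem rdw_of {B k a b : ℕ} {s : List Bool} (h1 : nmb s (2 * k) = a) (h2 : nmb s (2 * k + 1) = b)
    (hab : (a : ℝ) / (b : ℝ) ≤ 1) :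
    (rdw B s k : ℝ) ≤ B * ((a : ℝ) / (b : ℝ)) ∧ B * ((a : ℝ) / (b : ℝ)) < rdw B s k + 1 := by
  unfold rdw
  rw [h1, h2]
  rcases Nat.eq_zero_or_pos b with hb | hb
  · subst hb
    have h3 : ((range B).filter fun t => 1 ≤ 0 ∧ (t + 1) * 0 ≤ B * a) = ∅ := by
      refine Finset.filter_eq_empty_iff.2 fun t _ h => ?_
      exact absurd h.1 (by norm_num)
    rw [h3]
    simp
  · have hb' : (0 : ℝ) < b := by exact_mod_cast hb
    have hab' : a ≤ b := by
      rw [div_le_one hb'] at hab
      exact_mod_cast hab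
    have h3 : ((range B).filter fun t => 1 ≤ b ∧ (t + 1) * b ≤ B * a) = range (B * a / b) := by
      ext t
      simp only [Finset.mem_filter, Finset.mem_range]
      constructor
      · rintro ⟨_, _, h⟩
        exact (Nat.le_div_iff_mul_le hb).2 h
      · intro h
        have h4 : (t + 1) * b ≤ B * a := (Nat.le_div_iff_mul_le hb).1 h
        refine ⟨?_, hb, h4⟩
        have h5 : B * a / b ≤ B := by
          apply Nat.div_le_of_le_mul
          calc B * a ≤ B * b := Nat.mul_le_mul_left _ hab'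
            _ = b * B := Nat.mul_comm _ _
        omega
    rw [h3, Finset.card_range]
    have h6 : (B : ℝ) * ((a : ℝ) / (b : ℝ)) = ((B * a : ℕ) : ℝ) / (b : ℝ) := by
      push_cast
      ring
    rw [h6]
    have h7 : ⌊((B * a : ℕ) : ℝ) / (b : ℝ)⌋₊ = B * a / b := Nat.floor_div_eq_div _ _
    rw [← h7]
    exact ⟨Nat.floor_le (by positivity), Nat.lt_floor_add_one _⟩

theorem le_one {N : ℕ} {x : ℕ → ℝ} (hx : Nsh.Mix N x) {k : ℕ} (hk : k < N) : x k ≤ 1 := by
  rw [← hx.sum]
  exact Finset.single_le_sum (f := x) (fun i hi => hx.nn i (Finset.mem_range.1 hi))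
    (Finset.mem_range.2 hk)

end RdAux

theorem nmb_encO (o : List (ℕ × ℕ) × List (ℕ × ℕ)) (k : ℕ) (hk : k < (o.1 ++ o.2).length) :
    nmb (Nsh.encO o) (2 * k) = ((o.1 ++ o.2).getD k (0, 1)).1 ∧
      nmb (Nsh.encO o) (2 * k + 1) = ((o.1 ++ o.2).getD k (0, 1)).2 := by
  have h0 : Nsh.encO o = (o.1 ++ o.2).flatMap Pool.Agent.Lib.P8e91ed.encOut := by
    unfold Nsh.encO
    rw [List.flatMap_append]
  have h1 := RdAux.iter_drest (o.1 ++ o.2) k hk.le
  rw [List.drop_eq_getElem_cons hk, List.flatMap_cons] at h1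
  rw [List.getD_eq_getElem _ _ hk]
  unfold nmb
  constructor
  · rw [h0, h1]
    unfold Pool.Agent.Lib.P8e91ed.encOut
    rw [List.append_assoc, Pool.Agent.Lib.P8e91ed.PT.dfst_dbl,
      Pool.Agent.Lib.P8e91ed.PT.bval_bits]
  · rw [h0, Function.iterate_succ_apply', h1]
    unfold Pool.Agent.Lib.P8e91ed.encOut
    rw [List.append_assoc, Pool.Agent.Lib.P8e91ed.PT.drest_dbl,
      Pool.Agent.Lib.P8e91ed.PT.dfst_dbl, Pool.Agent.Lib.P8e91ed.PT.bval_bits]

theorem rdw_encO {N B : ℕ} {o : List (ℕ × ℕ) × List (ℕ × ℕ)} (h1 : o.1.length = N) (h2 : o.2.length = N)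
    (hx : Nsh.Mix N (fun k => ((o.1.getD k (0, 1)).1 : ℝ) / ((o.1.getD k (0, 1)).2 : ℝ)))
    (hy : Nsh.Mix N (fun k => ((o.2.getD k (0, 1)).1 : ℝ) / ((o.2.getD k (0, 1)).2 : ℝ))) :
    (∀ k < N, (rdw B (Nsh.encO o) k : ℝ) ≤
        B * (((o.1.getD k (0, 1)).1 : ℝ) / ((o.1.getD k (0, 1)).2 : ℝ)) ∧
      B * (((o.1.getD k (0, 1)).1 : ℝ) / ((o.1.getD k (0, 1)).2 : ℝ)) < rdw B (Nsh.encO o) k + 1) ∧
    (∀ k < N, (rdw B (Nsh.encO o) (N + k) : ℝ) ≤
        B * (((o.2.getD k (0, 1)).1 : ℝ) / ((o.2.getD k (0, 1)).2 : ℝ)) ∧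
      B * (((o.2.getD k (0, 1)).1 : ℝ) / ((o.2.getD k (0, 1)).2 : ℝ)) < rdw B (Nsh.encO o) (N + k) + 1) := by
  constructor
  · intro k hk
    have hk' : k < (o.1 ++ o.2).length := by
      rw [List.length_append, h1]
      omega
    obtain ⟨h3, h4⟩ := nmb_encO o k hk'
    rw [List.getD_append _ _ _ _ (by rw [h1]; exact hk)] at h3 h4
    exact RdAux.rdw_of h3 h4 (RdAux.le_one hx hk)
  · intro k hk
    have hk' : N + k < (o.1 ++ o.2).length := by
      rw [List.length_append, h1, h2]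
      omega
    obtain ⟨h3, h4⟩ := nmb_encO o (N + k) hk'
    rw [List.getD_append_right _ _ _ _ (by rw [h1]; omega), h1, Nat.add_sub_cancel_left] at h3 h4
    exact RdAux.rdw_of h3 h4 (RdAux.le_one hy hk)

end Nwl
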