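import Pool.Agent.Lib.Nwl.Sol1
import Pool.Agent.Lib.Nwl.PTab
import Pool.Agent.Lib.Nwl.PIn
import Pool.Agent.Lib.Nwl.POut
import Pool.Agent.Lib.Nwl.PCell

/-!
# Theorem 1: a 0/1 row matrix is no restriction

MP_602ccf, project Nwl (owner helper29).

PROOF. Choose `p`, `t ≥ 1` with `1 / 2 ^ p + 24 / 2 ^ t ≤ ε / 5`. From `h`: `F'` and its machine. `F w = o1 p t w (encO (F' (g1 p w)))`; `sol1`, `g1_spec`.
Machine: ctx `[encG]`, `D w = IsG w`; `pg_w` (with `PolyC.var`) gives `PM` of `(gm p w).A`, `.B`; `p_ce1` and `c_game` (`K := 6 * 2 ^ p + 1`, `ce1_le`) give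
`PolyC (encG (g1 p w))`; `PolyC.applyTM2` (`Pool/Agent/Lib/Pa7c826/Transfer.lean`, used as in `Pool/Agent/Lib/Pa7c826m/HRed.lean`, `transfer4`) gives
`PolyC (encO (F' (g1 p w)))`; `v_rdw` twice (offsets `0` and `w.1 * 2 ^ p`), `p_outp`; `PolyC.toTM2 encG _ encO`. For the domain
`IsG w ∧ True` restrict with `PolyC.mono` or use `D w = IsG w ∧ True`.
-/

set_option autoImplicit false

namespace Nwl

open Finset Nsh Pool.Agent.Lib.PolyTime Pool.Agent.Lib.Pa7c826 Pool.Agent.Lib.P8e91ed.PT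
open Pool.Agent.Lib.Pa7c826t Pool.Agent.Lib

theorem Red1Aux.tab_le (p : ℕ) (ans : List ℚ) (i : ℕ) :
    Pool.Agent.Lib.P8e91ed.tabOf p ans i ≤ 2 ^ p := by
  unfold Pool.Agent.Lib.P8e91ed.tabOf
  refine (card_filter_le _ _).trans ?_
  simp

/-- the code of the game of Theorem 1 is computable in polynomial time -/
theorem Red1Aux.p_g1 {D : Game → Prop} (hD : ∀ w, D w → 1 ≤ w.1) (p : ℕ) :
    PolyC D [Nsh.encG] (fun w => Nsh.encG (g1 p w)) := by
  have hw : PolyC D [Nsh.encG] (fun w : Game => Nsh.encG w) := PolyC.var (by simp)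
  have hg : Nsh.PG D [Nsh.encG] (fun w : Game => Nsh.gm p w) := pg_w hw hD p
  have hn : PolyN D [Nsh.encG] (fun w : Game => w.1) := hg.n
  have ha : Nsh.PM D [Nsh.encG] (fun w : Game => w.1) (fun w => (Nsh.gm p w).A) := hg.A
  have hb : Nsh.PM D [Nsh.encG] (fun w : Game => w.1) (fun w => (Nsh.gm p w).B) := hg.B
  have hK : 0 < 2 ^ p := by positivity
  have hc := p_ce1 (K := 2 ^ p) hK hn ha hb
  have hN : PolyN D [Nsh.encG] (fun w : Game => w.1 * 2 ^ p) := hn.mul (PolyN.const (2 ^ p))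
  exact c_game (N := fun w : Game => w.1 * 2 ^ p)
    (c := fun w => ce1 (2 ^ p) (Nsh.gm p w).A (Nsh.gm p w).B) (fun v => ((v % 2 : ℕ) : ℚ))
    (fun v => ((v / 2 : ℕ) : ℚ) / (3 * 2 ^ p)) (6 * 2 ^ p + 1) hN hc
    (fun w _ k l => (ce1_le (fun i j => Red1Aux.tab_le p _ _)
      (fun i j => Red1Aux.tab_le p _ _) k l).2)

/-- the output of the reduction is computable in polynomial time from the input and from the
output of the subroutine -/
theorem Red1Aux.p_o1 {D : Game → Prop} (hD : ∀ w, D w → 1 ≤ w.1) (p t : ℕ)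
    {s : Game → List Bool} (hs : PolyC D [Nsh.encG] s) :
    PolyC D [Nsh.encG] (fun w => Nsh.encO (o1 p t w (s w))) := by
  have hw : PolyC D [Nsh.encG] (fun w : Game => Nsh.encG w) := PolyC.var (by simp)
  have hg : Nsh.PG D [Nsh.encG] (fun w : Game => Nsh.gm p w) := pg_w hw hD p
  have hn : PolyN D [Nsh.encG] (fun w : Game => w.1) := hg.n
  have hm : PolyN D [Nsh.encG] (fun _ : Game => 2 ^ p) := PolyN.const (2 ^ p)
  have hN : PolyN D [Nsh.encG] (fun w : Game => w.1 * 2 ^ p) := hn.mul hm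
  have hB : PolyN D [Nsh.encG] (fun w : Game => w.1 * 2 ^ p * 2 ^ t) :=
    hN.mul (PolyN.const (2 ^ t))
  have hX := v_rdw hs hB hN (PolyN.const (D := D) (ctx := [Nsh.encG]) 0)
  have hY := v_rdw hs hB hN hN
  refine (p_outp (n := fun w : Game => w.1) (m := fun _ => 2 ^ p)
    (X := fun w k => rdw (w.1 * 2 ^ p * 2 ^ t) (s w) k)
    (Y := fun w k => rdw (w.1 * 2 ^ p * 2 ^ t) (s w) (w.1 * 2 ^ p + k)) hn hm ?_ hY).congr
    (fun w _ => rfl)
  exact hX.congr (fun w _ k _ => by rw [Nat.zero_add])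

theorem Red1Aux.params {ε : ℝ} (hε : 0 < ε) :
    ∃ p t : ℕ, 1 ≤ t ∧ (1 : ℝ) / 2 ^ p + 24 / 2 ^ t ≤ ε / 5 := by
  obtain ⟨n, hn⟩ := pow_unbounded_of_one_lt (125 / ε) (one_lt_two)
  refine ⟨n, n + 1, by omega, ?_⟩
  have h2 : (0 : ℝ) < 2 ^ n := by positivity
  have h3 : 125 < 2 ^ n * ε := (div_lt_iff₀ hε).1 hn
  rw [pow_succ, div_add_div _ _ h2.ne' (by positivity), div_le_div_iff₀ (by positivity)
    (by norm_num)]
  nlinarith [mul_pos h2 h2, mul_pos h2 hε, mul_lt_mul_of_pos_left h3 h2]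

theorem red1 {ε : ℝ} (hε : 0 < ε) (h : Easy (ε / 5) RowWL) : Easy ε (fun _ => True) := by
  obtain ⟨F', hF', hsol⟩ := h
  obtain ⟨p, t, ht, hpt⟩ := Red1Aux.params hε
  refine ⟨fun w => o1 p t w (Nsh.encO (F' (g1 p w))), ?_, ?_⟩
  · refine PolyC.toTM2 (D := fun w : Game => IsG w ∧ True) Nsh.encG
      (fun w => o1 p t w (Nsh.encO (F' (g1 p w)))) Nsh.encO ?_
    have hD : ∀ w : Game, (IsG w ∧ True) → 1 ≤ w.1 := fun w hw => hw.1.1
    refine Red1Aux.p_o1 hD p t ?_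
    refine PolyC.applyTM2 hF' _ _ (Red1Aux.p_g1 hD p) ?_
    intro w hw
    exact ⟨⟨g1 p w, g1_spec p hw.1⟩, rfl, rfl⟩
  · intro w hw _
    exact sol1 ht hpt hw (hsol (g1 p w) (g1_spec p hw).1 (g1_spec p hw).2)

end Nwl
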