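import Pool.Agent.Lib.Nwl.Sol2
import Pool.Agent.Lib.Nwl.PGood
import Pool.Agent.Lib.Nwl.Cnt
import Pool.Agent.Lib.Nwl.Len
import Pool.Agent.Lib.Nwl.PTab
import Pool.Agent.Lib.Nwl.PIn
import Pool.Agent.Lib.Nwl.POut

/-!
# Theorem 2: win-lose games are no restriction (randomised)

MP_602ccf, project Nwl (owner helper29).

PROOF. `a ≥ 5` the smallest with `32 / 2 ^ a ≤ ε` (`ε ≤ 1`), so `ε ^ 2 / 2 ^ 18 ≤ 1 / 2 ^ (2 * a + 6)` and `Sol` is monotone in `ε`. `C`, `C'` from `pgood a`.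
From `h`: `m'`, `F'`, `c'`. `A w = pT C C' w.1 * (2 * a + 5)` random bits for the labels, `P` from `len_poly (2 * a + 5) C C' m'`; `m = P`,
`n = w.1 ≤ (encG w).length`. `F w r = o2 a C C' w (encO (F' (g2 a C C' w (r.take (A w))) ((r.drop (A w)).take (m'.eval (encG (g2 ..)).length))))`.
Success: `cnt` with `A = A w`, `B = m.eval .. - A`, `G r = GLab .. (lb (2 * a + 5) r)` (`bits`, `pgood`, `al2_spec`), `k r = m'.eval (encG (g2 a C C' w r)).length ≤ B` (`len_gm2`,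
`len_01`: `L = 7`), `S r q = Sol .. (g2 a C C' w r) (F' (g2 a C C' w r) q)` (`g2_spec` for the hypotheses of `h`), `sol2`. The constant is `c' / 2`.
Machine: model `Pool/Agent/Lib/Pa7c826m/HRed.lean`, `transfer4`. ctx `[fun x => encG x.1 ++ x.2]`, `pre_w`; `PolyC.take`, `PolyC.drop`; `pg_w` for `(gm a w).A`, `.B`, and `al2`, `be2` by `PM`
of `2 ^ a + ..` (`PV.mk`, `PV.entry`); `v_lb`, `p_ce2`, `ce2_le`, `c_game`, `n_pm`, `n_pM`; `PolyN.polyEval (PolyN.length ..) m'`; `PolyC.applyTM2`; `v_rdw`, `p_outp`; `PolyC.toTM2`.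
-/

set_option autoImplicit false

namespace Nwl

open Finset Nsh

namespace Red2Aux

open Pool.Agent.Lib.PolyTime Pool.Agent.Lib.Pa7c826 Pool.Agent.Lib.P8e91ed.PT
open Pool.Agent.Lib.Pa7c826t Pool.Agent.Lib

theorem sol_mono {ε ε' : ℝ} (h : ε ≤ ε') {w : Game} {o : List (ℕ × ℕ) × List (ℕ × ℕ)}
    (ho : Sol ε w o) : Sol ε' w o := by
  obtain ⟨h1, h2, h3, h4, h5, h6⟩ := ho
  exact ⟨h1, h2, h3, h4, fun x hx => by linarith [h5 x hx], fun y hy => by linarith [h6 y hy]⟩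

theorem exists_a {ε : ℝ} (hε : 0 < ε) (h1 : ε ≤ 1) : ∃ a : ℕ, 5 ≤ a ∧ 32 / 2 ^ a ≤ ε ∧
    ε ^ 2 / 2 ^ 18 ≤ 1 / 2 ^ (2 * a + 6) := by
  classical
  have hex : ∃ a : ℕ, 5 ≤ a ∧ 32 / 2 ^ a ≤ ε := by
    obtain ⟨n, hn⟩ := pow_unbounded_of_one_lt (32 / ε) (one_lt_two (α := ℝ))
    refine ⟨n + 5, by omega, ?_⟩
    rw [div_le_iff₀ (by positivity)]
    rw [div_lt_iff₀ hε] at hn
    have h3 : (2 : ℝ) ^ n ≤ 2 ^ (n + 5) := pow_le_pow_right₀ (by norm_num) (by omega)
    nlinarith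
  obtain ⟨ha5, ha⟩ := Nat.find_spec hex
  refine ⟨Nat.find hex, ha5, ha, ?_⟩
  set a := Nat.find hex with hadef
  rcases Nat.lt_or_ge 5 a with h5 | h5
  · have hmin : ¬ (5 ≤ a - 1 ∧ 32 / 2 ^ (a - 1) ≤ ε) := Nat.find_min hex (by omega)
    have h6 : ε < 32 / 2 ^ (a - 1) := by
      by_contra h7
      exact hmin ⟨by omega, not_lt.1 h7⟩
    obtain ⟨b, hb⟩ : ∃ b, a = b + 1 := ⟨a - 1, by omega⟩
    rw [hb] at h6 ⊢
    simp only [Nat.add_sub_cancel] at h6
    rw [lt_div_iff₀ (by positivity)] at h6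
    rw [div_le_div_iff₀ (by positivity) (by positivity), one_mul]
    have h7 : (ε * 2 ^ b) ^ 2 ≤ 32 ^ 2 := pow_le_pow_left₀ (by positivity) h6.le 2
    calc ε ^ 2 * 2 ^ (2 * (b + 1) + 6) = (ε * 2 ^ b) ^ 2 * 2 ^ 8 := by ring
      _ ≤ 32 ^ 2 * 2 ^ 8 := mul_le_mul_of_nonneg_right h7 (by positivity)
      _ = 2 ^ 18 := by norm_num
  · have h6 : a = 5 := by omega
    rw [h6]
    have h7 : ε ^ 2 ≤ 1 := pow_le_one₀ hε.le h1
    calc ε ^ 2 / 2 ^ 18 ≤ 1 / 2 ^ 18 := div_le_div_of_nonneg_right h7 (by positivity)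
      _ ≤ 1 / 2 ^ (2 * 5 + 6) := by norm_num

/-- the algorithm -/
noncomputable def FF (a C C' : ℕ) (m' : Polynomial ℕ)
    (F' : Game → List Bool → List (ℕ × ℕ) × List (ℕ × ℕ)) (w : Game) (r : List Bool) :
    List (ℕ × ℕ) × List (ℕ × ℕ) :=
  o2 a C C' w (encO (F' (g2 a C C' w (r.take (pT C C' w.1 * (2 * a + 5))))
    ((r.drop (pT C C' w.1 * (2 * a + 5))).take
      (m'.eval (encG (g2 a C C' w (r.take (pT C C' w.1 * (2 * a + 5))))).length))))

theorem len_g2 (a C C' : ℕ) (w : Game) (r : List Bool) : (encG (g2 a C C' w r)).length ≤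
    n2 C C' w.1 + 1 + 2 * (n2 C C' w.1 * n2 C C' w.1) * 7 := by
  unfold g2
  refine len_gm2 (fun v => ⟨?_, ?_⟩)
  · split_ifs
    · exact len_01.2
    · exact len_01.1
  · split_ifs
    · exact len_01.2
    · exact len_01.1

theorem n_le_len (w : Game) : w.1 ≤ (encG w).length := by
  unfold encG
  rw [List.length_append, List.length_replicate]
  omega

/-- the machine -/
theorem mach (a : ℕ) {C C' : ℕ} (hC : C < C') {m' P : Polynomial ℕ}
    {F' : Game → List Bool → List (ℕ × ℕ) × List (ℕ × ℕ)}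
    (hF' : Nonempty (Turing.TM2ComputableInPolyTime
      (α := {x : Game × List Bool // (IsG x.1 ∧ WL x.1) ∧ x.2.length = m'.eval (encG x.1).length})
      (αΓ := Bool) (βΓ := Bool) (fun x => encG x.1.1 ++ x.1.2) encO
      (fun x => F' x.1.1 x.1.2)))
    (hP : ∀ n l : ℕ, n ≤ l → pT C C' n * (2 * a + 5) +
      m'.eval (n2 C C' n + 1 + 2 * (n2 C C' n * n2 C C' n) * 7) ≤ P.eval l) :
    Nonempty (Turing.TM2ComputableInPolyTime
      (α := {x : Game × List Bool // (IsG x.1 ∧ True) ∧ x.2.length = P.eval (encG x.1).length})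
      (αΓ := Bool) (βΓ := Bool) (fun x => encG x.1.1 ++ x.1.2) encO
      (fun x => FF a C C' m' F' x.1.1 x.1.2)) := by
  let D : Game × List Bool → Prop := fun x => (IsG x.1 ∧ True) ∧
    x.2.length = P.eval (encG x.1).length
  let enc : Game × List Bool → List Bool := fun x => encG x.1 ++ x.2
  have hpre := pre_w (D := D) (fun x hx => hx.1.1)
  have hg := pg_w (D := D) (ctx := [enc]) (w := fun x => x.1) hpre.1 (fun x hx => hx.1.1.1) a
  have hn : PolyN D [enc] (fun x => x.1.1) := hg.n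
  have hm : PolyN D [enc] (fun x => pm C' x.1.1) := n_pm C' hn
  have hM : PolyN D [enc] (fun x => pM C x.1.1) := n_pM C hn
  have hT : PolyN D [enc] (fun x => pT C C' x.1.1) :=
    (hm.mul hm).add ((PolyN.const 2).mul (hM.mul hm))
  have hA : PolyN D [enc] (fun x => pT C C' x.1.1 * (2 * a + 5)) := hT.mul (PolyN.const _)
  have hr1 : PolyC D [enc] (fun x => x.2.take (pT C C' x.1.1 * (2 * a + 5))) :=
    PolyC.take hpre.2 hA
  have hr2 : PolyC D [enc] (fun x => x.2.drop (pT C C' x.1.1 * (2 * a + 5))) :=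
    PolyC.drop hpre.2 hA
  have hal : PM D [enc] (fun x => x.1.1) (fun x => al2 a x.1) :=
    PV.mk (hn.mul hn) ((PolyN.const (2 ^ a)).add (PV.entry hg.A (fun _ _ => le_rfl)))
  have hbe : PM D [enc] (fun x => x.1.1) (fun x => be2 a x.1) :=
    PV.mk (hn.mul hn) ((PolyN.const (2 ^ a)).add (PV.entry hg.B (fun _ _ => le_rfl)))
  have hlab : PV D [enc] (fun x => pT C C' x.1.1)
      (fun x => lb (2 * a + 5) (x.2.take (pT C C' x.1.1 * (2 * a + 5)))) := v_lb _ hr1 hT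
  have hN : PolyN D [enc] (fun x => n2 C C' x.1.1) := (hn.mul hm).add ((PolyN.const 2).mul hM)
  have hc := p_ce2 (pD a) (pQ a) hn hm hM hal hbe hlab
  have hgame : PolyC D [enc] (fun x => encG (g2 a C C' x.1
      (x.2.take (pT C C' x.1.1 * (2 * a + 5))))) :=
    c_game (α := Game × List Bool) (D := D) (ctx := [enc]) (N := fun x => n2 C C' x.1.1)
      (c := fun x => c2 a C C' x.1 (x.2.take (pT C C' x.1.1 * (2 * a + 5))))
      (fun v => if v = 1 then 1 else 0) (fun v => if v = 2 then 1 else 0) 2 hN hc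
      (fun x _ k l => ce2_le _ _ _ _ _ _ _ _ _ _)
  have hk : PolyN D [enc] (fun x => m'.eval (encG (g2 a C C' x.1
      (x.2.take (pT C C' x.1.1 * (2 * a + 5))))).length) :=
    PolyN.polyEval (PolyN.length hgame) m'
  have hin := hgame.append (PolyC.take hr2 hk)
  have hcall : PolyC D [enc] (fun x => encO (F' (g2 a C C' x.1
      (x.2.take (pT C C' x.1.1 * (2 * a + 5))))
      ((x.2.drop (pT C C' x.1.1 * (2 * a + 5))).take (m'.eval (encG (g2 a C C' x.1
      (x.2.take (pT C C' x.1.1 * (2 * a + 5))))).length)))) := by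
    refine PolyC.applyTM2 hF' _ _ hin ?_
    rintro ⟨w, r⟩ ⟨⟨hw, _⟩, hr⟩
    have hr' : r.length = P.eval (encG w).length := hr
    have hsp := g2_spec a hC hw (r.take (pT C C' w.1 * (2 * a + 5)))
    refine ⟨⟨(g2 a C C' w (r.take (pT C C' w.1 * (2 * a + 5))), _), hsp, ?_⟩, rfl, rfl⟩
    show ((r.drop (pT C C' w.1 * (2 * a + 5))).take (m'.eval (encG (g2 a C C' w
      (r.take (pT C C' w.1 * (2 * a + 5))))).length)).length = m'.eval (encG (g2 a C C' w
      (r.take (pT C C' w.1 * (2 * a + 5))))).length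
    rw [List.length_take, List.length_drop, hr']
    have h1 := hP w.1 (encG w).length (n_le_len w)
    have h2 := eval_mono m' (len_g2 a C C' w (r.take (pT C C' w.1 * (2 * a + 5))))
    omega
  have hnm : PolyN D [enc] (fun x => x.1.1 * pm C' x.1.1) := hn.mul hm
  have hB : PolyN D [enc] (fun x => n2 C C' x.1.1 * 2 ^ (2 * a + 9)) := hN.mul (PolyN.const _)
  have hX := v_rdw hcall hB hnm (PolyN.const 0)
  have hY := v_rdw hcall hB hnm hN
  simp only [zero_add] at hX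
  have hout : PolyC D [enc] (fun x => encO (FF a C C' m' F' x.1 x.2)) := p_outp hn hm hX hY
  exact PolyC.toTM2 enc (fun x => FF a C C' m' F' x.1 x.2) encO hout

end Red2Aux

open Red2Aux

theorem red2 {ε : ℝ} (hε : 0 < ε) (h1 : ε ≤ 1) (h : REasy (ε ^ 2 / 2 ^ 18) WL) :
    REasy ε (fun _ => True) := by
  classical
  obtain ⟨a, ha5, ha, hae⟩ := exists_a hε h1
  obtain ⟨C, C', hC0, hC, hgood⟩ := pgood a
  obtain ⟨m', F', c', hF', hc', hgF⟩ := h
  obtain ⟨P, hP⟩ := len_poly (2 * a + 5) C C' m'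
  refine ⟨P, FF a C C' m' F', c' / 2, mach a hC hF' hP, by positivity, ?_⟩
  intro w hw _
  have hPw := hP w.1 (encG w).length (n_le_len w)
  obtain ⟨B, hB⟩ : ∃ B, P.eval (encG w).length = pT C C' w.1 * (2 * a + 5) + B :=
    Nat.exists_eq_add_of_le (by omega)
  rw [hB]
  refine cnt (A := pT C C' w.1 * (2 * a + 5)) (B := B)
    (P := fun r => Sol ε w (FF a C C' m' F' w r)) (G := fun r => GLab w.1 (pm C' w.1) (pM C w.1) (ps C w.1) (pK a) (pD a) (pQ a)
      (1 / 2 ^ (2 * a + 6)) (1 / 2 ^ a) (al2 a w) (be2 a w) (lb (2 * a + 5) r))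
    (S := fun r q => Sol (1 / 2 ^ (2 * a + 6)) (g2 a C C' w r) (F' (g2 a C C' w r) q))
    (k := fun r => m'.eval (encG (g2 a C C' w r)).length) hc'.le ?_ ?_ ?_
  · have h2 := hgood w.1 hw.1 (al2 a w) (be2 a w) (al2_spec a w).1 (al2_spec a w).2
    have h3 := bits (T := pT C C' w.1) (lm := 2 * a + 5) (fun lab => GLab w.1 (pm C' w.1)
      (pM C w.1) (ps C w.1) (pK a) (pD a) (pQ a)
      (1 / 2 ^ (2 * a + 6)) (1 / 2 ^ a) (al2 a w) (be2 a w) lab)
    rw [h3, mul_comm (pT C C' w.1), pow_mul]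
    exact h2
  · intro r _ _
    refine ⟨?_, ?_⟩
    · have h2 := Pool.Agent.Lib.PolyTime.eval_mono m' (len_g2 a C C' w r)
      omega
    · have hsp := g2_spec a hC hw r
      refine (hgF (g2 a C C' w r) hsp.1 hsp.2).trans ?_
      exact_mod_cast Nat.card_le_card_of_injective
        (fun q : {q : Fin (m'.eval (encG (g2 a C C' w r)).length) → Bool //
          Sol (ε ^ 2 / 2 ^ 18) (g2 a C C' w r) (F' (g2 a C C' w r) (List.ofFn q))} =>
          (⟨q.1, sol_mono hae q.2⟩ : {q : Fin (m'.eval (encG (g2 a C C' w r)).length) → Bool //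
          Sol (1 / 2 ^ (2 * a + 6)) (g2 a C C' w r) (F' (g2 a C C' w r) (List.ofFn q))}))
        (fun q q' hqq => Subtype.ext (by simpa using hqq))
  · intro r _ hG hS
    exact sol2 ha5 ha hC0 hC hw hG hS

end Nwl
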