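import Pool.Agent.Lib.Nsh.Basic
import Pool.Agent.Lib.Nsh.NDefs

/-!
# Rounding an approximate equilibrium

MP_602ccf, project Nwl (owner helper29).

PROOF. Let `S = tot N X`, `x' = rl S X`. `B - N < S ≤ B` (sum of `hX` over `k < N`, `sum x = 1`), so `1 ≤ S` as `N < B`.
`∑ k < N, |x' k - x k| ≤ ∑ (X k / S - X k / B) + ∑ (x k - X k / B) = (1 - S / B) + (1 - S / B) ≤ 2 * N / B`. The same for `y`.
For a matrix `R` with entries in `[0, 1]`: `|rv N R y' i - rv N R y i| ≤ ∑ |y' j - y j| ≤ 2 N / B`, and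
`|bil N R x' y' - bil N R x y| ≤ ∑ |x' - x| + ∑ |y' - y| ≤ 4 N / B` (use `bil N R x y = ∑ i, x i * rv N R y i` and
`bil_eq_cv`, `rv_le_one`, `cv_le_one`). So every regret grows by at most `6 N / B`.
-/

set_option autoImplicit false

namespace Nwl

open Finset Nsh

namespace RndAux

/-- one side of the rounding: the total is at least `1`, the rounded vector is a mixed strategy
and it is close to the given one -/
theorem side {N B : ℕ} {x : ℕ → ℝ} (hx : Mix N x) {X : ℕ → ℕ} (hNB : N < B)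
    (hX : ∀ k < N, (X k : ℝ) ≤ B * x k ∧ B * x k < X k + 1) :
    1 ≤ tot N X ∧ Mix N (rl (tot N X) X) ∧
      ∑ k ∈ range N, |rl (tot N X) X k - x k| ≤ 2 * N / B := by
  have hB : (0 : ℝ) < B := by exact_mod_cast (Nat.zero_le N).trans_lt hNB
  have hSr : ((tot N X : ℕ) : ℝ) = ∑ k ∈ range N, (X k : ℝ) := by
    unfold tot
    push_cast
    rfl
  have hle : ((tot N X : ℕ) : ℝ) ≤ B := by
    rw [hSr]
    calc ∑ k ∈ range N, (X k : ℝ) ≤ ∑ k ∈ range N, (B : ℝ) * x k :=
          sum_le_sum (fun k hk => (hX k (mem_range.1 hk)).1)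
      _ = B := by rw [← mul_sum, hx.sum, mul_one]
  have hge : (B : ℝ) ≤ (tot N X : ℕ) + N := by
    rw [hSr]
    calc (B : ℝ) = ∑ k ∈ range N, (B : ℝ) * x k := by rw [← mul_sum, hx.sum, mul_one]
      _ ≤ ∑ k ∈ range N, ((X k : ℝ) + 1) :=
          sum_le_sum (fun k hk => (hX k (mem_range.1 hk)).2.le)
      _ = ∑ k ∈ range N, (X k : ℝ) + N := by
          rw [sum_add_distrib]
          simp
  have hS1 : 1 ≤ tot N X := by
    have h1 : B ≤ tot N X + N := by exact_mod_cast hge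
    omega
  have hS : (0 : ℝ) < (tot N X : ℕ) := by exact_mod_cast hS1
  have hsum1 : ∑ k ∈ range N, rl (tot N X) X k = 1 := by
    unfold rl
    rw [← sum_div, ← hSr]
    exact div_self hS.ne'
  refine ⟨hS1, ⟨fun i _ => ?_, hsum1⟩, ?_⟩
  · unfold rl
    positivity
  · have hk : ∀ k ∈ range N, |rl (tot N X) X k - x k| ≤
        (rl (tot N X) X k - (X k : ℝ) / B) + (x k - (X k : ℝ) / B) := by
      intro k hk
      have h1 : (X k : ℝ) / B ≤ rl (tot N X) X k := by
        unfold rl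
        exact div_le_div_of_nonneg_left (Nat.cast_nonneg _) hS hle
      have h2 : (X k : ℝ) / B ≤ x k := by
        rw [div_le_iff₀ hB, mul_comm]
        exact (hX k (mem_range.1 hk)).1
      rw [abs_le]
      constructor <;> linarith
    refine (sum_le_sum hk).trans ?_
    rw [sum_add_distrib, sum_sub_distrib, sum_sub_distrib, hsum1, hx.sum, ← sum_div, ← hSr]
    have h4 : (1 - ((tot N X : ℕ) : ℝ) / B) + (1 - ((tot N X : ℕ) : ℝ) / B) =
        (2 * (B - (tot N X : ℕ))) / B := by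
      field_simp
      ring
    rw [h4]
    apply div_le_div_of_nonneg_right _ hB.le
    linarith

theorem rv_diff {N : ℕ} {R : ℕ → ℕ → ℝ} (hR : U01 N R) {y y' : ℕ → ℝ} {i : ℕ} (hi : i < N) :
    |rv N R y' i - rv N R y i| ≤ ∑ j ∈ range N, |y' j - y j| := by
  unfold rv
  rw [← sum_sub_distrib]
  refine (abs_sum_le_sum_abs _ _).trans (sum_le_sum (fun j hj => ?_))
  rw [← mul_sub, abs_mul]
  have h1 := hR i hi j (mem_range.1 hj)
  rw [abs_of_nonneg h1.1]
  exact mul_le_of_le_one_left (abs_nonneg _) h1.2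

theorem cv_diff {N : ℕ} {R : ℕ → ℕ → ℝ} (hR : U01 N R) {x x' : ℕ → ℝ} {j : ℕ} (hj : j < N) :
    |cv N R x' j - cv N R x j| ≤ ∑ i ∈ range N, |x' i - x i| := by
  have h := rv_diff (R := Nsh.tr R) (y := x) (y' := x') hR.tr hj
  rwa [rv_tr, rv_tr] at h

theorem bil_diff {N : ℕ} {R : ℕ → ℕ → ℝ} (hR : U01 N R) {x x' y y' : ℕ → ℝ} (hx : Mix N x)
    (hy' : Mix N y') {D E : ℝ} (hD : ∑ i ∈ range N, |x' i - x i| ≤ D)
    (hE : ∑ j ∈ range N, |y' j - y j| ≤ E) :
    bil N R x y ≤ bil N R x' y' + (D + E) := by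
  have e1 : bil N R x y - bil N R x' y' =
      ∑ i ∈ range N, (x i - x' i) * rv N R y' i +
        ∑ i ∈ range N, x i * (rv N R y i - rv N R y' i) := by
    unfold bil
    rw [← sum_sub_distrib, ← sum_add_distrib]
    refine sum_congr rfl (fun i _ => ?_)
    ring
  have h1 : ∑ i ∈ range N, (x i - x' i) * rv N R y' i ≤ D := by
    refine le_trans (sum_le_sum (fun i hi => ?_)) hD
    have hi' := mem_range.1 hi
    have ha := rv_nonneg hR hy' hi'
    have hb := rv_le_one hR hy' hi'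
    calc (x i - x' i) * rv N R y' i ≤ |x i - x' i| * rv N R y' i :=
          mul_le_mul_of_nonneg_right (le_abs_self _) ha
      _ ≤ |x i - x' i| := mul_le_of_le_one_right (abs_nonneg _) hb
      _ = |x' i - x i| := abs_sub_comm _ _
  have h2 : ∑ i ∈ range N, x i * (rv N R y i - rv N R y' i) ≤ E := by
    have h3 : ∑ i ∈ range N, x i * (rv N R y i - rv N R y' i) ≤ ∑ i ∈ range N, x i * E := by
      refine sum_le_sum (fun i hi => ?_)
      have hi' := mem_range.1 hi
      refine mul_le_mul_of_nonneg_left ?_ (hx.nn i hi')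
      have h4 := (rv_diff hR (y := y) (y' := y') hi').trans hE
      have h5 := (abs_le.1 h4).1
      linarith
    rwa [← sum_mul, hx.sum, one_mul] at h3
  linarith

end RndAux

theorem rnd {N B : ℕ} {R C : ℕ → ℕ → ℝ} (hR : U01 N R) (hC : U01 N C) {x y : ℕ → ℝ} (hx : Mix N x)
    (hy : Mix N y) {e : ℝ} (h : Good N R C e x y) {X Y : ℕ → ℕ} (hNB : N < B)
    (hX : ∀ k < N, (X k : ℝ) ≤ B * x k ∧ B * x k < X k + 1)
    (hY : ∀ k < N, (Y k : ℝ) ≤ B * y k ∧ B * y k < Y k + 1) :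
    1 ≤ tot N X ∧ 1 ≤ tot N Y ∧
      Good N R C (e + 6 * N / B) (rl (tot N X) X) (rl (tot N Y) Y) := by
  obtain ⟨hX1, hX2, hX3⟩ := RndAux.side hx hNB hX
  obtain ⟨hY1, hY2, hY3⟩ := RndAux.side hy hNB hY
  have h6 : 6 * (N : ℝ) / B = 2 * N / B + (2 * N / B + 2 * N / B) := by ring
  refine ⟨hX1, hY1, fun i hi => ?_, fun j hj => ?_⟩
  · have h1 := (abs_le.1 ((RndAux.rv_diff hR (y := y) (y' := rl (tot N Y) Y) hi).trans hY3)).2
    have h2 := h.1 i hi
    have h3 := RndAux.bil_diff hR (y := y) hx hY2 hX3 hY3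
    rw [h6]
    linarith
  · have h1 := (abs_le.1 ((RndAux.cv_diff hC (x := x) (x' := rl (tot N X) X) hj).trans hX3)).2
    have h2 := h.2 j hj
    have h3 := RndAux.bil_diff hC (y := y) hx hY2 hX3 hY3
    rw [h6]
    linarith

end Nwl
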