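import Pool.Agent.Lib.Nsh.Basic

/-!
# Affine change of the payoffs

MP_602ccf, project Nwl (owner helper29).

PROOF. For `Mix n y`: `rv n R y i ≤ c * rv n R' y i + d + ρ` (termwise, `sum y = 1`) and `c * bil n R' x y + d ≤ bil n R x y`
(`sum x = sum y = 1`). So `rv n R y i ≤ c * (bil n R' x y + θ) + d + ρ ≤ bil n R x y + c * θ + ρ`. Columns: the same, or
`Nsh.good_swap`. See `rv_le`, `cv_le`, `bil_mono` (private) in `Pool/Agent/Lib/Nsh/Round.lean`.
-/

set_option autoImplicit false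

namespace Nwl

open Finset Nsh

namespace ScaleAux

theorem rv_up {n : ℕ} {R R' : ℕ → ℕ → ℝ} {y : ℕ → ℝ} {c e : ℝ} {i : ℕ}
    (hR : ∀ j < n, R i j ≤ c * R' i j + e) (hy : Mix n y) :
    rv n R y i ≤ c * rv n R' y i + e := by
  have h1 : rv n R y i ≤ ∑ j ∈ range n, (c * (R' i j * y j) + e * y j) := by
    refine sum_le_sum fun j hj => ?_
    have h2 := mul_le_mul_of_nonneg_right (hR j (mem_range.1 hj)) (hy.nn j (mem_range.1 hj))
    linarith
  rw [sum_add_distrib, ← mul_sum, ← mul_sum, hy.sum, mul_one] at h1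
  exact h1

theorem rv_dn {n : ℕ} {R R' : ℕ → ℕ → ℝ} {y : ℕ → ℝ} {c e : ℝ} {i : ℕ}
    (hR : ∀ j < n, c * R' i j + e ≤ R i j) (hy : Mix n y) :
    c * rv n R' y i + e ≤ rv n R y i := by
  have h1 : ∑ j ∈ range n, (c * (R' i j * y j) + e * y j) ≤ rv n R y i := by
    refine sum_le_sum fun j hj => ?_
    have h2 := mul_le_mul_of_nonneg_right (hR j (mem_range.1 hj)) (hy.nn j (mem_range.1 hj))
    linarith
  rw [sum_add_distrib, ← mul_sum, ← mul_sum, hy.sum, mul_one] at h1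
  exact h1

theorem bil_dn {n : ℕ} {R R' : ℕ → ℕ → ℝ} {x y : ℕ → ℝ} {c e : ℝ}
    (hR : ∀ i < n, ∀ j < n, c * R' i j + e ≤ R i j) (hx : Mix n x) (hy : Mix n y) :
    c * bil n R' x y + e ≤ bil n R x y := by
  have h1 : ∑ i ∈ range n, (c * (x i * rv n R' y i) + e * x i) ≤ bil n R x y := by
    refine sum_le_sum fun i hi => ?_
    have h2 := mul_le_mul_of_nonneg_left (rv_dn (hR i (mem_range.1 hi)) hy)
      (hx.nn i (mem_range.1 hi))
    linarith
  rw [sum_add_distrib, ← mul_sum, ← mul_sum, hx.sum, mul_one] at h1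
  exact h1

theorem half {n : ℕ} {R R' : ℕ → ℕ → ℝ} {x y : ℕ → ℝ} {θ c d ρ : ℝ} (hc : 0 ≤ c)
    (hx : Mix n x) (hy : Mix n y)
    (hR : ∀ i < n, ∀ j < n, c * R' i j + d ≤ R i j ∧ R i j ≤ c * R' i j + d + ρ)
    (h : ∀ i < n, rv n R' y i ≤ bil n R' x y + θ) :
    ∀ i < n, rv n R y i ≤ bil n R x y + (c * θ + ρ) := by
  intro i hi
  have h1 := rv_up (n := n) (R := R) (R' := R') (y := y) (c := c) (e := d + ρ) (i := i)
    (fun j hj => by have := (hR i hi j hj).2; linarith) hy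
  have h2 := bil_dn (n := n) (R := R) (R' := R') (x := x) (y := y) (c := c) (e := d)
    (fun i hi j hj => (hR i hi j hj).1) hx hy
  have h3 := mul_le_mul_of_nonneg_left (h i hi) hc
  linarith

end ScaleAux

open ScaleAux

theorem scale {n : ℕ} {R C R' C' : ℕ → ℕ → ℝ} {x y : ℕ → ℝ} {θ c d ρ : ℝ} (hc : 0 ≤ c)
    (hx : Mix n x) (hy : Mix n y)
    (hR : ∀ i < n, ∀ j < n, c * R' i j + d ≤ R i j ∧ R i j ≤ c * R' i j + d + ρ)
    (hC : ∀ i < n, ∀ j < n, c * C' i j + d ≤ C i j ∧ C i j ≤ c * C' i j + d + ρ)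
    (h : Good n R' C' θ x y) : Good n R C (c * θ + ρ) x y := by
  refine ⟨half hc hx hy hR h.1, ?_⟩
  have h1 : Good n (tr C') (tr R') θ y x := good_swap.2 h
  have h2 := half hc hy hx (fun i hi j hj => hC j hj i hi) h1.1
  intro j hj
  have h3 := h2 j hj
  rw [show rv n (fun i j => C j i) x j = cv n C x j from rv_tr j,
    show bil n (fun i j => C j i) y x = bil n C x y from bil_tr] at h3
  exact h3

end Nwl
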