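import Pool.Agent.Lib.Nwl.Defs

/-!
# Sums over the rows of the game of Theorem 2

MP_602ccf, project Nwl (owner helper29).

PROOF. `sum_mul`: induction on `n` (`Finset.sum_range_add`-like: `range ((n + 1) * m)` = `range (n * m)` and `m` more terms,
`Finset.sum_range_add`? or `Finset.range_add`/`Finset.sum_range_succ_mul_comm`; any proof). `spl`: `Finset.sum_range_add`-style split
at `n * m`, then `sum_mul` with `m = 2`, `n = M` (`Nat.mul_comm`). The cells: unfold `ce2`; `i * m + a < n * m`
(`i < n`, `a < m`), `(i * m + a) / m = i`, `(i * m + a) % m = a`, `n * m + (2 * r + z) - n * m = 2 * r + z`, `/ 2 = r`, `% 2 = z`.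
-/

set_option autoImplicit false

namespace Nwl

open Finset

theorem sum_mul' (n m : ℕ) (f : ℕ → ℝ) :
    ∑ k ∈ range (n * m), f k = ∑ i ∈ range n, ∑ a ∈ range m, f (i * m + a) := by
  induction n with
  | zero => simp
  | succ n ih => rw [Nat.succ_mul, sum_range_add, ih, sum_range_succ]

theorem spl (n m M : ℕ) (f : ℕ → ℝ) : ∑ k ∈ range (n * m + 2 * M), f k =
    (∑ i ∈ range n, ∑ a ∈ range m, f (i * m + a)) +
      ∑ r ∈ range M, ∑ z ∈ range 2, f (n * m + (2 * r + z)) := by
  rw [sum_range_add, sum_mul', Nat.mul_comm 2 M, sum_mul' M 2 (fun k => f (n * m + k))]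
  simp only [Nat.mul_comm _ 2]

variable {n m M D Q : ℕ} {al be : ℕ → ℕ → ℕ} {lab : ℕ → ℕ}

namespace SplAux

theorem lt_mul {n m i a : ℕ} (hi : i < n) (ha : a < m) : i * m + a < n * m := by
  have h : (i + 1) * m ≤ n * m := Nat.mul_le_mul_right m hi
  have h' : (i + 1) * m = i * m + m := Nat.succ_mul i m
  omega

theorem div_eq {m i a : ℕ} (ha : a < m) : (i * m + a) / m = i := by
  rw [Nat.mul_comm, Nat.mul_add_div (by omega), Nat.div_eq_of_lt ha, Nat.add_zero]

theorem mod_eq {m i a : ℕ} (ha : a < m) : (i * m + a) % m = a := by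
  rw [Nat.mul_comm, Nat.mul_add_mod, Nat.mod_eq_of_lt ha]

end SplAux

open SplAux

theorem ce_pp {i a j b : ℕ} (hi : i < n) (ha : a < m) (hj : j < n) (hb : b < m) :
    ce2 n m M D Q al be lab (i * m + a) (j * m + b) = cvl D Q (al i j) (be i j) (lab (a * m + b)) := by
  unfold ce2
  rw [if_pos (lt_mul hi ha), if_pos (lt_mul hj hb), div_eq ha, div_eq hb, mod_eq ha, mod_eq hb]

theorem ce_px {i a c w : ℕ} (hi : i < n) (ha : a < m) (hw : w < 2) :
    ce2 n m M D Q al be lab (i * m + a) (n * m + (2 * c + w)) =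
      if lab (m * m + M * m + (c * m + a)) < D then 2 else 1 := by
  have h1 : ¬ n * m + (2 * c + w) < n * m := by omega
  have h2 : (n * m + (2 * c + w) - n * m) / 2 = c := by omega
  unfold ce2
  rw [if_pos (lt_mul hi ha), if_neg h1, h2, mod_eq ha]

theorem ce_xp {r z j b : ℕ} (hz : z < 2) (hj : j < n) (hb : b < m) :
    ce2 n m M D Q al be lab (n * m + (2 * r + z)) (j * m + b) =
      if lab (m * m + (r * m + b)) < D then 1 else 2 := by
  have h1 : ¬ n * m + (2 * r + z) < n * m := by omega
  have h2 : (n * m + (2 * r + z) - n * m) / 2 = r := by omega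
  unfold ce2
  rw [if_neg h1, if_pos (lt_mul hj hb), h2, mod_eq hb]

theorem ce_xx {r z c w : ℕ} (hz : z < 2) (hw : w < 2) :
    ce2 n m M D Q al be lab (n * m + (2 * r + z)) (n * m + (2 * c + w)) = if z = w then 1 else 2 := by
  have h1 : ¬ n * m + (2 * r + z) < n * m := by omega
  have h2 : ¬ n * m + (2 * c + w) < n * m := by omega
  have h3 : (n * m + (2 * r + z) - n * m) % 2 = z := by omega
  have h4 : (n * m + (2 * c + w) - n * m) % 2 = w := by omega
  unfold ce2
  rw [if_neg h1, if_neg h2, h3, h4]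

/-- exactly one of the three cases -/
theorem cvl_cases {K va vb l : ℕ} (hQ : Q = 2 * D + K) (hv : va + vb ≤ K) (hl : l < Q) :
    (cvl D Q va vb l = 1 ↔ inR D va l) ∧ (cvl D Q va vb l = 2 ↔ inC D Q vb l) ∧
      (cvl D Q va vb l = 0 ↔ inZ D Q va vb l) := by
  unfold cvl
  by_cases h1 : inR D va l
  · rw [if_pos h1]
    unfold inR at h1
    simp only [inR, inC, inZ]
    refine ⟨?_, ?_, ?_⟩ <;> constructor <;> intro h3 <;> first | trivial | omega
  · by_cases h2 : inC D Q vb l
    · rw [if_neg h1, if_pos h2]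
      unfold inR at h1
      unfold inC at h2
      simp only [inR, inC, inZ]
      refine ⟨?_, ?_, ?_⟩ <;> constructor <;> intro h3 <;> first | trivial | omega
    · rw [if_neg h1, if_neg h2]
      unfold inR at h1
      unfold inC at h2
      simp only [inR, inC, inZ]
      refine ⟨?_, ?_, ?_⟩ <;> constructor <;> intro h3 <;> first | trivial | omega

end Nwl
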