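import Pool.Agent.Lib.Nwl.GM
import Pool.Agent.Lib.Nwl.Rd
import Pool.Agent.Lib.Nwl.Rnd
import Pool.Agent.Lib.Nwl.One
import Pool.Agent.Lib.Nwl.Scale
import Pool.Agent.Lib.Nwl.Spl
import Pool.Agent.Lib.Nsh.Round

/-!
# Correctness of the reduction of Theorem 1

MP_602ccf, project Nwl (owner helper29). Paper proof: /team-store/602ccf_winlose.md, section 1.

PROOF. `K = 2 ^ p`, `N = w.1 * K`, `B = N * 2 ^ t`, `a = (Nsh.gm p w).A`, `b = (Nsh.gm p w).B` (at most `K`: `tabOf_le` in `Pool/Agent/Lib/P8e91ed/Table.lean`, or `Nsh.tab_spec`).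
`g1_spec`: `isG_gm2` (`ce1_le`), `mA_gm2` (`v % 2` is 0 or 1).
`sol1`: `good_gm2` (`h.2.2`), `rdw_encO`, `rnd` (`N < B` as `t ≥ 1`, `6 N / B = 6 / 2 ^ t`), giving `Good N .. (ε / 5 + 6 / 2 ^ t) (rl S X) (rl S' Y)`; `one` (the matrices are the
casts of `c % 2` and `(c / 2) / (3 K)`: rewrite the casts of `qa`, `qb`); `pr K (rl S X) i = pj K X i / S`; `scale` with `c = 1`, `d = 0`, `ρ = 1 / 2 ^ p` and `Nsh.tab_spec`: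
`4 (ε / 5 + 6 / 2 ^ t) + 1 / 2 ^ p ≤ ε`; monotone in `ε`; `sol_of_good` (`Nsh.gm` uses the index `w.1 * w.1 + ..`, here `w.1 ^ 2 + ..`).
-/

set_option autoImplicit false

namespace Nwl

open Finset Nsh

namespace Sol1Aux

theorem getD_01 {w : Game} (hw : IsG w) (k : ℕ) : 0 ≤ w.2.getD k 0 ∧ w.2.getD k 0 ≤ 1 := by
  by_cases hk : k < w.2.length
  · rw [List.getD_eq_getElem _ _ hk]
    exact hw.2.2 _ (List.getElem_mem hk)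
  · rw [List.getD_eq_default _ _ (not_lt.1 hk)]
    exact ⟨le_refl _, zero_le_one⟩

theorem gmA_le (p : ℕ) {w : Game} (hw : IsG w) (i j : ℕ) : (Nsh.gm p w).A i j ≤ 2 ^ p :=
  (Nsh.tab_spec p w.2 (i * w.1 + j) (getD_01 hw _).1 (getD_01 hw _).2).1

theorem gmB_le (p : ℕ) {w : Game} (hw : IsG w) (i j : ℕ) : (Nsh.gm p w).B i j ≤ 2 ^ p :=
  (Nsh.tab_spec p w.2 (w.1 * w.1 + (i * w.1 + j)) (getD_01 hw _).1 (getD_01 hw _).2).1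

theorem qa_01 (v : ℕ) : (0 : ℚ) ≤ ((v % 2 : ℕ) : ℚ) ∧ ((v % 2 : ℕ) : ℚ) ≤ 1 := by
  refine ⟨Nat.cast_nonneg _, ?_⟩
  have h : v % 2 ≤ 1 := by omega
  exact_mod_cast h

theorem qb_01 {K v : ℕ} (h : v / 2 ≤ 3 * K) :
    (0 : ℚ) ≤ ((v / 2 : ℕ) : ℚ) / (3 * K) ∧ ((v / 2 : ℕ) : ℚ) / (3 * K) ≤ 1 := by
  refine ⟨by positivity, ?_⟩
  have h' : ((v / 2 : ℕ) : ℚ) ≤ 3 * K := by exact_mod_cast h
  exact div_le_one_of_le₀ h' (by positivity)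

theorem q_01 (p : ℕ) {w : Game} (hw : IsG w) (k l : ℕ) :
    (0 ≤ (fun v : ℕ => ((v % 2 : ℕ) : ℚ)) (ce1 (2 ^ p) (Nsh.gm p w).A (Nsh.gm p w).B k l) ∧
      (fun v : ℕ => ((v % 2 : ℕ) : ℚ)) (ce1 (2 ^ p) (Nsh.gm p w).A (Nsh.gm p w).B k l) ≤ 1) ∧
    0 ≤ (fun v : ℕ => ((v / 2 : ℕ) : ℚ) / (3 * 2 ^ p))
      (ce1 (2 ^ p) (Nsh.gm p w).A (Nsh.gm p w).B k l) ∧
      (fun v : ℕ => ((v / 2 : ℕ) : ℚ) / (3 * 2 ^ p))
        (ce1 (2 ^ p) (Nsh.gm p w).A (Nsh.gm p w).B k l) ≤ 1 := by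
  refine ⟨qa_01 _, ?_⟩
  have h := qb_01 (K := 2 ^ p) (ce1_le (K := 2 ^ p) (gmA_le p hw) (gmB_le p hw) k l).1
  push_cast at h
  exact h

theorem u01_cast {N : ℕ} {f : ℕ → ℕ → ℚ} (h : ∀ k l, 0 ≤ f k l ∧ f k l ≤ 1) :
    U01 N (fun k l => ((f k l : ℚ) : ℝ)) := by
  intro k _ l _
  have h0 : (0 : ℝ) ≤ ((f k l : ℚ) : ℝ) := by exact_mod_cast (h k l).1
  have h1 : ((f k l : ℚ) : ℝ) ≤ 1 := by exact_mod_cast (h k l).2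
  exact ⟨h0, h1⟩

theorem pr_rl (m S : ℕ) (X : ℕ → ℕ) : pr m (rl S X) = fun i => (pj m X i : ℝ) / S := by
  funext i
  unfold pr rl pj
  rw [← sum_div]
  push_cast
  rfl

end Sol1Aux

open Sol1Aux

theorem g1_spec (p : ℕ) {w : Game} (hw : IsG w) : IsG (g1 p w) ∧ RowWL (g1 p w) := by
  have hN : 1 ≤ w.1 * 2 ^ p := Nat.mul_pos hw.1 (by positivity)
  refine ⟨isG_gm2 hN (q_01 p hw), fun i j => ?_⟩
  have h := mA_gm2 (N := w.1 * 2 ^ p) (c := ce1 (2 ^ p) (Nsh.gm p w).A (Nsh.gm p w).B)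
    (qa := fun v => ((v % 2 : ℕ) : ℚ)) (qb := fun v => ((v / 2 : ℕ) : ℚ) / (3 * 2 ^ p)) i j
  change mA (gm2 (w.1 * 2 ^ p) (ce1 (2 ^ p) (Nsh.gm p w).A (Nsh.gm p w).B)
    (fun v => ((v % 2 : ℕ) : ℚ)) (fun v => ((v / 2 : ℕ) : ℚ) / (3 * 2 ^ p))) i j = 0 ∨
    mA (gm2 (w.1 * 2 ^ p) (ce1 (2 ^ p) (Nsh.gm p w).A (Nsh.gm p w).B)
    (fun v => ((v % 2 : ℕ) : ℚ)) (fun v => ((v / 2 : ℕ) : ℚ) / (3 * 2 ^ p))) i j = 1
  rw [h]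
  rcases Nat.mod_two_eq_zero_or_one (ce1 (2 ^ p) (Nsh.gm p w).A (Nsh.gm p w).B i j) with h2 | h2
  · left
    simp only [h2]
    norm_num
  · right
    simp only [h2]
    norm_num

theorem sol1 {ε : ℝ} {p t : ℕ} (ht : 1 ≤ t) (h : 1 / 2 ^ p + 24 / 2 ^ t ≤ ε / 5)
    {w : Game} (hw : IsG w) {o : List (ℕ × ℕ) × List (ℕ × ℕ)} (ho : Sol (ε / 5) (g1 p w) o) :
    Sol ε w (o1 p t w (Nsh.encO o)) := by
  have hK : 0 < 2 ^ p := by positivity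
  have hN : 1 ≤ w.1 * 2 ^ p := Nat.mul_pos hw.1 hK
  obtain ⟨mx, my, hg⟩ := good_gm2 ho
  have hl1 : o.1.length = w.1 * 2 ^ p := ho.1
  have hl2 : o.2.length = w.1 * 2 ^ p := ho.2.1
  obtain ⟨rX, rY⟩ := rdw_encO (B := w.1 * 2 ^ p * 2 ^ t) hl1 hl2 mx my
  have hq := q_01 p hw
  have hR : U01 (w.1 * 2 ^ p) (fun k l =>
      (((fun v : ℕ => ((v % 2 : ℕ) : ℚ)) (ce1 (2 ^ p) (Nsh.gm p w).A (Nsh.gm p w).B k l) : ℚ) : ℝ)) :=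
    u01_cast (f := fun k l => (fun v : ℕ => ((v % 2 : ℕ) : ℚ))
      (ce1 (2 ^ p) (Nsh.gm p w).A (Nsh.gm p w).B k l)) fun k l => (hq k l).1
  have hC : U01 (w.1 * 2 ^ p) (fun k l =>
      (((fun v : ℕ => ((v / 2 : ℕ) : ℚ) / (3 * 2 ^ p))
        (ce1 (2 ^ p) (Nsh.gm p w).A (Nsh.gm p w).B k l) : ℚ) : ℝ)) :=
    u01_cast (f := fun k l => (fun v : ℕ => ((v / 2 : ℕ) : ℚ) / (3 * 2 ^ p))
      (ce1 (2 ^ p) (Nsh.gm p w).A (Nsh.gm p w).B k l)) fun k l => (hq k l).2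
  have hNB : w.1 * 2 ^ p < w.1 * 2 ^ p * 2 ^ t := by
    have h2 : 2 ≤ 2 ^ t := by
      calc 2 = 2 ^ 1 := by norm_num
        _ ≤ 2 ^ t := Nat.pow_le_pow_right (by norm_num) ht
    nlinarith
  obtain ⟨tX, tY, hG⟩ := rnd hR hC mx my hg hNB rX rY
  have e1 : (fun k l : ℕ => (((fun v : ℕ => ((v % 2 : ℕ) : ℚ))
      (ce1 (2 ^ p) (Nsh.gm p w).A (Nsh.gm p w).B k l) : ℚ) : ℝ)) =
      fun k l => ((ce1 (2 ^ p) (Nsh.gm p w).A (Nsh.gm p w).B k l % 2 : ℕ) : ℝ) := by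
    funext k l
    push_cast
    rfl
  have e2 : (fun k l : ℕ => (((fun v : ℕ => ((v / 2 : ℕ) : ℚ) / (3 * 2 ^ p))
      (ce1 (2 ^ p) (Nsh.gm p w).A (Nsh.gm p w).B k l) : ℚ) : ℝ)) =
      fun k l => ((ce1 (2 ^ p) (Nsh.gm p w).A (Nsh.gm p w).B k l / 2 : ℕ) : ℝ) /
        (3 * ((2 ^ p : ℕ) : ℝ)) := by
    funext k l
    push_cast
    rfl
  rw [e1, e2] at hG
  obtain ⟨m1, m2, hG'⟩ := one hK (gmA_le p hw) (gmB_le p hw) (mix_rl tX rfl) (mix_rl tY rfl) hG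
  have hB : ((w.1 * 2 ^ p * 2 ^ t : ℕ) : ℝ) = ((w.1 * 2 ^ p : ℕ) : ℝ) * 2 ^ t := by
    push_cast
    rfl
  have hNr : (0 : ℝ) < ((w.1 * 2 ^ p : ℕ) : ℝ) := by exact_mod_cast hN
  have e3 : 6 * ((w.1 * 2 ^ p : ℕ) : ℝ) / ((w.1 * 2 ^ p * 2 ^ t : ℕ) : ℝ) = 6 / 2 ^ t := by
    rw [hB]
    field_simp
  rw [e3] at hG'
  have eK : ((2 ^ p : ℕ) : ℝ) = 2 ^ p := by push_cast; rfl
  have hS := scale (n := w.1) (R := fun i j => ((w.2.getD (i * w.1 + j) 0 : ℚ) : ℝ))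
    (C := fun i j => ((w.2.getD (w.1 ^ 2 + (i * w.1 + j)) 0 : ℚ) : ℝ)) (c := 1) (d := 0)
    (ρ := 1 / 2 ^ p) zero_le_one m1 m2
    (fun i _ j _ => by
      have hs := Nsh.tab_spec p w.2 (i * w.1 + j) (getD_01 hw _).1 (getD_01 hw _).2
      have h1 : ((Nsh.gm p w).A i j : ℝ) / ((2 ^ p : ℕ) : ℝ) =
        (Pool.Agent.Lib.P8e91ed.tabOf p w.2 (i * w.1 + j) : ℝ) / 2 ^ p := by rw [eK]; rfl
      simp only [h1]
      constructor <;> linarith [hs.2.1, hs.2.2])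
    (fun i _ j _ => by
      have hs := Nsh.tab_spec p w.2 (w.1 * w.1 + (i * w.1 + j)) (getD_01 hw _).1 (getD_01 hw _).2
      have h1 : ((Nsh.gm p w).B i j : ℝ) / ((2 ^ p : ℕ) : ℝ) =
        (Pool.Agent.Lib.P8e91ed.tabOf p w.2 (w.1 * w.1 + (i * w.1 + j)) : ℝ) / 2 ^ p := by
        rw [eK]; rfl
      simp only [h1, pow_two w.1]
      constructor <;> linarith [hs.2.1, hs.2.2]) hG'
  rw [pr_rl, pr_rl] at hS
  have hle : 1 * (4 * (ε / 5 + 6 / 2 ^ t)) + 1 / 2 ^ p ≤ ε := by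
    have h6 : (24 : ℝ) / 2 ^ t = 4 * (6 / 2 ^ t) := by ring
    linarith
  refine sol_of_good tX tY ⟨fun i hi => (hS.1 i hi).trans ?_, fun j hj => (hS.2 j hj).trans ?_⟩
  · exact add_le_add_right hle _
  · exact add_le_add_right hle _

end Nwl
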