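import Pool.Agent.Lib.Nwl.GM
import Pool.Agent.Lib.Nwl.Rd
import Pool.Agent.Lib.Nwl.Rnd
import Pool.Agent.Lib.Nwl.Core
import Pool.Agent.Lib.Nwl.Scale
import Pool.Agent.Lib.Nwl.Par
import Pool.Agent.Lib.Nwl.Bits
import Pool.Agent.Lib.Nwl.PCell
import Pool.Agent.Lib.Nsh.Round

/-!
# Correctness of the reduction of Theorem 2

MP_602ccf, project Nwl (owner helper29). Paper proof: /team-store/602ccf_winlose.md, section 4 (h).

PROOF. `al2_spec`: `tabOf_le` (`Pool/Agent/Lib/P8e91ed/Table.lean`), `pK a = 2 ^ (a + 2)`. `g2_spec`: `isG_gm2`, `mA_gm2`, `mB_gm2`.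
`sol2`: `N = n2 C C' w.1`, `B = N * 2 ^ (2 a + 9)`. `good_gm2`, `rdw_encO`, `rnd` (`6 N / B = 6 / 2 ^ (2 a + 9)`): `Good N (RM 1 c) (RM 2 c) e (rl S X) (rl S' Y)` with
`e = 1 / 2 ^ (2 a + 6) + 6 / 2 ^ (2 a + 9) ≤ 1 / 2 ^ (2 a + 5)` (the casts of `qa`, `qb` are `RM 1`, `RM 2`). `Hyp` with `z = 1 / 2 ^ (2 a + 6)`, `δ = 1 / 2 ^ a`
(`pars a`: `K / Q = 1 / 2 ^ (a + 3)`; `hlab`: `lb_lt`, `pQ a = 2 ^ (2 a + 5)`; `hsm`: `ps_lt_pm`). `Hyp.core`: the projections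
`pr m (rl S X) i / ∑ k < n m, rl S X k = pj m X i / tot (n m) X` and `1 ≤ tot (n m) X`. `scale` with `c = 4`, `d = -1`, `ρ = 1 / 2 ^ a`:
`4 * (al2 / pK) - 1 = tab / 2 ^ a` and `Nsh.tab_spec`: regrets at most `16 / 2 ^ a + 1 / 2 ^ a ≤ 32 / 2 ^ a ≤ ε`; `sol_of_good`.
-/

set_option autoImplicit false

namespace Nwl

open Finset Nsh

namespace Sol2Aux

theorem getD_01 {w : Game} (hw : IsG w) (k : ℕ) : 0 ≤ w.2.getD k 0 ∧ w.2.getD k 0 ≤ 1 := by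
  by_cases hk : k < w.2.length
  · rw [List.getD_eq_getElem _ _ hk]
    exact hw.2.2 _ (List.getElem_mem hk)
  · rw [List.getD_eq_default _ _ (not_lt.1 hk)]
    exact ⟨le_refl _, zero_le_one⟩

theorem tab_le (p : ℕ) (l : List ℚ) (i : ℕ) : Pool.Agent.Lib.P8e91ed.tabOf p l i ≤ 2 ^ p := by
  unfold Pool.Agent.Lib.P8e91ed.tabOf
  refine (card_filter_le _ _).trans ?_
  simp

theorem wl_key (v : ℕ) :
    (((if v = 1 then (1 : ℚ) else 0 : ℚ) : ℝ) = 0 ∧ ((if v = 2 then (1 : ℚ) else 0 : ℚ) : ℝ) = 0) ∨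
    (((if v = 1 then (1 : ℚ) else 0 : ℚ) : ℝ) = 1 ∧ ((if v = 2 then (1 : ℚ) else 0 : ℚ) : ℝ) = 0) ∨
    (((if v = 1 then (1 : ℚ) else 0 : ℚ) : ℝ) = 0 ∧ ((if v = 2 then (1 : ℚ) else 0 : ℚ) : ℝ) = 1) := by
  by_cases h1 : v = 1
  · right
    left
    rw [if_pos h1, if_neg (by omega)]
    norm_num
  · by_cases h2 : v = 2
    · right
      right
      rw [if_neg h1, if_pos h2]
      norm_num
    · left
      rw [if_neg h1, if_neg h2]
      norm_num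

theorem q01 (v t : ℕ) : (0 : ℚ) ≤ (if v = t then 1 else 0) ∧ (if v = t then (1 : ℚ) else 0) ≤ 1 := by
  split_ifs <;> norm_num

theorem thr (a v : ℕ) (h : v ≤ 2 ^ a) : pK a ≤ 4 * (2 ^ a + v) ∧ 2 * (2 ^ a + v) ≤ pK a := by
  unfold pK
  have h2 : 2 ^ (a + 2) = 4 * 2 ^ a := by
    rw [pow_add]
    ring
  omega

theorem pr_rl (m S : ℕ) (X : ℕ → ℕ) (i : ℕ) : pr m (rl S X) i = (pj m X i : ℝ) / S := by
  unfold pr rl pj
  rw [← sum_div]
  push_cast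
  rfl

theorem sum_rl (k S : ℕ) (X : ℕ → ℕ) : ∑ i ∈ range k, rl S X i = (tot k X : ℝ) / S := by
  unfold rl tot
  rw [← sum_div]
  push_cast
  rfl

theorem sum_pj (n m : ℕ) (X : ℕ → ℕ) : ∑ i ∈ range n, (pj m X i : ℝ) = tot (n * m) X := by
  have h := sum_mul' n m (fun k => (X k : ℝ))
  unfold pj tot
  push_cast
  exact h.symm

theorem mix_pj {n m : ℕ} {X : ℕ → ℕ} (h : 1 ≤ tot (n * m) X) :
    Mix n (fun i => (pj m X i : ℝ) / tot (n * m) X) := by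
  have h' : ((tot (n * m) X : ℕ) : ℝ) ≠ 0 := Nat.cast_ne_zero.2 (by omega)
  refine ⟨fun i _ => by positivity, ?_⟩
  rw [← sum_div, sum_pj]
  exact div_self h'

theorem pos_tot {k S : ℕ} {X : ℕ → ℕ} (h : 0 < ∑ i ∈ range k, rl S X i) : 1 ≤ tot k X := by
  rw [sum_rl] at h
  by_contra hc
  have h0 : tot k X = 0 := by omega
  rw [h0] at h
  simp at h

theorem proj_eq {n m S : ℕ} (hS : 1 ≤ S) (X : ℕ → ℕ) (i : ℕ) :
    pr m (rl S X) i / ∑ k ∈ range (n * m), rl S X k = (pj m X i : ℝ) / tot (n * m) X := by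
  have h' : (S : ℝ) ≠ 0 := Nat.cast_ne_zero.2 (by omega)
  rw [pr_rl, sum_rl, div_div_div_cancel_right₀ h']

theorem n2_pos (C C' n : ℕ) (hn : 1 ≤ n) : 1 ≤ n2 C C' n := by
  unfold n2 pM
  have h : 0 < (2 * n) ^ (3 * C) := by positivity
  omega

theorem castRM (c : ℕ → ℕ → ℕ) (v : ℕ) :
    (fun k l : ℕ => (((fun u : ℕ => if u = v then (1 : ℚ) else 0) (c k l) : ℚ) : ℝ)) = RM v c := by
  funext k l
  unfold RM
  dsimp only
  split_ifs <;> simp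

theorem u01_RM (N v : ℕ) (c : ℕ → ℕ → ℕ) : U01 N (RM v c) := by
  intro i _ j _
  unfold RM
  split_ifs <;> norm_num

/-- powers of two in terms of `u = 2 ^ a` -/
theorem pw (a : ℕ) : (2 : ℝ) ^ (2 * a + 6) = 64 * (2 ^ a) ^ 2 ∧
    (2 : ℝ) ^ (2 * a + 9) = 512 * (2 ^ a) ^ 2 ∧ ((pK a : ℕ) : ℝ) = 4 * 2 ^ a ∧
    ((pQ a : ℕ) : ℝ) = 32 * (2 ^ a) ^ 2 := by
  unfold pK pQ
  refine ⟨?_, ?_, ?_, ?_⟩
  · rw [pow_add, pow_mul']
    ring
  · rw [pow_add, pow_mul']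
    ring
  · push_cast
    rw [pow_add]
    ring
  · push_cast
    rw [pow_add, pow_mul']
    ring

theorem pQ_eq (a : ℕ) : pQ a = 2 * pD a + pK a := by
  unfold pQ pD pK
  have h1 : 2 ^ (a + 1) ≤ 2 ^ (2 * a + 4) := Nat.pow_le_pow_right (by norm_num) (by omega)
  have h2 : 2 ^ (2 * a + 5) = 2 * 2 ^ (2 * a + 4) := by rw [pow_succ]; ring
  have h3 : 2 ^ (a + 2) = 2 * 2 ^ (a + 1) := by rw [pow_succ]; ring
  omega

end Sol2Aux

open Sol2Aux

theorem al2_spec (a : ℕ) (w : Game) : (∀ i j, pK a ≤ 4 * al2 a w i j ∧ 2 * al2 a w i j ≤ pK a) ∧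
    ∀ i j, pK a ≤ 4 * be2 a w i j ∧ 2 * be2 a w i j ≤ pK a :=
  ⟨fun _ _ => thr a _ (tab_le _ _ _),
    fun _ _ => thr a _ (tab_le _ _ _)⟩

theorem g2_spec (a : ℕ) {C C' : ℕ} (hC : C < C') {w : Game} (hw : IsG w) (r : List Bool) :
    IsG (g2 a C C' w r) ∧ WL (g2 a C C' w r) := by
  have hN : 1 ≤ n2 C C' w.1 := n2_pos C C' w.1 hw.1
  refine ⟨isG_gm2 hN fun k l => ⟨q01 _ 1, q01 _ 2⟩, fun i j => ?_⟩
  have hA := mA_gm2 (N := n2 C C' w.1) (c := c2 a C C' w r)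
    (qa := fun v => if v = 1 then 1 else 0) (qb := fun v => if v = 2 then 1 else 0) i j
  have hB := mB_gm2 (N := n2 C C' w.1) (c := c2 a C C' w r)
    (qa := fun v => if v = 1 then 1 else 0) (qb := fun v => if v = 2 then 1 else 0) i j
  have hk := wl_key (c2 a C C' w r i j)
  change (mA (gm2 (n2 C C' w.1) (c2 a C C' w r) (fun v => if v = 1 then 1 else 0)
      (fun v => if v = 2 then 1 else 0)) i j = 0 ∧
    mB (gm2 (n2 C C' w.1) (c2 a C C' w r) (fun v => if v = 1 then 1 else 0)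
      (fun v => if v = 2 then 1 else 0)) i j = 0) ∨
    (mA (gm2 (n2 C C' w.1) (c2 a C C' w r) (fun v => if v = 1 then 1 else 0)
      (fun v => if v = 2 then 1 else 0)) i j = 1 ∧
    mB (gm2 (n2 C C' w.1) (c2 a C C' w r) (fun v => if v = 1 then 1 else 0)
      (fun v => if v = 2 then 1 else 0)) i j = 0) ∨
    (mA (gm2 (n2 C C' w.1) (c2 a C C' w r) (fun v => if v = 1 then 1 else 0)
      (fun v => if v = 2 then 1 else 0)) i j = 0 ∧
    mB (gm2 (n2 C C' w.1) (c2 a C C' w r) (fun v => if v = 1 then 1 else 0)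
      (fun v => if v = 2 then 1 else 0)) i j = 1)
  rw [hA, hB]
  exact hk

theorem sol2 {ε : ℝ} {a C C' : ℕ} (ha : 5 ≤ a) (hε : 32 / 2 ^ a ≤ ε) (hC0 : 0 < C) (hC : C < C')
    {w : Game} (hw : IsG w) {r : List Bool}
    (hr : GLab w.1 (pm C' w.1) (pM C w.1) (ps C w.1) (pK a) (pD a) (pQ a) (1 / 2 ^ (2 * a + 6))
      (1 / 2 ^ a) (al2 a w) (be2 a w) (lb (2 * a + 5) r))
    {o : List (ℕ × ℕ) × List (ℕ × ℕ)} (ho : Sol (1 / 2 ^ (2 * a + 6)) (g2 a C C' w r) o) :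
    Sol ε w (o2 a C C' w (Nsh.encO o)) := by
  obtain ⟨N, hNd⟩ : ∃ N, N = n2 C C' w.1 := ⟨_, rfl⟩
  obtain ⟨B, hBd⟩ : ∃ B, B = N * 2 ^ (2 * a + 9) := ⟨_, rfl⟩
  have hN : 1 ≤ N := hNd ▸ n2_pos C C' w.1 hw.1
  obtain ⟨mx, my, hg⟩ := good_gm2 ho
  rw [castRM, castRM] at hg
  rw [← hNd] at mx my hg
  have hl1 : o.1.length = N := hNd ▸ ho.1
  have hl2 : o.2.length = N := hNd ▸ ho.2.1
  obtain ⟨rX, rY⟩ := rdw_encO (B := B) hl1 hl2 mx my
  have hNB : N < B := by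
    have h2 : 2 ≤ 2 ^ (2 * a + 9) := by
      calc 2 = 2 ^ 1 := by norm_num
        _ ≤ 2 ^ (2 * a + 9) := Nat.pow_le_pow_right (by norm_num) (by omega)
    rw [hBd]
    nlinarith
  obtain ⟨tX, tY, hG⟩ := rnd (u01_RM N 1 _) (u01_RM N 2 _) mx my hg hNB rX rY
  obtain ⟨X, hXd⟩ : ∃ X : ℕ → ℕ, X = fun k => rdw B (Nsh.encO o) k := ⟨_, rfl⟩
  obtain ⟨Y, hYd⟩ : ∃ Y : ℕ → ℕ, Y = fun k => rdw B (Nsh.encO o) (N + k) := ⟨_, rfl⟩
  have tX' : 1 ≤ tot N X := by rw [hXd]; exact tX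
  have tY' : 1 ≤ tot N Y := by rw [hYd]; exact tY
  have hG' : Good N (RM 1 (c2 a C C' w r)) (RM 2 (c2 a C C' w r))
      (1 / 2 ^ (2 * a + 6) + 6 * N / B) (rl (tot N X) X) (rl (tot N Y) Y) := by
    rw [hXd, hYd]
    exact hG
  obtain ⟨u, hu⟩ : ∃ u : ℝ, u = 2 ^ a := ⟨_, rfl⟩
  obtain ⟨p6, p9, pk, pq⟩ := pw a
  rw [← hu] at p6 p9 pk pq
  have hu32 : 32 ≤ u := by
    rw [hu]
    calc (32 : ℝ) = 2 ^ 5 := by norm_num
      _ ≤ 2 ^ a := pow_le_pow_right₀ (by norm_num) ha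
  have hu0 : 0 < u := by linarith
  have hNr : (0 : ℝ) < N := by exact_mod_cast hN
  have hBr : (B : ℝ) = N * (512 * u ^ 2) := by
    rw [hBd, ← p9]
    push_cast
    rfl
  have e3 : 6 * (N : ℝ) / B = 6 / (512 * u ^ 2) := by
    rw [hBr]
    field_simp
  have hz : (1 : ℝ) / 2 ^ (2 * a + 6) = 1 / (64 * u ^ 2) := by rw [p6]
  rw [hz, e3] at hG'
  rw [hz, ← hu] at hr
  have hKQ : ((pK a : ℕ) : ℝ) / ((pQ a : ℕ) : ℝ) = 1 / (8 * u) := by
    rw [pk, pq]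
    field_simp
    norm_num
  have hnd : w.1 * pm C' w.1 + 2 * pM C w.1 = N := hNd.symm
  have hla : 1 ≤ la w.1 := by unfold la; omega
  have hze : 1 / (64 * u ^ 2) + (1 / (64 * u ^ 2) + 6 / (512 * u ^ 2)) ≤ 3 / (64 * u ^ 2) := by
    have h1 : 6 / (512 * u ^ 2) ≤ 1 / (64 * u ^ 2) := by
      rw [div_le_div_iff₀ (by positivity) (by positivity)]
      nlinarith [sq_nonneg u]
    have h2 : 3 / (64 * u ^ 2) = 1 / (64 * u ^ 2) + (1 / (64 * u ^ 2) + 1 / (64 * u ^ 2)) := by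
      ring
    rw [h2]
    linarith
  have hu2 : u ^ 2 = u * u := by ring
  have H : Hyp w.1 (pm C' w.1) (pM C w.1) (ps C w.1) (pK a) (pD a) (pQ a) (1 / (64 * u ^ 2)) (1 / u)
      (1 / (64 * u ^ 2) + 6 / (512 * u ^ 2)) (al2 a w) (be2 a w) (lb (2 * a + 5) r)
      (rl (tot N X) X) (rl (tot N Y) Y) :=
    { hn := hw.1
      hK := by unfold pK; positivity
      hQ := pQ_eq a
      hal := (al2_spec a w).1
      hbe := (al2_spec a w).2
      hlab := fun t => lb_lt (2 * a + 5) r t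
      hs := Nat.mul_pos hC0 hla
      hsm := Nat.mul_lt_mul_of_pos_right hC hla
      hz := by positivity
      he := by positivity
      h1 := by
        rw [hKQ]
        have h5 : 4 * (3 / (64 * u ^ 2)) ≤ 1 / (8 * u) := by
          rw [mul_div_assoc', div_le_div_iff₀ (by positivity) (by positivity)]
          nlinarith
        linarith
      h2 := by
        rw [hKQ]
        have h5 : 2 * (3 / (64 * u ^ 2)) ≤ 1 / u * (1 / (8 * u)) := by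
          rw [mul_div_assoc', div_mul_div_comm, div_le_div_iff₀ (by positivity) (by positivity)]
          nlinarith
        linarith
      h3 := by
        rw [hKQ, mul_div_assoc', div_le_div_iff₀ (by positivity) (by positivity)]
        nlinarith
      h4 := by
        rw [mul_div_assoc', div_le_one hu0]
        linarith
      hG := hr
      hx := hnd ▸ mix_rl tX' rfl
      hy := hnd ▸ mix_rl tY' rfl
      nash := hnd ▸ hG' }
  obtain ⟨cX, cY, hgood⟩ := H.core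
  have sX := pos_tot cX
  have sY := pos_tot cY
  have eX : (fun i => pr (pm C' w.1) (rl (tot N X) X) i /
      ∑ k ∈ range (w.1 * pm C' w.1), rl (tot N X) X k) =
      fun i => (pj (pm C' w.1) X i : ℝ) / tot (w.1 * pm C' w.1) X :=
    funext fun i => proj_eq tX' X i
  have eY : (fun i => pr (pm C' w.1) (rl (tot N Y) Y) i /
      ∑ k ∈ range (w.1 * pm C' w.1), rl (tot N Y) Y k) =
      fun i => (pj (pm C' w.1) Y i : ℝ) / tot (w.1 * pm C' w.1) Y :=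
    funext fun i => proj_eq tY' Y i
  rw [eX, eY] at hgood
  have tb : ∀ k, 4 * (((2 ^ a + Pool.Agent.Lib.P8e91ed.tabOf a w.2 k : ℕ) : ℝ) / (pK a : ℕ)) + -1 =
      (Pool.Agent.Lib.P8e91ed.tabOf a w.2 k : ℝ) / u := by
    intro k
    rw [pk]
    push_cast
    rw [← hu]
    field_simp
    ring
  have hS := scale (n := w.1) (R := fun i j => ((w.2.getD (i * w.1 + j) 0 : ℚ) : ℝ))
    (C := fun i j => ((w.2.getD (w.1 ^ 2 + (i * w.1 + j)) 0 : ℚ) : ℝ)) (c := 4) (d := -1)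
    (ρ := 1 / u) (by norm_num) (mix_pj sX) (mix_pj sY)
    (fun i _ j _ => by
      have hs := Nsh.tab_spec a w.2 (i * w.1 + j) (getD_01 hw _).1 (getD_01 hw _).2
      rw [← hu] at hs
      have h1 : 4 * ((al2 a w i j : ℝ) / (pK a : ℕ)) + -1 =
        (Pool.Agent.Lib.P8e91ed.tabOf a w.2 (i * w.1 + j) : ℝ) / u := tb _
      rw [h1]
      exact ⟨hs.2.1, hs.2.2⟩)
    (fun i _ j _ => by
      have hs := Nsh.tab_spec a w.2 (w.1 * w.1 + (i * w.1 + j)) (getD_01 hw _).1 (getD_01 hw _).2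
      rw [← hu] at hs
      have h1 : 4 * ((be2 a w i j : ℝ) / (pK a : ℕ)) + -1 =
        (Pool.Agent.Lib.P8e91ed.tabOf a w.2 (w.1 * w.1 + (i * w.1 + j)) : ℝ) / u := tb _
      simp only [h1, pow_two w.1]
      exact ⟨hs.2.1, hs.2.2⟩) hgood
  have hle : 4 * (4 * (1 / u)) + 1 / u ≤ ε := by
    have h6 : 4 * (4 * (1 / u)) + 1 / u = 17 / u := by ring
    have h7 : (17 : ℝ) / u ≤ 32 / u := div_le_div_of_nonneg_right (by norm_num) hu0.le
    rw [← hu] at hε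
    linarith
  have hfin : Sol ε w (outp w.1 (pm C' w.1) X Y) :=
    sol_of_good sX sY ⟨fun i hi => (hS.1 i hi).trans (add_le_add_right hle _),
      fun j hj => (hS.2 j hj).trans (add_le_add_right hle _)⟩
  rw [hXd, hYd, hBd, hNd] at hfin
  exact hfin

end Nwl
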